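import Pool.Agent.MP_28f8a1_an.Mg.G42_Par

section

/-! Combinatorial lemmas: Pliss times, density points and selection of a time with few shadows. -/

set_option autoImplicit false

namespace Pool.Agent.MP_28f8a1_an.G42.Act

open Finset

open Classical in
/-- The number of `i` in `[1, n]` with property `H`. -/
noncomputable def cnt (H : ℕ → Prop) (n : ℕ) : ℝ := ((range n).filter fun i => H (i + 1)).card

open Classical in
theorem cnt_succ (H : ℕ → Prop) (n : ℕ) :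
    cnt H (n + 1) = cnt H n + if H (n + 1) then 1 else 0 := by
  unfold cnt
  rw [range_add_one, filter_insert]
  split_ifs
  · rw [card_insert_of_notMem (by simp), Nat.cast_succ]
  · rw [add_zero]

theorem cnt_add_le (H : ℕ → Prop) (a t : ℕ) : cnt H (a + t) ≤ cnt H a + t := by
  induction t with
  | zero => simp
  | succ t ih =>
    rw [← add_assoc, cnt_succ, Nat.cast_succ]
    split_ifs <;> linarith

theorem cnt_const {H : ℕ → Prop} {a : ℕ} (t : ℕ) (h : ∀ i < t, ¬ H (a + i + 1)) :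
    cnt H (a + t) = cnt H a := by
  induction t with
  | zero => simp
  | succ t ih =>
    rw [← add_assoc, cnt_succ, if_neg (h t (by omega)), add_zero, ih fun i hi => h i (by omega)]

theorem pliss {a : ℕ → ℝ} {lam : ℝ} (h : ∀ n, a (n + 1) ≤ a n + lam) (n : ℕ) :
    ∀ j ≤ n, a j - a 0 ≤ lam * cnt (fun i => ∀ j ≤ i, a j ≤ a i) n := by
  induction n with
  | zero =>
    intro j hj
    simp [Nat.le_zero.mp hj, cnt]
  | succ n ih =>
    intro j hj
    rw [cnt_succ]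
    split_ifs with h1
    · linarith [h1 j hj, h n, ih n le_rfl]
    · rw [add_zero]
      rcases hj.eq_or_lt with rfl | hj
      · push Not at h1
        obtain ⟨i, hi, h2⟩ := h1
        rcases hi.eq_or_lt with rfl | hi
        · exact absurd h2 (lt_irrefl _)
        · linarith [ih i (by omega)]
      · exact ih j (by omega)

theorem dense_times {H : ℕ → Prop} {θ : ℝ} (hθ : 0 < θ) {n0 : ℕ} (h : 2 * θ * n0 ≤ cnt H n0)
    {K : ℕ} (hK : 2 ≤ θ * K) : ∃ F : Finset ℕ, θ * n0 ≤ F.card ∧ ∀ n ∈ F, n < n0 ∧ H (n + 1) ∧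
      ∀ x, 1 ≤ x → n + 1 + K * x ≤ n0 → ∃ l, x ≤ l ∧ l ≤ K * x ∧ H (n + 1 + l) := by
  classical
  refine ⟨(range n0).filter fun n => ∀ k, n + k ≤ n0 → θ * k ≤ cnt H (n + k) - cnt H n, ?_, ?_⟩
  · have h1 := pliss (a := fun j => θ * (n0 - j : ℕ) - cnt H (n0 - j)) (lam := 1) (fun j => by
      rcases le_or_gt n0 j with hj | hj
      · rw [Nat.sub_eq_zero_of_le hj, Nat.sub_eq_zero_of_le (by omega)]
        linarith
      · rw [show n0 - j = n0 - (j + 1) + 1 by omega]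
        have := cnt_add_le H (n0 - (j + 1)) 1
        push_cast at this ⊢
        linarith) n0 n0 le_rfl
    rw [Nat.sub_self, Nat.sub_zero, one_mul, show cnt H 0 = 0 by simp [cnt], Nat.cast_zero] at h1
    refine le_trans (by linarith) (h1.trans ?_)
    refine Nat.cast_le.mpr (card_le_card_of_injOn (fun i => n0 - (i + 1)) (fun i hi => ?_)
      fun i hi j hj hij => ?_)
    · simp only [mem_coe, mem_filter, mem_range] at hi ⊢
      refine ⟨by omega, fun k hk => ?_⟩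
      have h2 := hi.2 (n0 - (n0 - (i + 1) + k)) (by omega)
      rw [Nat.sub_sub_self hk, Nat.cast_add] at h2
      linarith
    · simp only [mem_coe, mem_filter, mem_range] at hi hj hij
      omega
  · intro n hn
    rw [mem_filter, mem_range] at hn
    refine ⟨hn.1, ?_, fun x hx hn0 => ?_⟩
    · by_contra h1
      have := hn.2 1 hn.1
      rw [cnt_succ, if_neg h1, Nat.cast_one] at this
      linarith
    · by_contra h1
      push Not at h1
      have hK1 : 1 ≤ K := Nat.pos_of_ne_zero fun h => by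
        rw [h, Nat.cast_zero] at hK
        linarith
      have h2 : x ≤ K * x := Nat.le_mul_of_pos_left x hK1
      have h3 := hn.2 (x + (K * x + 1 - x)) (by omega)
      rw [← add_assoc, cnt_const _ fun i hi => by
        rw [show n + x + i + 1 = n + 1 + (x + i) by omega]
        exact h1 _ (by omega) (by omega), show x + (K * x + 1 - x) = K * x + 1 by omega] at h3
      have h4 := cnt_add_le H n x
      have h5 : (1 : ℝ) ≤ x := by exact_mod_cast hx
      push_cast at h3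
      nlinarith

theorem select_time {F : Finset ℕ} {n0 : ℕ} (hF : ∀ n ∈ F, n < n0) {ψ : ℕ → ℕ → ℝ}
    (hψ : ∀ l j, 0 ≤ ψ l j) {W : ℕ → ℝ} (hW : ∀ j, ∑ l ∈ range n0, ψ l j ≤ W j)
    (h : ∑ j ∈ range n0, W j < F.card) : ∃ n ∈ F, ∑ j ∈ range (n + 1), ψ (n - j) j < 1 := by
  by_contra hcon
  push Not at hcon
  have h1 : (F.card : ℝ) ≤ ∑ n ∈ F, ∑ j ∈ range (n + 1), ψ (n - j) j := by
    rw [card_eq_sum_ones, Nat.cast_sum]
    exact sum_le_sum fun n hn => by simpa using hcon n hn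
  rw [sum_comm' (t' := range n0) (s' := fun j => F.filter fun n => j ≤ n) (fun n j => by
    simp only [mem_range, mem_filter]
    exact ⟨fun h => ⟨⟨h.1, by omega⟩, by have := hF n h.1; omega⟩,
      fun h => ⟨h.1.1, by omega⟩⟩)] at h1
  refine absurd (h1.trans (sum_le_sum fun j _ => le_trans ?_ (hW j))) (not_le.mpr h)
  rw [← sum_image (s := F.filter fun n => j ≤ n) (g := fun n => n - j) (f := fun l => ψ l j)
    fun n hn n' hn' h => by
      rw [mem_coe, mem_filter] at hn hn'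
      simp only at h
      omega]
  refine sum_le_sum_of_subset_of_nonneg (fun l hl => ?_) fun l _ _ => hψ l j
  obtain ⟨n, hn, rfl⟩ := mem_image.mp hl
  have := hF n (mem_filter.mp hn).1
  exact mem_range.mpr (by omega)

theorem count_le (n : ℕ) {y w : ℝ} (hy : 0 ≤ y) (hw : 0 ≤ w) :
    ∑ l ∈ range n, (if (l : ℝ) ≤ y then w else 0) ≤ (y + 1) * w := by
  rw [← sum_filter, sum_const, nsmul_eq_mul]
  have h1 : ((range n).filter fun l : ℕ => (l : ℝ) ≤ y).card ≤ ⌊y⌋₊ + 1 :=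
    (card_le_card fun l hl => mem_range.mpr
      (Nat.lt_succ_of_le (Nat.le_floor (mem_filter.mp hl).2))).trans_eq (card_range _)
  have h2 : (((range n).filter fun l : ℕ => (l : ℝ) ≤ y).card : ℝ) ≤ ⌊y⌋₊ + 1 := by
    exact_mod_cast h1
  gcongr
  linarith [Nat.floor_le hy]

theorem trim_card {F : Finset ℕ} {n0 : ℕ} (hF : ∀ n ∈ F, n < n0) (M : ℕ) :
    F.card ≤ (F.filter fun n => M ≤ n ∧ n + M ≤ n0).card + 2 * M := by
  refine (card_le_card (t := (F.filter fun n => M ≤ n ∧ n + M ≤ n0) ∪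
    (range M ∪ Ico (n0 - M) n0)) fun n hn => ?_).trans ((card_union_le _ _).trans ?_)
  · have := hF n hn
    simp only [mem_union, mem_filter, mem_range, mem_Ico, hn, true_and]
    omega
  · have := card_union_le (range M) (Ico (n0 - M) n0)
    rw [card_range, Nat.card_Ico] at this
    omega

end Pool.Agent.MP_28f8a1_an.G42.Act

end

section

/-! Elementary dynamical estimates for a polynomial with several critical points. -/

set_option autoImplicit false

namespace Pool.Agent.MP_28f8a1_an.G42.Act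

open MeasureTheory Metric Set Real Filter Topology Polynomial
open scoped ENNReal

/-- Escape radius and a bound for the derivative. -/
structure Dyn (T : ℂ[X]) (Λ L : ℝ) : Prop where
  one : 1 ≤ Λ
  L1 : 1 ≤ L
  esc : ∀ z : ℂ, Λ ≤ ‖z‖ → 2 * ‖z‖ ≤ ‖fp T z‖
  der : ∀ z : ℂ, ‖z‖ ≤ Λ + 1 → ‖lam T z‖ ≤ Real.exp L
  big : 4 * Λ ≤ Real.exp L

/-- The orbit is bounded. -/
def Bd (T : ℂ[X]) (Λ : ℝ) (x : ℂ) : Prop := ∀ j, ‖(fp T)^[j] x‖ ≤ Λ

/-- The set lies between two levels of the basin of infinity. -/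
def Lev (T : ℂ[X]) (Λ : ℝ) (S : Set ℂ) : Prop :=
  ∃ l, ∀ z ∈ S, ‖(fp T)^[l] z‖ < Λ + 1 ∧ Λ + 1 ≤ ‖(fp T)^[l + 2] z‖

/-- The differential with poles on an orbit. -/
noncomputable def phi (T : ℂ[X]) (c : ℂ) (N : ℕ) (z : ℂ) : ℂ :=
  ∑ k ∈ Finset.range (N + 1), (Pd T c k)⁻¹ * (z - (fp T)^[k] c)⁻¹

/-- The differentials have small mass on the levels. -/
def Mass (T : ℂ[X]) (Λ L : ℝ) (c : ℂ) : Prop :=
  ∀ N, Pd T c (N + 1) ≠ 0 → ∀ w σ, Lev T Λ (ball w σ) →
    LI (ball w σ) (fun z => ‖phi T c N z‖) ≤ ENNReal.ofReal (Real.exp L * ‖Pd T c (N + 1)‖⁻¹)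

variable {T : ℂ[X]} {Λ L : ℝ}

theorem it_add (x : ℂ) (j k : ℕ) : (fp T)^[j] ((fp T)^[k] x) = (fp T)^[j + k] x :=
  (Function.iterate_add_apply _ _ _ _).symm

theorem Bd.iter {x : ℂ} (h : Bd T Λ x) (k : ℕ) : Bd T Λ ((fp T)^[k] x) := fun j => by
  rw [it_add]
  exact h _

theorem Lev.ne {S : Set ℂ} (h : Lev T Λ S) {x : ℂ} (hx : Bd T Λ x) (k : ℕ) :
    (fp T)^[k] x ∉ S := fun hk => by
  obtain ⟨l, hl⟩ := h
  linarith [(hl _ hk).2, hx.iter k (l + 2)]

theorem Lev.mono {S S' : Set ℂ} (h : Lev T Λ S) (hS : S' ⊆ S) : Lev T Λ S' :=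
  h.imp fun _ hl z hz => hl z (hS hz)

theorem measurable_phi (c : ℂ) (N : ℕ) : Measurable (phi T c N) := by
  unfold phi
  fun_prop

theorem Dyn.lip (D : Dyn T Λ L) {u v : ℂ} (hu : ‖u‖ ≤ Λ + 1) (hv : ‖v‖ ≤ Λ + 1) :
    ‖fp T u - fp T v‖ ≤ Real.exp L * ‖u - v‖ :=
  (convex_closedBall (0 : ℂ) (Λ + 1)).norm_image_sub_le_of_norm_hasDerivWithin_le
    (fun z _ => (fp_deriv z).hasDerivWithinAt)
    (fun _ hz => D.der _ (mem_closedBall_zero_iff.mp hz))
    (mem_closedBall_zero_iff.mpr hv) (mem_closedBall_zero_iff.mpr hu)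

theorem Dyn.stay (D : Dyn T Λ L) {n l : ℕ} (hl : l ≤ n) {z w : ℂ}
    (hw : ∀ j < l, ‖(fp T)^[j] w‖ ≤ Λ + 1 / 2) (hz : ‖z - w‖ ≤ Real.exp (-(L * n)) / 4) :
    ∀ j ≤ l, ‖(fp T)^[j] z - (fp T)^[j] w‖ ≤ Real.exp (L * j) * ‖z - w‖ ∧
      ‖(fp T)^[j] z - (fp T)^[j] w‖ ≤ 1 / 4 := by
  have hL0 : 0 ≤ L := by linarith [D.L1]
  have h1 : ∀ j ≤ l, Real.exp (L * j) * ‖z - w‖ ≤ 1 / 4 := fun j hj => by
    have h2 : Real.exp (L * j) ≤ Real.exp (L * n) := by
      have : (j : ℝ) ≤ n := by exact_mod_cast hj.trans hl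
      gcongr
    have h3 : Real.exp (L * n) * Real.exp (-(L * n)) = 1 := by rw [← Real.exp_add]; simp
    nlinarith [Real.exp_pos (L * n), norm_nonneg (z - w)]
  suffices h : ∀ j ≤ l, ‖(fp T)^[j] z - (fp T)^[j] w‖ ≤ Real.exp (L * j) * ‖z - w‖ from
    fun j hj => ⟨h j hj, (h j hj).trans (h1 j hj)⟩
  intro j hj
  induction j with
  | zero => simp
  | succ j ih =>
    have h2 := ih (by omega)
    have h3 := hw j hj
    have h4 := norm_sub_norm_le ((fp T)^[j] z) ((fp T)^[j] w)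
    rw [Function.iterate_succ_apply', Function.iterate_succ_apply', Nat.cast_succ, mul_add, mul_one,
      add_comm, Real.exp_add, mul_assoc]
    refine (D.lip (by linarith [h1 j (by omega)]) (by linarith)).trans ?_
    gcongr

theorem Dyn.stay' (D : Dyn T Λ L) {n j : ℕ} (hj : j ≤ n) {z w : ℂ} (hw : Bd T Λ w)
    (hz : ‖z - w‖ ≤ Real.exp (-(L * n)) / 4) :
    ‖(fp T)^[j] z - (fp T)^[j] w‖ ≤ Real.exp (L * n) * ‖z - w‖ := by
  have hL0 : 0 ≤ L := by linarith [D.L1]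
  refine (D.stay le_rfl (fun i _ => (hw i).trans (by linarith)) hz j hj).1.trans ?_
  have : (j : ℝ) ≤ n := by exact_mod_cast hj
  gcongr

theorem Dyn.Pd_le (D : Dyn T Λ L) {z : ℂ} {n : ℕ} (hz : ∀ j < n, ‖(fp T)^[j] z‖ ≤ Λ + 1) :
    ‖Pd T z n‖ ≤ Real.exp (L * n) := by
  induction n with
  | zero => simp [Pd_zero]
  | succ n ih =>
    rw [Pd_succ', norm_mul, Nat.cast_succ n, mul_add, mul_one, add_comm (L * n), Real.exp_add]
    exact mul_le_mul (D.der _ (hz n (by omega))) (ih fun j hj => hz j (by omega))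
      (norm_nonneg _) (Real.exp_pos _).le

theorem Dyn.Pd_bd (D : Dyn T Λ L) {z : ℂ} (hz : Bd T Λ z) (n : ℕ) :
    ‖Pd T z n‖ ≤ Real.exp (L * n) := D.Pd_le fun j _ => by linarith [hz j]

theorem Dyn.Pd_lip (D : Dyn T Λ L) {x z : ℂ} {n : ℕ} (hx : Bd T Λ x)
    (hz : ‖z - x‖ < Real.exp (-(L * n)) / 4) :
    ‖Pd T z n - Pd T x n‖ ≤ 8 * Real.exp (L * n) ^ 2 * ‖z - x‖ := by
  set E := Real.exp (L * n) with hE
  have hE0 : 0 < E := Real.exp_pos _
  have h3 : Real.exp (-(L * n)) = E⁻¹ := Real.exp_neg _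
  have hb : ∀ v ∈ ball x (Real.exp (-(L * n)) / 4), ‖Pd T v n‖ ≤ E := fun v hv =>
    D.Pd_le fun j hj => by
      linarith [(D.stay le_rfl (fun j _ => (hx j).trans (by linarith))
        (mem_ball_iff_norm.mp hv).le j hj.le).2, hx j,
        norm_sub_norm_le ((fp T)^[j] v) ((fp T)^[j] x)]
  have h4 := Complex.dist_le_div_mul_dist_of_mapsTo_ball (f := fun v => Pd T v n) (c := x)
    (R₁ := Real.exp (-(L * n)) / 4) (R₂ := 2 * E) (z := z) (iter_diff n).deriv.differentiableOn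
    (fun v hv => by
      rw [mem_closedBall, dist_eq_norm]
      linarith [norm_sub_le (Pd T v n) (Pd T x n), hb v hv,
        hb x (mem_ball_self (by positivity))]) (mem_ball_iff_norm.mpr hz)
  rwa [dist_eq_norm, dist_eq_norm, h3,
    show 2 * E / (E⁻¹ / 4) = 8 * E ^ 2 by field_simp; norm_num] at h4

theorem Dyn.lin (D : Dyn T Λ L) {x z : ℂ} {n : ℕ} (hx : Bd T Λ x)
    (hz : ‖z - x‖ < Real.exp (-(L * n)) / 4) :
    ‖(fp T)^[n] z - (fp T)^[n] x - Pd T x n * (z - x)‖ ≤ 8 * Real.exp (L * n) ^ 2 * ‖z - x‖ ^ 2 := by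
  have h := (convex_closedBall x ‖z - x‖).norm_image_sub_le_of_norm_hasDerivWithin_le
    (f := fun v => (fp T)^[n] v - Pd T x n * v) (f' := fun v => Pd T v n - Pd T x n * 1)
    (C := 8 * Real.exp (L * n) ^ 2 * ‖z - x‖) (x := x) (y := z)
    (fun v _ => ((iter_deriv n v).sub ((hasDerivAt_id v).const_mul _)).hasDerivWithinAt)
    (fun v hv => by
      have h1 := mem_closedBall_iff_norm.mp hv
      rw [mul_one]
      refine (D.Pd_lip hx (h1.trans_lt hz)).trans ?_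
      gcongr) (mem_closedBall_self (norm_nonneg _)) (mem_closedBall_iff_norm.mpr le_rfl)
  rw [sq ‖z - x‖, ← mul_assoc]
  refine le_of_eq_of_le ?_ h
  congr 1
  ring

theorem Dyn.gain (D : Dyn T Λ L) {x z : ℂ} {n : ℕ} (hx : Bd T Λ x)
    (hz : 16 * Real.exp (2 * (L * n)) * ‖z - x‖ ≤ 1) (h1 : 1 ≤ ‖Pd T x n‖) :
    ‖Pd T x n‖ ≤ 2 * ‖Pd T z n‖ := by
  have hL0 : 0 ≤ L := by linarith [D.L1]
  have hE1 : 1 ≤ Real.exp (L * n) := Real.one_le_exp (by positivity)
  have h2 : Real.exp (2 * (L * n)) = Real.exp (L * n) ^ 2 := by rw [two_mul, Real.exp_add, sq]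
  rw [h2] at hz
  have h4 := D.Pd_lip hx (z := z) (n := n) (by
    rw [Real.exp_neg, inv_eq_one_div, div_div, lt_div_iff₀ (by positivity)]
    nlinarith [norm_nonneg (z - x), mul_nonneg (norm_nonneg (z - x)) (zero_le_one.trans hE1)])
  rw [norm_sub_rev] at h4
  linarith [norm_sub_norm_le (Pd T x n) (Pd T z n)]

theorem Dyn.basin (D : Dyn T Λ L) {x : ℂ} {n : ℕ} (hx : Bd T Λ x) {ρ : ℝ} (hρ : 0 < ρ)
    (hρ1 : ρ ≤ 1 / 2) (h1 : Real.exp L < ρ * ‖Pd T x n‖) :
    ∃ w ∈ ball x ρ, Lev T Λ (ball w (Real.exp (-(L * n)) / 4)) := by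
  have hΛ := D.one
  obtain ⟨w, hw, h2⟩ : ∃ w ∈ ball x ρ, Λ + 1 / 2 < ‖(fp T)^[n] w‖ := by
    by_contra h
    push Not at h
    have h2 := Complex.norm_deriv_le_div_of_mapsTo_ball (R₂ := Real.exp L) (c := x)
      (iter_diff (T := T) n).differentiableOn (fun y hy => by
        rw [mem_closedBall, dist_eq_norm]
        linarith [norm_sub_le ((fp T)^[n] y) ((fp T)^[n] x), h y hy, hx n, D.big]) hρ
    rw [le_div_iff₀ hρ, ← Pd] at h2
    linarith
  have hex : ∃ n, Λ + 1 / 2 < ‖(fp T)^[n] w‖ := ⟨n, h2⟩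
  classical
  have h3 := Nat.find_spec hex
  have h4 : Nat.find hex ≤ n := Nat.find_min' hex h2
  have h5 : ∀ j < Nat.find hex, ‖(fp T)^[j] w‖ ≤ Λ + 1 / 2 := fun j hj =>
    not_lt.mp (Nat.find_min hex hj)
  generalize Nat.find hex = l at h3 h4 h5
  cases l with
  | zero =>
    rw [mem_ball, dist_eq_norm] at hw
    have := hx 0
    simp only [Function.iterate_zero, id] at this h3
    linarith [norm_sub_norm_le w x]
  | succ l =>
    refine ⟨w, hw, l, fun z hz => ⟨?_, ?_⟩⟩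
    · linarith [(D.stay h4 h5 (mem_ball_iff_norm.mp hz).le l (by omega)).2, h5 l (by omega),
        norm_sub_norm_le ((fp T)^[l] z) ((fp T)^[l] w)]
    · have h6 := (D.stay h4 h5 (mem_ball_iff_norm.mp hz).le (l + 1) le_rfl).2
      have h7 := norm_sub_norm_le ((fp T)^[l + 1] w) ((fp T)^[l + 1] z)
      rw [norm_sub_rev] at h7
      rw [Function.iterate_succ_apply']
      linarith [D.esc ((fp T)^[l + 1] z) (by linarith)]

theorem Pd_norm (x : ℂ) (j k : ℕ) :
    ‖Pd T x (j + k)‖ = ‖Pd T ((fp T)^[k] x) j‖ * ‖Pd T x k‖ := by rw [Pd_add, norm_mul]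

theorem Pd_ne {x : ℂ} {n k : ℕ} (h : Pd T x n ≠ 0) (hk : k ≤ n) : Pd T x k ≠ 0 := by
  obtain ⟨j, rfl⟩ := Nat.exists_eq_add_of_le' hk
  rw [Pd_add] at h
  exact right_ne_zero_of_mul h

theorem Dyn.an_le (D : Dyn T Λ L) {x : ℂ} (hx : Bd T Λ x) {j k : ℕ} (h : Pd T x (j + k) ≠ 0) :
    ‖Pd T x k‖⁻¹ ≤ Real.exp (L * j) * ‖Pd T x (j + k)‖⁻¹ := by
  rw [← div_eq_mul_inv, inv_eq_one_div, div_le_div_iff₀
    (norm_pos_iff.mpr (Pd_ne h (by omega))) (norm_pos_iff.mpr h), one_mul, Pd_norm]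
  exact mul_le_mul_of_nonneg_right (D.Pd_bd (hx.iter k) j) (norm_nonneg _)

theorem inner_pole {c : ℂ} {j k : ℕ} {h : ℂ → ℂ} {ρ : ℝ} (hρ : 0 < ρ)
    (hb : Br T (j + k) h (ball ((fp T)^[j + k] c) ρ)) (hh : h ((fp T)^[j + k] c) = c) {u : ℂ}
    (hu : u ∈ ball ((fp T)^[j + k] c) (ρ / 68)) (huk : h u = (fp T)^[k] c) :
    ‖Pd T c k‖⁻¹ ≤ 3 * ‖Pd T ((fp T)^[j] c) k‖⁻¹ := by
  have hx := mem_ball_self (x := (fp T)^[j + k] c) hρ
  have hu' := ball_subset_ball (show ρ / 68 ≤ ρ by linarith) hu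
  rw [mem_ball, dist_eq_norm] at hu
  have hg := hb.iter (Nat.le_add_right j k)
  have h1 := lin_deriv hρ (hb.univ isOpen_ball) (z := u) (η := 1 / 2) (by norm_num) (by linarith)
  have h2 := lin_deriv hρ (hg.univ isOpen_ball) (z := u) (η := 1 / 2) (by norm_num) (by linarith)
  have h3 := hb.norm_deriv isOpen_ball hx
  have h4 := hg.norm_deriv isOpen_ball hx
  have h0 := left_ne_zero_of_mul_eq_one (hb.mul_deriv isOpen_ball hx)
  have h5 : deriv (fun z => (fp T)^[j] (h z)) u = Pd T ((fp T)^[k] c) j * deriv h u := by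
    rw [← huk]
    exact ((iter_deriv j (h u)).comp u (hb.diff.hasDerivAt (isOpen_ball.mem_nhds hu'))).deriv
  rw [hh, Pd_add] at h0
  rw [hh, Pd_add, norm_mul] at h3
  rw [hh, Nat.add_sub_cancel_left] at h4
  have h6 := norm_sub_norm_le (deriv h ((fp T)^[j + k] c)) (deriv h u)
  have h7 := norm_sub_norm_le (deriv (fun z => (fp T)^[j] (h z)) u)
    (deriv (fun z => (fp T)^[j] (h z)) ((fp T)^[j + k] c))
  rw [norm_sub_rev] at h6
  rw [h5, norm_mul, ← h5] at h7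
  have h8 : 0 < ‖Pd T ((fp T)^[k] c) j‖ := norm_pos_iff.mpr (left_ne_zero_of_mul h0)
  have h9 : ‖Pd T c k‖⁻¹ = ‖Pd T ((fp T)^[k] c) j‖ * ‖deriv h ((fp T)^[j + k] c)‖ := by
    rw [h3, mul_inv, mul_inv_cancel_left₀ h8.ne']
  rw [h9, ← h4]
  nlinarith

/-- A lift is obstructed only close to a critical point. -/
theorem Dyn.lift (D : Dyn T Λ L) (hT : 0 < T.natDegree) {h : ℂ → ℂ} {x p : ℂ} {R : ℝ} (hR : 0 < R)
    (hh : DifferentiableOn ℂ h (ball x R)) (hp : fp T p = h x) (hb : Bd T Λ p)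
    (h0 : lam T p ≠ 0) :
    (∃ g, DifferentiableOn ℂ g (ball x R) ∧ (∀ z ∈ ball x R, fp T (g z) = h z) ∧ g x = p) ∨
      ∃ u ∈ ball x R, ∃ ω, lam T ω = 0 ∧ h u = fp T ω ∧ ∃ w ∈ ball x R,
        ‖lam T p‖ ^ 2 ≤ 64 * Real.exp L ^ 2 * ‖h x - h w‖ := by
  obtain ⟨ι, h1, h2⟩ := t1711_inv (fp_diff (T := T)) (p := p) (by rwa [(fp_deriv p).deriv])
  have hn := ball_mem_nhds x hR
  rw [hp] at h2
  obtain ⟨s, hs, h3⟩ := Metric.eventually_nhds_iff_ball.1
    (((hh.continuousOn.continuousAt hn).eventually h2).and hn)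
  have hg : ι (h x) = p := by rw [← hp, h1.self_of_nhds]
  obtain ⟨s', g, a1, a2, a3, a4, a5, a6⟩ := max_lift hT (g := fun z => ι (h z))
    (lt_min hs hR) (min_le_right s R) hh (fun z hz => by
      have h4 := h3 z (ball_subset_ball (min_le_left _ _) hz)
      exact (h4.1.2.comp z (hh.differentiableAt (isOpen_ball.mem_nhds h4.2))).differentiableWithinAt)
    (fun z hz => (h3 z (ball_subset_ball (min_le_left _ _) hz)).1.1) (by rwa [hg])
  rw [hg] at a5
  rcases a6 with rfl | ⟨u, ω, b1, b2, b3, b4, b5⟩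
  · exact Or.inl ⟨g, a3, a4, a5⟩
  refine Or.inr ⟨u, mem_ball_iff_norm.mpr (b1 ▸ b2), ω, b3, b4.symm, ?_⟩
  set μ := ‖lam T p‖ with hμ
  have hμ0 : 0 < μ := norm_pos_iff.mpr h0
  set E := Real.exp L with hE
  have hE0 : 0 < E := Real.exp_pos _
  have hμE : μ ≤ E := D.der p (by linarith [show ‖p‖ ≤ Λ from hb 0])
  set r := μ / (32 * E ^ 2) with hr
  have hr0 : 0 < r := by positivity
  have hrE : r < Real.exp (-(L * (1 : ℕ))) / 4 := by
    rw [Nat.cast_one, mul_one, Real.exp_neg, ← hE, hr, div_lt_div_iff₀ (by positivity) four_pos,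
      show E⁻¹ * (32 * E ^ 2) = 32 * E by field_simp]
    linarith
  have hrμ : 8 * E ^ 2 * r = μ / 4 := by rw [hr]; field_simp; norm_num
  have c1 : r < ‖ω - p‖ := by
    by_contra hc
    have h4 := D.Pd_lip hb ((not_lt.mp hc).trans_lt hrE)
    rw [Pd_one, Pd_one, b3, zero_sub, norm_neg, Nat.cast_one, mul_one, ← hE, ← hμ] at h4
    have h5 := mul_le_mul_of_nonneg_left (not_lt.mp hc) (show 0 ≤ 8 * E ^ 2 by positivity)
    linarith
  obtain ⟨_, c2, w, c3, rfl⟩ := mem_closure_iff.1 b5 {z | r < ‖z - p‖}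
    (isOpen_lt continuous_const (by fun_prop)) c1
  obtain ⟨v, c4, c5⟩ := (convex_ball x s').isPreconnected.intermediate_value
    (f := fun z => ‖g z - p‖) (mem_ball_self a1) c3 ((a3.continuousOn.sub continuousOn_const).norm)
    (show r ∈ _ from ⟨by simp [a5, hr0.le], c2.le⟩)
  refine ⟨v, ball_subset_ball a2 c4, ?_⟩
  simp only at c5
  have h4 := D.lin hb (z := g v) (n := 1) (c5 ▸ hrE)
  rw [Pd_one, Nat.cast_one, mul_one, ← hE, c5, Function.iterate_one, a4 v c4, hp] at h4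
  have h5 := norm_sub_norm_le (lam T p * (g v - p)) (h v - h x)
  rw [norm_sub_rev (lam T p * _), norm_mul, c5, ← hμ, norm_sub_rev (h v)] at h5
  have h6 : μ ^ 2 = 32 * E ^ 2 * (μ * r) := by rw [hr]; field_simp
  have h7 : μ * r ≤ 2 * ‖h x - h v‖ := by nlinarith [mul_pos hμ0 hr0]
  rw [h6]
  nlinarith [sq_nonneg E]

/-- Pulling back a shrinking disc along an orbit until it meets a critical value. -/
theorem Dyn.hit (D : Dyn T Λ L) (hT : 0 < T.natDegree) {ω₀ : ℂ} (hω : lam T ω₀ = 0) {x : ℂ}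
    (hx : x = fp T ω₀) (hb : Bd T Λ x) (h0 : ∀ j, lam T ((fp T)^[j] x) ≠ 0) {ρ q : ℝ} (hρ : 0 < ρ)
    (hq0 : 0 < q) (hq1 : q < 1) (n : ℕ) :
    ∃ l ≤ n, ∃ h, Br T l h (ball ((fp T)^[n] x) (ρ * (1 + q ^ l))) ∧
      h ((fp T)^[n] x) = (fp T)^[n - l] x ∧ ∃ u ∈ ball ((fp T)^[n] x) (ρ * (1 + q ^ (l + 1))),
        ∃ ω, lam T ω = 0 ∧ h u = fp T ω ∧ (l < n → ∃ w ∈ ball ((fp T)^[n] x) (ρ * (1 + q ^ (l + 1))),
          ‖lam T ((fp T)^[n - (l + 1)] x)‖ ^ 2 ≤
            64 * Real.exp L ^ 2 * ‖h ((fp T)^[n] x) - h w‖) := by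
  by_contra hcon
  have key : ∀ l ≤ n, ∃ h, Br T l h (ball ((fp T)^[n] x) (ρ * (1 + q ^ l))) ∧
      h ((fp T)^[n] x) = (fp T)^[n - l] x := by
    intro l hl
    induction l with
    | zero => exact ⟨id, ⟨differentiableOn_id, fun _ _ => rfl⟩, rfl⟩
    | succ l ih =>
      obtain ⟨h, hbr, hh⟩ := ih (by omega)
      have hsub : ball ((fp T)^[n] x) (ρ * (1 + q ^ (l + 1))) ⊆
          ball ((fp T)^[n] x) (ρ * (1 + q ^ l)) :=
        ball_subset_ball (by gcongr 2; exact pow_le_pow_of_le_one hq0.le hq1.le (by omega))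
      rcases D.lift hT (by positivity) (hbr.diff.mono hsub) (p := (fp T)^[n - (l + 1)] x) (by
          rw [hh, ← Function.iterate_succ_apply' (fp T)]
          congr 1
          omega) (hb.iter _) (h0 _) with ⟨G, h1, h3, h2⟩ | ⟨u, hu, ω, h1, h2, h3⟩
      · exact ⟨G, ⟨h1, fun z hz => by
          rw [Function.iterate_succ_apply, h3 z hz, hbr.inv z (hsub hz)]⟩, h2⟩
      · exact absurd ⟨l, by omega, h, hbr, hh, u, hu, ω, h1, h2, fun _ => h3⟩ hcon
  obtain ⟨h, hbr, hh⟩ := key n le_rfl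
  exact hcon ⟨n, le_rfl, h, hbr, hh, _, mem_ball_self (by positivity), ω₀, hω,
    by rw [hh, Nat.sub_self, ← hx]; rfl, fun h => absurd h (lt_irrefl _)⟩

theorem hit_depth {ρ q : ℝ} (hρ : 0 < ρ) (hq0 : 0 < q) (hq1 : q < 1) {l : ℕ} {h : ℂ → ℂ} {x u : ℂ}
    (hb : Br T l h (ball x (ρ * (1 + q ^ l)))) (hu : u ∈ ball x (ρ * (1 + q ^ (l + 1))))
    (hD : ‖Pd T (h x) l‖⁻¹ ≤ (q ^ l) ^ 3) : ‖h x - h u‖ * (1 - q) ^ 2 ≤ 8 * ρ * q ^ l := by
  set p := q ^ l with hp
  have hp0 : 0 < p := by positivity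
  have hp1 : p ≤ 1 := pow_le_one₀ hq0.le hq1.le
  set R := ρ * (1 + p) with hR
  have hR0 : 0 < R := by positivity
  have hR' : (R : ℂ) ≠ 0 := Complex.ofReal_ne_zero.mpr hR0.ne'
  have hU := hb.univ isOpen_ball
  rw [mem_ball, dist_eq_norm, pow_succ, ← hp] at hu
  have h1 : ‖(u - x) / R‖ = ‖u - x‖ / R := by simp [abs_of_pos hR0]
  have h2 : p * (1 - q) / 2 ≤ 1 - ‖(u - x) / R‖ := by
    rw [h1, one_sub_div hR0.ne', div_le_div_iff₀ two_pos hR0, hR]
    nlinarith [mul_nonneg (mul_pos (mul_pos hρ hp0) (sub_pos.mpr hq1)).le (sub_nonneg.mpr hp1)]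
  have h3 : 0 < p * (1 - q) / 2 := by
    have := sub_pos.mpr hq1
    positivity
  have h4 := growth (hU.scale hR0) (z := (u - x) / R) (by linarith)
  rw [hU.scale_deriv hR0 (mem_ball_self one_pos), mul_zero, add_zero,
    show x + R * ((u - x) / R) = u by field_simp; ring, norm_mul, Complex.norm_real,
    Real.norm_eq_abs, abs_of_pos hR0, hb.norm_deriv isOpen_ball (mem_ball_self hR0),
    norm_sub_rev] at h4
  have h5 : ‖h x - h u‖ ≤ p ^ 3 * (2 * ρ) / (p * (1 - q) / 2) ^ 2 := by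
    refine h4.trans ?_
    gcongr
    rw [hR]
    nlinarith
  rw [le_div_iff₀ (by positivity)] at h5
  refine le_of_mul_le_mul_right ?_ (show 0 < p ^ 2 by positivity)
  nlinarith

end Pool.Agent.MP_28f8a1_an.G42.Act

end

section

/-! The three-circles argument with a bounded number of deep poles. -/

set_option autoImplicit false

namespace Pool.Agent.MP_28f8a1_an.G42.Act

open MeasureTheory Metric Set Real Filter Topology Polynomial
open scoped ENNReal

theorem three_circ {Φ : ℂ → ℂ} (hΦ : Differentiable ℂ Φ) {p y : ℂ} {σ r M1 M3 : ℝ} (hσ : 0 < σ)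
    (h1 : σ < ‖p - y‖) (h2 : ‖p - y‖ ≤ r) (hr : r < 1) (hM1 : ∀ z, ‖z - y‖ = σ → ‖Φ z‖ ≤ M1)
    (hM3 : ∀ z, ‖z - y‖ = 1 → ‖Φ z‖ ≤ M3) (m : ℕ) :
    ‖Φ p‖ ≤ max (M1 * (r / σ) ^ m) (M3 * r ^ m) := by
  have hcl : closure (ball y 1 ∩ (closedBall y σ)ᶜ) ⊆ (ball y σ)ᶜ :=
    closure_minimal (fun z hz h => hz.2 (ball_subset_closedBall h)) isOpen_ball.isClosed_compl
  have h := Complex.norm_le_of_forall_mem_frontier_norm_le (U := ball y 1 ∩ (closedBall y σ)ᶜ)
    (f := fun z => Φ z / (z - y) ^ m) (isBounded_ball.subset inter_subset_left)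
    (DifferentiableOn.diffContOnCl (hΦ.differentiableOn.div (by fun_prop) fun z hz =>
      pow_ne_zero _ (sub_ne_zero.mpr fun h => hcl hz (h ▸ mem_ball_self hσ))))
    (C := max (M1 / σ ^ m) M3) (z := p) ?_ (subset_closure ⟨by
      rw [mem_ball, dist_eq_norm]; linarith, by
      rw [mem_compl_iff, mem_closedBall, dist_eq_norm]; linarith⟩)
  · have hp : 0 < ‖p - y‖ := hσ.trans h1
    have hr0 : 0 < r := hp.trans_le h2
    rw [norm_div, norm_pow, div_le_iff₀ (by positivity)] at h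
    have h3 : 0 ≤ max (M1 / σ ^ m) M3 := le_max_of_le_right ((norm_nonneg _).trans
      (hM3 (y + 1) (by simp)))
    refine (h.trans (mul_le_mul_of_nonneg_left (pow_le_pow_left₀ hp.le h2 m) h3)).trans_eq ?_
    rw [max_mul_of_nonneg _ _ (by positivity), div_pow, div_mul_eq_mul_div, mul_div_assoc]
  · intro z hz
    rcases frontier_inter_subset _ _ hz with hz | hz
    · have h3 := hz.1
      rw [frontier_ball y one_ne_zero, mem_sphere, dist_eq_norm] at h3
      rw [norm_div, norm_pow, h3, one_pow, div_one]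
      exact le_max_of_le_right (hM3 z h3)
    · have h3 := hz.2
      rw [frontier_compl, frontier_closedBall y hσ.ne', mem_sphere, dist_eq_norm] at h3
      rw [norm_div, norm_pow, h3]
      exact le_max_of_le_left (div_le_div_of_nonneg_right (hM1 z h3) (by positivity))

theorem three_circ' {Φ : ℂ → ℂ} (hΦ : Differentiable ℂ Φ) {p y : ℂ} {σ r R M1 M3 : ℝ} (hσ : 0 < σ)
    (h1 : σ < ‖p - y‖) (h2 : ‖p - y‖ ≤ r) (hr : r < R) (hM1 : ∀ z, ‖z - y‖ = σ → ‖Φ z‖ ≤ M1)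
    (hM3 : ∀ z, ‖z - y‖ = R → ‖Φ z‖ ≤ M3) (m : ℕ) :
    ‖Φ p‖ ≤ max (M1 * (r / σ) ^ m) (M3 * (r / R) ^ m) := by
  have hR : 0 < R := by linarith
  have hR' : (R : ℂ) ≠ 0 := Complex.ofReal_ne_zero.mpr hR.ne'
  have hn : ‖(p - y) / R - 0‖ = ‖p - y‖ / R := by simp [abs_of_pos hR]
  have hz : ∀ z : ℂ, ‖y + R * z - y‖ = R * ‖z - 0‖ := fun z => by simp [abs_of_pos hR]
  have h := three_circ (Φ := fun u => Φ (y + R * u)) (by fun_prop) (p := (p - y) / R) (y := 0)
    (σ := σ / R) (r := r / R) (M1 := M1) (M3 := M3) (by positivity) (by rw [hn]; gcongr)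
    (by rw [hn]; gcongr) ((div_lt_one hR).mpr hr)
    (fun z h3 => hM1 _ (by rw [hz, h3]; field_simp)) (fun z h3 => hM3 _ (by rw [hz, h3, mul_one])) m
  rwa [show y + R * ((p - y) / R) = p by field_simp; ring, div_div_div_cancel_right₀ hR.ne'] at h

theorem core1 {c a : ℕ → ℂ} {N M : ℕ} (ha : a 0 = 1) {y : ℂ} {σ r R τ η B μ : ℝ} (hσ : 0 < σ)
    (hnp : ∀ k, c k ∉ ball y (2 * σ)) (hμ : 0 ≤ μ)
    (hm : LI (ball y (2 * σ)) (fun v => ‖∑ k ∈ Finset.range (N + 1), a k * (v - c k)⁻¹‖) ≤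
      ENNReal.ofReal μ) (hy : ‖y - c 0‖ + 2 * σ ≤ r) (hr : r < R) (hη : 0 ≤ η)
    (hin : ∀ k < N, ‖c (k + 1) - c 0‖ < r / 8 → ‖a (k + 1)‖ ≤ η) (hτ : 0 < τ)
    (hM : ((Finset.range N).filter fun k => ‖c (k + 1) - c 0‖ < τ).card ≤ M) (hB0 : 0 ≤ B)
    (hB : ∀ k < N, ‖a (k + 1)‖ ≤ B) (m : ℕ) :
    1 ≤ max (9 ^ M * Real.exp (N * (r / τ)) * (r / σ) * (μ / σ + 2 * N * η) * (r / σ) ^ m)
      ((1 + 16 * R / r) ^ M * Real.exp (N * (2 * R / τ)) * (1 + 16 * R / r * (N * B)) *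
        (r / R) ^ m) := by
  classical
  have hr0 : 0 < r := by linarith [norm_nonneg (y - c 0)]
  set I := (Finset.range N).filter fun j => r / 8 ≤ ‖c (j + 1) - c 0‖ with hI
  set w : ℕ → ℂ → ℂ := fun j z => (z - c (j + 1)) / (c 0 - c (j + 1)) with hw
  set Φ : ℂ → ℂ := fun z => ∏ j ∈ I, w j z + (z - c 0) * ∑ k ∈ I,
    a (k + 1) / (c 0 - c (k + 1)) * ∏ j ∈ I.erase k, w j z with hΦ
  have hpos : ∀ j ∈ I, 0 < ‖c (j + 1) - c 0‖ := fun j hj => by
    linarith [(Finset.mem_filter.mp hj).2]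
  have hne : ∀ j ∈ I, c 0 - c (j + 1) ≠ 0 := fun j hj =>
    norm_pos_iff.mp (by rw [norm_sub_rev]; exact hpos j hj)
  have hcard : ∀ S ⊆ I, S.card ≤ N := fun S hS => (Finset.card_le_card hS).trans
    ((Finset.card_filter_le _ _).trans_eq (Finset.card_range N))
  have hprod : ∀ (z : ℂ) (ϱ : ℝ), ‖z - c 0‖ ≤ ϱ → ∀ S ⊆ I,
      ‖∏ j ∈ S, w j z‖ ≤ (1 + 8 * ϱ / r) ^ M * Real.exp (N * (ϱ / τ)) := by
    intro z ϱ hz S hS
    have hϱ : 0 ≤ ϱ := (norm_nonneg _).trans hz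
    have h1 : 1 ≤ 1 + 8 * ϱ / r := le_add_of_nonneg_right (by positivity)
    have h2 : 1 ≤ Real.exp (ϱ / τ) := Real.one_le_exp (by positivity)
    rw [norm_prod]
    refine (Finset.prod_le_prod (g := fun j => (if ‖c (j + 1) - c 0‖ < τ then 1 + 8 * ϱ / r else 1) *
      Real.exp (ϱ / τ)) (fun _ _ => norm_nonneg _) fun j hj => ?_).trans ?_
    · have h4 := (Finset.mem_filter.mp (hS hj)).2
      have h5 := hpos j (hS hj)
      have h6 : ‖w j z‖ ≤ 1 + ϱ / ‖c (j + 1) - c 0‖ := by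
        simp only [hw]
        rw [norm_div, norm_sub_rev (c 0), one_add_div h5.ne']
        gcongr
        rw [norm_sub_rev (c (j + 1))]
        linarith [norm_sub_le_norm_sub_add_norm_sub z (c 0) (c (j + 1))]
      refine h6.trans ?_
      split_ifs with h8
      · refine le_trans ?_ (le_mul_of_one_le_right (by positivity) h2)
        rw [show 8 * ϱ / r = ϱ / (r / 8) by field_simp]
        gcongr
      · have h9 : ϱ / ‖c (j + 1) - c 0‖ ≤ ϱ / τ := by
          gcongr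
          exact not_lt.mp h8
        linarith [Real.add_one_le_exp (ϱ / τ)]
    · rw [Finset.prod_mul_distrib, Finset.prod_const, ← Finset.prod_filter, Finset.prod_const,
        Real.exp_nat_mul]
      exact mul_le_mul (pow_le_pow_right₀ h1 ((Finset.card_le_card (Finset.filter_subset_filter _
        (hS.trans (Finset.filter_subset _ _)))).trans hM)) (pow_le_pow_right₀ h2 (hcard S hS))
        (by positivity) (by positivity)
  have hΦc : Φ (c 0) = 1 := by
    simp only [hΦ, hw, sub_self, zero_mul, add_zero]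
    exact Finset.prod_eq_one fun j hj => div_self (hne j hj)
  have hΦd : Differentiable ℂ Φ := by
    simp only [hΦ, hw]
    fun_prop
  have hcy : 2 * σ ≤ ‖c 0 - y‖ := not_lt.mp fun h => hnp 0 (mem_ball_iff_norm.mpr h)
  refine le_trans (show 1 = ‖Φ (c 0)‖ by rw [hΦc, norm_one]).le (three_circ' hΦd hσ (by linarith)
    (by rw [norm_sub_rev]; linarith) hr (fun z hz => ?_) (fun z hz => ?_) m)
  · set G := 9 ^ M * Real.exp (N * (r / τ)) with hG
    have hzs : ball z σ ⊆ ball y (2 * σ) := ball_subset_ball' (by rw [dist_eq_norm]; linarith)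
    set I' := (Finset.range N).filter fun j => ¬ r / 8 ≤ ‖c (j + 1) - c 0‖ with hI'
    have h1 := LI_mean hσ hΦd.differentiableOn (u := fun v => G * r *
      (‖∑ k ∈ Finset.range (N + 1), a k * (v - c k)⁻¹‖ + ∑ k ∈ I', η * gk (c (k + 1)) v)) (x := z)
      (by fun_prop) fun v hv _ => ?_
    · rw [LI_const_mul _ (by positivity)] at h1
      have h2 : LI (ball z σ) (fun v => ‖∑ k ∈ Finset.range (N + 1), a k * (v - c k)⁻¹‖ +
          ∑ k ∈ I', η * gk (c (k + 1)) v) ≤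
          ENNReal.ofReal μ + ENNReal.ofReal (N * (η * (2 * π * σ))) := by
        refine (LI_add_le _ (by fun_prop) _).trans (add_le_add ((LI_mono_set hzs _).trans hm) ?_)
        refine (LI_sum_le _ _ fun k _ => by fun_prop).trans ((Finset.sum_le_card_nsmul _ _
          (ENNReal.ofReal (η * (2 * π * σ))) fun k _ => ?_).trans ?_)
        · rw [LI_const_mul _ hη, ENNReal.ofReal_mul hη]
          exact mul_le_mul_right (LI_gk_le _ _ _) _
        · rw [ENNReal.ofReal_mul (Nat.cast_nonneg N), ENNReal.ofReal_natCast, nsmul_eq_mul]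
          refine mul_le_mul_left ?_ _
          exact_mod_cast (Finset.card_filter_le _ _).trans_eq (Finset.card_range N)
      have h5 := h1.trans (mul_le_mul_right h2 _)
      rw [← ENNReal.ofReal_add hμ (by positivity), ← ENNReal.ofReal_mul (by positivity),
        ENNReal.ofReal_le_ofReal_iff (by positivity)] at h5
      refine le_of_mul_le_mul_left (h5.trans ?_) (show 0 < π * σ ^ 2 by positivity)
      rw [show π * σ ^ 2 * (G * (r / σ) * (μ / σ + 2 * N * η)) =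
        G * r * (π * μ + N * (η * (2 * π * σ))) by field_simp]
      gcongr
      exact le_mul_of_one_le_left hμ (by linarith [two_le_pi])
    · have hv' := hzs hv
      have hnv : ∀ k, v - c k ≠ 0 := fun k h => hnp k (sub_eq_zero.mp h ▸ hv')
      have hvc : ‖v - c 0‖ ≤ r := by
        rw [mem_ball, dist_eq_norm] at hv'
        linarith [norm_sub_le_norm_sub_add_norm_sub v y (c 0)]
      have h2 : Φ v = (∏ j ∈ I, w j v) * (v - c 0) *
          (∑ k ∈ Finset.range (N + 1), a k * (v - c k)⁻¹ -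
            ∑ k ∈ I', a (k + 1) * (v - c (k + 1))⁻¹) := by
        rw [Finset.sum_range_succ', ha, ← Finset.sum_filter_add_sum_filter_not (Finset.range N)
            fun j => r / 8 ≤ ‖c (j + 1) - c 0‖, ← hI, ← hI', add_right_comm, add_sub_cancel_right,
          mul_add, one_mul, mul_inv_cancel_right₀ (hnv 0), add_comm, mul_comm _ (v - c 0), mul_assoc,
          Finset.mul_sum I]
        simp only [hΦ]
        congr 2
        refine Finset.sum_congr rfl fun k hk => ?_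
        have h4 := hnv (k + 1)
        rw [← Finset.mul_prod_erase _ _ hk]
        simp only [hw]
        field_simp
      have h3 : ‖∏ j ∈ I, w j v‖ ≤ G := by
        have := hprod v r hvc I subset_rfl
        rwa [show 1 + 8 * r / r = 9 by field_simp; norm_num] at this
      rw [h2, norm_mul, norm_mul]
      gcongr
      refine (norm_sub_le _ _).trans (add_le_add le_rfl ((norm_sum_le _ _).trans
        (Finset.sum_le_sum fun k hk => ?_)))
      rw [norm_mul, norm_inv, gk]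
      have h4 := Finset.mem_filter.mp hk
      have h5 := hin k (Finset.mem_range.mp h4.1) (not_le.mp h4.2)
      gcongr
  · have hzc : ‖z - c 0‖ ≤ 2 * R := by linarith [norm_sub_le_norm_sub_add_norm_sub z y (c 0)]
    have h1 := hprod z _ hzc
    rw [show 8 * (2 * R) / r = 16 * R / r by ring] at h1
    set G := (1 + 16 * R / r) ^ M * Real.exp (N * (2 * R / τ)) with hG
    have hG0 : 0 ≤ G := (norm_nonneg _).trans (h1 I subset_rfl)
    have h3 : ‖∑ k ∈ I, a (k + 1) / (c 0 - c (k + 1)) * ∏ j ∈ I.erase k, w j z‖ ≤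
        N * (B / (r / 8) * G) := by
      refine (norm_sum_le _ _).trans ((Finset.sum_le_card_nsmul _ _ (B / (r / 8) * G)
        fun k hk => ?_).trans ?_)
      · have h4 := h1 _ (Finset.erase_subset k I)
        have h5 := hB k (Finset.mem_range.mp (Finset.mem_filter.mp hk).1)
        have h6 := (Finset.mem_filter.mp hk).2
        rw [norm_mul, norm_div, norm_sub_rev (c 0)]
        gcongr
      · rw [nsmul_eq_mul]
        have : (I.card : ℝ) ≤ N := by exact_mod_cast hcard I subset_rfl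
        gcongr
    refine (norm_add_le _ _).trans ?_
    rw [norm_mul, show G * (1 + 16 * R / r * (N * B)) = G + 2 * R * (N * (B / (r / 8) * G)) by
      field_simp; ring]
    exact add_le_add (h1 I subset_rfl) (mul_le_mul hzc h3 (norm_nonneg _) (by linarith))

end Pool.Agent.MP_28f8a1_an.G42.Act

end

section

/-! A critical value which is almost periodic with a short period. -/

set_option autoImplicit false

namespace Pool.Agent.MP_28f8a1_an.G42.Act

open MeasureTheory Metric Set Real Filter Topology Polynomial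
open scoped ENNReal

variable {T : ℂ[X]} {Λ L χ : ℝ}

theorem it_succ_mul (c : ℂ) (u q : ℕ) :
    (fp T)^[(u + 1) * q] c = (fp T)^[q] ((fp T)^[u * q] c) := by
  rw [it_add, Nat.succ_mul, add_comm]

theorem Pd_succ_mul (c : ℂ) (u q : ℕ) :
    Pd T c ((u + 1) * q) = Pd T ((fp T)^[u * q] c) q * Pd T c (u * q) := by
  rw [← Pd_add, Nat.succ_mul, add_comm]

theorem track {c : ℂ} {q n : ℕ} {ϱ μ ε : ℝ} (hμ : 1 ≤ μ)
    (h : ∀ z, ‖z - c‖ ≤ ϱ → ‖(fp T)^[q] z - (fp T)^[q] c‖ ≤ μ * ‖z - c‖)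
    (hε : ‖(fp T)^[q] c - c‖ ≤ ε) (hn : n * μ ^ n * ε ≤ ϱ) :
    ∀ u ≤ n, ‖(fp T)^[u * q] c - c‖ ≤ ϱ := by
  have hε0 : 0 ≤ ε := (norm_nonneg _).trans hε
  have h1 : ∀ u ≤ n, u * μ ^ u * ε ≤ ϱ := fun u hu => le_trans (by gcongr) hn
  suffices h2 : ∀ u ≤ n, ‖(fp T)^[u * q] c - c‖ ≤ u * μ ^ u * ε from
    fun u hu => (h2 u hu).trans (h1 u hu)
  intro u hu
  induction u with
  | zero => simp
  | succ u ih =>
    have h2 := ih (by omega)
    have h3 := h _ (h2.trans (h1 u (by omega)))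
    have h4 := mul_le_mul_of_nonneg_left h2 (zero_le_one.trans hμ)
    have h5 := mul_le_mul_of_nonneg_right (one_le_pow₀ hμ (n := u + 1)) hε0
    rw [it_succ_mul]
    refine (norm_sub_le_norm_sub_add_norm_sub _ ((fp T)^[q] c) _).trans ?_
    rw [pow_succ] at h5 ⊢
    push_cast
    linarith

theorem Dyn.t_le (D : Dyn T Λ L) (hχ : 0 < χ) (hL : 1024 / χ ≤ Real.exp L) {q : ℕ} (hq : 0 < q) :
    1024 * Real.exp (-(L * q)) ≤ χ := by
  have h1 : (1 : ℝ) ≤ q := by exact_mod_cast hq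
  have h2 : Real.exp L ≤ Real.exp (L * q) := Real.exp_le_exp.mpr (by nlinarith [D.L1])
  rw [Real.exp_neg, ← div_eq_mul_inv, div_le_comm₀ (Real.exp_pos _) hχ]
  linarith

theorem exp_mul_neg (x : ℝ) : Real.exp x * Real.exp (-x) = 1 := by rw [← Real.exp_add]; simp

theorem Dyn.Pd_near (D : Dyn T Λ L) {x z : ℂ} {n k : ℕ} (hx : Bd T Λ x)
    (ht : Real.exp (-(L * n)) ≤ 1 / 1024) (hz : ‖z - x‖ ≤ Real.exp (-(L * n)) ^ (k + 3)) :
    ‖Pd T z n - Pd T x n‖ ≤ 8 * Real.exp (-(L * n)) ^ (k + 1) := by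
  have h1 := exp_mul_neg (L * n)
  have h0 := Real.exp_pos (-(L * n))
  have h2 : Real.exp (-(L * n)) ^ (k + 3) ≤ Real.exp (-(L * n)) ^ 2 :=
    pow_le_pow_of_le_one h0.le (by linarith) (by omega)
  refine (D.Pd_lip hx (by nlinarith)).trans ?_
  calc _ ≤ 8 * Real.exp (L * n) ^ 2 * Real.exp (-(L * n)) ^ (k + 3) := by gcongr
    _ = 8 * (Real.exp (L * n) * Real.exp (-(L * n))) ^ 2 * Real.exp (-(L * n)) ^ (k + 1) := by ring
    _ = _ := by rw [h1, one_pow, mul_one]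

theorem Dyn.mult (D : Dyn T Λ L) (hχ : 0 < χ) (hχ1 : χ ≤ 1) (hL : 1024 / χ ≤ Real.exp L) {c : ℂ}
    (hc : Bd T Λ c) {s q : ℕ} (hq : 0 < q) (h1 : 128 ≤ χ ^ 2 * s) (h2 : L * q ≤ χ * s)
    (hε : ‖(fp T)^[q] c - c‖ ≤ Real.exp (-(χ * s / 4)) * Real.exp (-(L * q)) ^ 3)
    (hD : Real.exp (3 * χ * s) ≤ 2 * ‖Pd T c s‖) : Real.exp (χ * q / 16) ≤ ‖Pd T c q‖ := by
  by_contra hcon
  push Not at hcon
  have ht := D.t_le hχ hL hq
  have hq1 : (1 : ℝ) ≤ q := by exact_mod_cast hq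
  have hs0 : (0 : ℝ) ≤ s := Nat.cast_nonneg s
  set t := Real.exp (-(L * q)) with ht'
  have ht0 : 0 < t := Real.exp_pos _
  set μ := Real.exp (χ * q / 8) with hμ
  have hμ1 : 1 ≤ μ := Real.one_le_exp (by positivity)
  have hb : ∀ z, ‖z - c‖ ≤ t ^ 3 → ‖Pd T z q‖ ≤ μ := fun z hz => by
    have h3 := D.Pd_near (k := 0) hc (by linarith) hz
    have h4 := norm_sub_norm_le (Pd T z q) (Pd T c q)
    have h5 := Real.add_one_le_exp (χ * q / 16)
    have h6 : μ = Real.exp (χ * q / 16) * Real.exp (χ * q / 16) := by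
      rw [hμ, ← Real.exp_add]
      congr 1
      ring
    rw [zero_add, pow_one, ← ht'] at h3
    have h7 : 1 ≤ Real.exp (χ * q / 16) := Real.one_le_exp (by positivity)
    nlinarith only [h3, h4, h5, h6, h7, hcon, ht, hq1, hχ, ht0]
  have hn : ((s / q : ℕ) : ℝ) * q ≤ s := by exact_mod_cast Nat.div_mul_le_self s q
  have hμn : μ ^ (s / q) ≤ Real.exp (χ * s / 8) := by
    rw [hμ, ← Real.exp_nat_mul, Real.exp_le_exp]
    nlinarith only [hn, hχ]
  have h3 := track (q := q) (n := s / q) (ϱ := t ^ 3) hμ1 (fun z hz =>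
    (convex_closedBall c (t ^ 3)).norm_image_sub_le_of_norm_hasDerivWithin_le
      (fun v _ => (iter_deriv q v).hasDerivWithinAt) (fun v hv => hb v (mem_closedBall_iff_norm.mp hv))
      (mem_closedBall_self (by positivity)) (mem_closedBall_iff_norm.mpr hz)) hε (by
    have h4 : ((s / q : ℕ) : ℝ) ≤ Real.exp (χ * s / 8) := by
      have := Real.quadratic_le_exp_of_nonneg (show 0 ≤ χ * s / 8 by positivity)
      have h5 : ((s / q : ℕ) : ℝ) ≤ s := by exact_mod_cast Nat.div_le_self s q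
      nlinarith only [mul_le_mul_of_nonneg_right h1 hs0, this, h5, mul_nonneg hχ.le hs0]
    calc _ ≤ Real.exp (χ * s / 8) * Real.exp (χ * s / 8) * (Real.exp (-(χ * s / 4)) * t ^ 3) := by
          gcongr
      _ = _ := by
        rw [← mul_assoc, ← Real.exp_add, ← Real.exp_add, show χ * s / 8 + χ * s / 8 + -(χ * s / 4) = 0
          by ring, Real.exp_zero, one_mul])
  have h4 : ∀ u ≤ s / q, ‖Pd T c (u * q)‖ ≤ μ ^ u := fun u hu => by
    induction u with
    | zero => simp [Pd_zero]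
    | succ u ih =>
      rw [Pd_succ_mul, norm_mul, pow_succ']
      exact mul_le_mul (hb _ (h3 u (by omega))) (ih (by omega)) (norm_nonneg _) (by linarith)
  have h5 := Pd_norm (T := T) c (s % q) (s / q * q)
  rw [Nat.mod_add_div'] at h5
  have h6 : ‖Pd T ((fp T)^[s / q * q] c) (s % q)‖ ≤ Real.exp (χ * s) := by
    refine (D.Pd_bd (hc.iter _) _).trans (Real.exp_le_exp.mpr (le_trans ?_ h2))
    have : ((s % q : ℕ) : ℝ) ≤ q := by exact_mod_cast (Nat.mod_lt s hq).le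
    nlinarith only [D.L1, this]
  have h7 := mul_le_mul h6 ((h4 _ le_rfl).trans hμn) (norm_nonneg _) (Real.exp_pos _).le
  have h8 : Real.exp 1 * (Real.exp (χ * s) * Real.exp (χ * s / 8)) ≤ Real.exp (3 * χ * s) := by
    rw [← Real.exp_add, ← Real.exp_add, Real.exp_le_exp]
    nlinarith only [D.L1, h2, hq1]
  nlinarith only [Real.exp_one_gt_d9, mul_pos (Real.exp_pos (χ * s)) (Real.exp_pos (χ * s / 8)),
    h5, h7, h8, hD]

theorem Dyn.minq (D : Dyn T Λ L) (hχ : 0 < χ) (hχ1 : χ ≤ 1) (hL : 1024 / χ ≤ Real.exp L) {c : ℂ}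
    (hc : Bd T Λ c) {s q0 : ℕ} (hq0 : 0 < q0) (h1 : 128 ≤ χ ^ 2 * s) (h2 : 24 * (L * q0) ≤ χ * s)
    (hε : ‖(fp T)^[q0] c - c‖ ≤ Real.exp (-(χ * s / 2)))
    (hD : Real.exp (3 * χ * s) ≤ 2 * ‖Pd T c s‖) : ∃ q, 0 < q ∧ q ≤ q0 ∧
      ‖(fp T)^[q] c - c‖ ≤ Real.exp (-(χ * s / 4)) ∧ Real.exp (χ * q / 16) ≤ ‖Pd T c q‖ ∧
      ∀ k, 0 < k → k < q → Real.exp (-(L * q)) ^ 3 ≤ ‖(fp T)^[k] c - c‖ := by
  classical
  have hL0 : 0 < L := by linarith [D.L1]
  have hex : ∃ q, 0 < q ∧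
      ‖(fp T)^[q] c - c‖ ≤ Real.exp (-(χ * s / 4)) * Real.exp (-(L * q)) ^ 6 :=
    ⟨q0, hq0, hε.trans (by
      rw [← Real.exp_nat_mul, ← Real.exp_add, Real.exp_le_exp]
      push_cast
      linarith)⟩
  obtain ⟨hq, hP⟩ := Nat.find_spec hex
  have hle : Nat.find hex ≤ q0 := Nat.find_min' hex ⟨hq0, hε.trans (by
    rw [← Real.exp_nat_mul, ← Real.exp_add, Real.exp_le_exp]
    push_cast
    linarith)⟩
  have hmin := fun k => Nat.find_min hex (m := k)
  generalize Nat.find hex = q at hq hP hle hmin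
  have ht := D.t_le hχ hL hq
  have hEt := exp_mul_neg (L * q)
  set t := Real.exp (-(L * q)) with ht'
  set E := Real.exp (L * q) with hE
  set Y := Real.exp (-(χ * s / 4)) with hY
  have ht0 : 0 < t := Real.exp_pos _
  have ht1 : t ≤ 1 := by linarith
  have hE0 : 0 < E := Real.exp_pos _
  have hY0 : 0 < Y := Real.exp_pos _
  have hY1 : Y ≤ 1 := Real.exp_le_one_iff.mpr (by rw [neg_nonpos]; positivity)
  have hqq : (q : ℝ) ≤ q0 := by exact_mod_cast hle
  have hq1 : (1 : ℝ) ≤ q := by exact_mod_cast hq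
  have hm := D.mult hχ hχ1 hL hc hq h1 (by nlinarith only [h2, hqq, hq1, hL0]) (hP.trans (by
    gcongr 1
    exact pow_le_pow_of_le_one ht0.le ht1 (by norm_num))) hD
  refine ⟨q, hq, hle, hP.trans (mul_le_of_le_one_right hY0.le (pow_le_one₀ ht0.le ht1)), hm,
    fun k hk0 hk => ?_⟩
  by_contra hcon
  push Not at hcon
  set ε := ‖(fp T)^[q] c - c‖ with hε'
  set η := ‖(fp T)^[k] c - c‖ with hη
  have hε0 : 0 ≤ ε := norm_nonneg _
  have hη0 : 0 ≤ η := norm_nonneg _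
  have ht3 : t ^ 3 < t / 4 := by nlinarith only [mul_pos ht0 ht0, ht0, ht, hχ1, ht1]
  have ht6 : Y * t ^ 6 ≤ t ^ 3 := (mul_le_of_le_one_left (by positivity) hY1).trans
    (pow_le_pow_of_le_one ht0.le ht1 (by norm_num))
  have a1 := D.lin hc (z := (fp T)^[k] c) (n := q) (by linarith)
  have a2 := D.stay' hk.le hc (z := (fp T)^[q] c) (by linarith)
  rw [← hE, ← hη] at a1
  rw [← hE, ← hε', it_add, add_comm, ← it_add] at a2
  have a3 : ‖(Pd T c q - 1) * ((fp T)^[k] c - c)‖ ≤ E * ε + ε + 8 * E ^ 2 * η ^ 2 := by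
    rw [show (Pd T c q - 1) * ((fp T)^[k] c - c) = (fp T)^[q] ((fp T)^[k] c) - (fp T)^[k] c -
      ((fp T)^[q] c - c) - ((fp T)^[q] ((fp T)^[k] c) - (fp T)^[q] c -
        Pd T c q * ((fp T)^[k] c - c)) by ring]
    exact (norm_sub_le _ _).trans (add_le_add ((norm_sub_le _ _).trans (add_le_add a2 le_rfl)) a1)
  have a4 : 64 * t ≤ ‖Pd T c q - 1‖ := by
    have := norm_sub_norm_le (Pd T c q) 1
    rw [norm_one] at this
    nlinarith only [Real.add_one_le_exp (χ * q / 16), this, hm, ht, hq1, hχ]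
  rw [norm_mul, ← hη] at a3
  have a5 : E ^ 2 * η ^ 2 ≤ t * η := by
    calc _ = E ^ 2 * η * η := by ring
      _ ≤ E ^ 2 * t ^ 3 * η := by gcongr
      _ = (E * t) ^ 2 * (t * η) := by ring
      _ = _ := by rw [hEt, one_pow, one_mul]
  have hE1 : 1 ≤ E := by nlinarith only [hEt, ht1, hE0]
  have a6 : 16 * (t * η) ≤ E * ε := by
    linarith only [mul_le_mul_of_nonneg_right a4 hη0, mul_le_mul_of_nonneg_right hE1 hε0,
      mul_nonneg ht0.le hη0, a3, a5, mul_assoc 64 t η, one_mul ε]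
  have a7 : 16 * (E * η) ≤ Y * t ^ 3 := by
    calc _ = E ^ 2 * (16 * (t * η)) := by linear_combination (-16 * E * η) * hEt
      _ ≤ E ^ 2 * (E * (Y * t ^ 6)) :=
        mul_le_mul_of_nonneg_left (a6.trans (mul_le_mul_of_nonneg_left hP hE0.le)) (by positivity)
      _ = (E * t) ^ 3 * (Y * t ^ 3) := by ring
      _ = _ := by rw [hEt, one_pow, one_mul]
  have a8 : ∀ j : ℕ, 2 * j ≤ q → Y * t ^ 3 ≤ Y * Real.exp (-(L * j)) ^ 6 := fun j hj => by
    gcongr 1
    rw [ht', ← Real.exp_nat_mul, ← Real.exp_nat_mul, Real.exp_le_exp]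
    have : (2 : ℝ) * j ≤ q := by exact_mod_cast hj
    push_cast
    nlinarith only [this, hL0]
  rcases le_or_gt (2 * k) q with h3 | h3
  · refine hmin k hk ⟨hk0, le_trans ?_ (a8 k h3)⟩
    linarith only [mul_le_mul_of_nonneg_right hE1 hη0, a7, hη0, one_mul η]
  · refine hmin (q - k) (by omega) ⟨by omega, le_trans ?_ (a8 _ (by omega))⟩
    have b1 := D.stay' (Nat.sub_le q k) hc (z := (fp T)^[k] c) (by linarith)
    rw [← hE, ← hη, it_add, Nat.sub_add_cancel hk.le, norm_sub_rev] at b1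
    have b2 := norm_sub_le_norm_sub_add_norm_sub ((fp T)^[q - k] c) ((fp T)^[q] c) c
    have b3 : Y * t ^ 6 ≤ Y * t ^ 3 / 2 := by
      have : t ^ 3 ≤ 1 / 2 := by linarith
      rw [show Y * t ^ 6 = Y * t ^ 3 * t ^ 3 by ring, div_eq_mul_one_div]
      gcongr
    linarith only [mul_pos hY0 (pow_pos ht0 3), b1, b2, b3, hP, a7, hε']

end Pool.Agent.MP_28f8a1_an.G42.Act

end

section

/-! A critical value which is almost periodic with a short period: the contradiction. -/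

set_option autoImplicit false

namespace Pool.Agent.MP_28f8a1_an.G42.Act

open MeasureTheory Metric Set Real Filter Topology Polynomial
open scoped ENNReal

variable {T : ℂ[X]} {Λ L χ : ℝ}

theorem sum_blocks (f : ℕ → ℂ) (U q : ℕ) : ∑ k ∈ Finset.range (U * q), f k =
    ∑ u ∈ Finset.range U, ∑ i ∈ Finset.range q, f (u * q + i) := by
  induction U with
  | zero => simp
  | succ U ih => rw [Nat.succ_mul, Finset.sum_range_add, Finset.sum_range_succ, ih]

theorem block_est {lam g a z c p F : ℂ} {t x : ℝ} (hl : 1 ≤ ‖lam‖) (hg : 1 ≤ ‖g‖)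
    (hgl : ‖g - lam‖ ≤ 8 * t) (ha : ‖a‖ ≤ x) (hp : ‖p - c‖ ≤ 8 * t * ‖z - p‖) (hz : z - p ≠ 0)
    (hF : ‖(z - c) * F‖ ≤ 8 * t * x) :
    ‖(1 - lam⁻¹) * (z - c) * (F + a * (z - p)⁻¹) - (a - g⁻¹ * a)‖ ≤ 40 * t * x := by
  have hl0 : lam ≠ 0 := norm_pos_iff.mp (by linarith)
  have hg0 : g ≠ 0 := norm_pos_iff.mp (by linarith)
  have hx : 0 ≤ x := (norm_nonneg _).trans ha
  have h1 : ‖1 - lam⁻¹‖ ≤ 2 := by
    refine (norm_sub_le _ _).trans ?_
    rw [norm_one, norm_inv]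
    linarith [inv_le_one_of_one_le₀ hl]
  have h2 : ‖(p - c) / (z - p)‖ ≤ 8 * t := by
    rwa [norm_div, div_le_iff₀ (norm_pos_iff.mpr hz)]
  have h3 : ‖(g - lam) / (g * lam)‖ ≤ 8 * t := by
    rw [norm_div, norm_mul]
    exact (div_le_self (norm_nonneg _) (one_le_mul_of_one_le_of_one_le hg hl)).trans hgl
  rw [show (1 - lam⁻¹) * (z - c) * (F + a * (z - p)⁻¹) - (a - g⁻¹ * a) =
    (1 - lam⁻¹) * ((z - c) * F + a * ((p - c) / (z - p))) - a * ((g - lam) / (g * lam)) by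
    field_simp; ring]
  refine (norm_sub_le _ _).trans ?_
  rw [norm_mul, norm_mul]
  have h4 : ‖(z - c) * F + a * ((p - c) / (z - p))‖ ≤ 8 * t * x + x * (8 * t) := by
    refine (norm_add_le _ _).trans (add_le_add hF ?_)
    rw [norm_mul]
    gcongr
  have h5 := mul_le_mul h1 h4 (norm_nonneg _) zero_le_two
  have h6 := mul_le_mul ha h3 (norm_nonneg _) hx
  linarith

theorem Dyn.per_false (D : Dyn T Λ L) (hχ : 0 < χ) (hχ1 : χ ≤ 1) (hL : 1024 / χ ≤ Real.exp L)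
    {c : ℂ} (hc : Bd T Λ c) (hm : Mass T Λ L c) {q V U : ℕ} (hq : 0 < q) (hV : 320 * L ≤ χ * V)
    (hU : 64 * L * (V + 1) ≤ χ * U)
    (hε : ‖(fp T)^[q] c - c‖ ≤ Real.exp (-(L * q)) ^ (2 * U + V + 3))
    (hlam : Real.exp (χ * q / 16) ≤ ‖Pd T c q‖)
    (hsep : ∀ k, 0 < k → k < q → Real.exp (-(L * q)) ^ 3 ≤ ‖(fp T)^[k] c - c‖) : False := by
  have hL1 := D.L1
  have ht := D.t_le hχ hL hq
  have hEt := exp_mul_neg (L * q)
  have hq1 : (1 : ℝ) ≤ q := by exact_mod_cast hq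
  have hV0 : (0 : ℝ) ≤ V := Nat.cast_nonneg V
  have hV8 : 8 ≤ V := by
    have : ((8 : ℕ) : ℝ) ≤ V := by
      push_cast
      nlinarith only [hV, hL1, hχ1, hV0]
    exact_mod_cast this
  have hVU : V + 1 ≤ U := by
    have : ((V + 1 : ℕ) : ℝ) ≤ U := by
      push_cast
      nlinarith only [hU, hL1, hχ1, hV0, (Nat.cast_nonneg U : (0 : ℝ) ≤ U)]
    exact_mod_cast this
  have hqE : (q : ℝ) ≤ Real.exp (L * q) := by
    nlinarith only [Real.add_one_le_exp (L * q), hL1, hq1]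
  have htV : Real.exp (-(L * (V * q : ℕ))) = Real.exp (-(L * q)) ^ V := by
    rw [← Real.exp_nat_mul]
    congr 1
    push_cast
    ring
  have hνV : Real.exp L < Real.exp (-(L * q)) ^ 8 * Real.exp (χ * q / 32) ^ V := by
    rw [← Real.exp_nat_mul, ← Real.exp_nat_mul, ← Real.exp_add, Real.exp_lt_exp]
    push_cast
    nlinarith only [mul_le_mul_of_nonneg_right hV (zero_le_one.trans hq1), hL1, hq1]
  have hνU : (Real.exp (χ * q / 32))⁻¹ ^ U ≤ Real.exp (-(L * q)) ^ (2 * V + 2) := by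
    rw [← Real.exp_neg, ← Real.exp_nat_mul, ← Real.exp_nat_mul, Real.exp_le_exp]
    push_cast
    nlinarith only [mul_le_mul_of_nonneg_right hU (zero_le_one.trans hq1)]
  have hLE : Real.exp L ≤ Real.exp (L * q) := Real.exp_le_exp.mpr (by nlinarith only [hL1, hq1])
  have hνν : Real.exp (χ * q / 16) = Real.exp (χ * q / 32) * Real.exp (χ * q / 32) := by
    rw [← Real.exp_add]
    congr 1
    ring
  have hν : 1 + χ / 32 ≤ Real.exp (χ * q / 32) := by
    nlinarith only [Real.add_one_le_exp (χ * q / 32), hq1, hχ]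
  set t := Real.exp (-(L * q)) with ht'
  set E := Real.exp (L * q) with hE
  set ν := Real.exp (χ * q / 32) with hν'
  have ht0 : 0 < t := Real.exp_pos _
  have ht1 : t ≤ 1 / 1024 := by linarith
  have hE0 : 0 < E := Real.exp_pos _
  have hE2 : 2 ≤ E := by nlinarith only [hEt, ht1, hE0]
  have hν1 : 1 ≤ ν := by linarith
  have hp : ∀ {i j : ℕ}, i ≤ j → t ^ j ≤ t ^ i := fun h =>
    pow_le_pow_of_le_one ht0.le (by linarith) h
  have hp' : ∀ {i j : ℕ}, i + 1 ≤ j → t ^ j ≤ t ^ i / 1024 := fun {i j} h => (hp h).trans (by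
    rw [pow_succ, div_eq_mul_one_div]
    gcongr)
  have hp1 : ∀ {j : ℕ}, 2 ≤ j → t ^ j ≤ t / 1024 := fun h => by simpa using hp' (i := 1) h
  have h1 := track (q := q) (n := U) (ϱ := t ^ (V + 3)) (μ := E) (by linarith)
    (fun z hz => D.stay' le_rfl hc (by linarith [hp1 (show 2 ≤ V + 3 by omega)])) hε (by
    have h2 : (U : ℝ) ≤ E ^ U := le_trans (by exact_mod_cast Nat.lt_two_pow_self.le)
      (pow_le_pow_left₀ zero_le_two hE2 U)
    calc _ ≤ E ^ U * E ^ U * t ^ (2 * U + V + 3) := by gcongr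
      _ = (E * t) ^ (2 * U) * t ^ (V + 3) := by ring
      _ = _ := by rw [hEt, one_pow, one_mul])
  have h2 : ∀ u ≤ U, ‖Pd T ((fp T)^[u * q] c) q - Pd T c q‖ ≤ 8 * t ^ 3 := fun u hu =>
    (D.Pd_near hc ht1 (h1 u hu)).trans (by linarith [hp (show 3 ≤ V + 1 by omega)])
  have h3 : ∀ u ≤ U, ν ≤ ‖Pd T ((fp T)^[u * q] c) q‖ := fun u hu => by
    have h4 := norm_sub_norm_le (Pd T c q) (Pd T ((fp T)^[u * q] c) q)
    rw [norm_sub_rev] at h4
    nlinarith only [h4, h2 u hu, hlam, hνν, hν, hν1, ht, hp1 (show 2 ≤ 3 by omega), ht0, hχ]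
  have h4 : ∀ u ≤ U, ν ^ u ≤ ‖Pd T c (u * q)‖ := fun u hu => by
    induction u with
    | zero => simp [Pd_zero]
    | succ u ih =>
      rw [Pd_succ_mul, norm_mul, pow_succ']
      exact mul_le_mul (h3 u (by omega)) (ih (by omega)) (by positivity) (norm_nonneg _)
  have h5 : ∀ u ≤ U, ‖Pd T c (u * q)‖⁻¹ ≤ ν⁻¹ ^ u := fun u hu => by
    rw [inv_pow]
    exact inv_anti₀ (by positivity) (h4 u hu)
  have h6 : ∀ u ≤ U, Pd T c (u * q) ≠ 0 := fun u hu =>
    norm_pos_iff.mp (lt_of_lt_of_le (by positivity) (h4 u hu))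
  obtain ⟨w, hw, hlev⟩ := D.basin hc (n := V * q) (ρ := t ^ 8) (by positivity)
    (by linarith [hp1 (show 2 ≤ 8 by omega)])
    (hνV.trans_le (by gcongr; exact h4 V (by omega)))
  rw [htV] at hlev
  rw [mem_ball_iff_norm] at hw
  obtain ⟨N, hN⟩ : ∃ N, N + 1 = U * q :=
    ⟨U * q - 1, Nat.sub_add_cancel (Nat.mul_pos (by omega) hq)⟩
  have hx0 : 0 ≤ ν⁻¹ := by positivity
  have hx1 : ν⁻¹ ≤ 1 := inv_le_one_of_one_le₀ hν1
  have hpt : ∀ z ∈ ball w (t ^ V / 8), 1 ≤ ‖phi T c N z‖ := by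
    intro z hz
    rw [mem_ball_iff_norm] at hz
    have a1 : ‖z - c‖ ≤ 2 * t ^ 8 := by
      linarith [norm_sub_le_norm_sub_add_norm_sub z w c, hp hV8, pow_pos ht0 V]
    have a2 : ∀ k, t ^ V / 8 ≤ ‖z - (fp T)^[k] c‖ := fun k => by
      have a3 := not_lt.mp (mt mem_ball_iff_norm.mpr (hlev.ne hc k))
      have a4 := norm_sub_le_norm_sub_add_norm_sub ((fp T)^[k] c) z w
      rw [norm_sub_rev _ z] at a4
      linarith
    obtain ⟨q', rfl⟩ := Nat.exists_eq_succ_of_ne_zero hq.ne'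
    have a3 : ∀ u ∈ Finset.range U, ‖(1 - (Pd T c q'.succ)⁻¹) * (z - c) *
        (∑ i ∈ Finset.range q'.succ, (Pd T c (u * q'.succ + i))⁻¹ *
          (z - (fp T)^[u * q'.succ + i] c)⁻¹) -
        ((Pd T c (u * q'.succ))⁻¹ - (Pd T c ((u + 1) * q'.succ))⁻¹)‖ ≤ 40 * t ^ 3 * ν⁻¹ ^ u := by
      intro u hu
      rw [Finset.mem_range] at hu
      rw [Finset.sum_range_succ', Pd_succ_mul, mul_inv, add_zero]
      refine block_est ((Real.one_le_exp (by positivity)).trans hlam)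
        (hν1.trans (h3 u hu.le)) (h2 u hu.le) (by rw [norm_inv]; exact h5 u hu.le)
        ((h1 u hu.le).trans ?_) (norm_pos_iff.mp (lt_of_lt_of_le (by positivity) (a2 _))) ?_
      · calc _ = 8 * t ^ 3 * (t ^ V / 8) := by ring
          _ ≤ _ := by gcongr; exact a2 _
      have a4 : ∀ i ∈ Finset.range q', ‖(Pd T c (u * q'.succ + (i + 1)))⁻¹ *
          (z - (fp T)^[u * q'.succ + (i + 1)] c)⁻¹‖ ≤ E * ν⁻¹ ^ u * (t ^ 3 / 4)⁻¹ := by
        intro i hi
        rw [Finset.mem_range] at hi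
        have b1 : q' - i + (u * q'.succ + (i + 1)) = (u + 1) * q'.succ := by
          rw [Nat.succ_mul]
          omega
        have b2 := D.an_le hc (j := q' - i) (k := u * q'.succ + (i + 1)) (b1 ▸ h6 (u + 1) hu)
        rw [b1] at b2
        have b3 : Real.exp (L * (q' - i : ℕ)) ≤ E := by
          have : ((q' - i : ℕ) : ℝ) ≤ (q'.succ : ℕ) := by exact_mod_cast (show _ ≤ _ by omega)
          rw [hE]
          gcongr
        have b4 := (h5 (u + 1) hu).trans (pow_le_pow_of_le_one hx0 hx1 (Nat.le_succ u))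
        have b5 := D.stay' (show i + 1 ≤ q'.succ by omega) hc (z := (fp T)^[u * q'.succ] c)
          (by linarith [h1 u hu.le, hp1 (show 2 ≤ V + 3 by omega)])
        rw [it_add, add_comm (i + 1), ← hE] at b5
        have b6 : E * ‖(fp T)^[u * q'.succ] c - c‖ ≤ t ^ (V + 2) := by
          calc _ ≤ E * t ^ (V + 3) := by gcongr; exact h1 u hu.le
            _ = E * t * t ^ (V + 2) := by ring
            _ = _ := by rw [hEt, one_mul]
        have b7 := hsep (i + 1) (by omega) (by omega)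
        have b8 := norm_sub_le_norm_sub_add_norm_sub ((fp T)^[i + 1] c)
          ((fp T)^[u * q'.succ + (i + 1)] c) c
        have b9 := norm_sub_le_norm_sub_add_norm_sub ((fp T)^[u * q'.succ + (i + 1)] c) z c
        rw [norm_sub_rev ((fp T)^[i + 1] c) ((fp T)^[_] c)] at b8
        rw [norm_sub_rev _ z] at b9
        have b10 : t ^ 3 / 4 ≤ ‖z - (fp T)^[u * q'.succ + (i + 1)] c‖ := by
          linarith [hp' (show 3 + 1 ≤ V + 2 by omega), hp' (show 3 + 1 ≤ 8 by omega), pow_pos ht0 3]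
        rw [norm_mul, norm_inv, norm_inv]
        exact mul_le_mul (b2.trans (mul_le_mul b3 b4 (by positivity) hE0.le))
          (inv_anti₀ (by positivity) b10) (by positivity) (by positivity)
      have a5 := (norm_sum_le _ _).trans (Finset.sum_le_card_nsmul _ _ _ a4)
      rw [Finset.card_range, nsmul_eq_mul] at a5
      have a6 : (q' : ℝ) ≤ E := le_trans (by exact_mod_cast Nat.le_succ q') hqE
      rw [norm_mul]
      calc _ ≤ 2 * t ^ 8 * (E * (E * ν⁻¹ ^ u * (t ^ 3 / 4)⁻¹)) :=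
            mul_le_mul a1 (a5.trans (by gcongr)) (norm_nonneg _) (by positivity)
        _ = (E * t) ^ 2 * (8 * t ^ 3 * ν⁻¹ ^ u) := by field_simp; norm_num
        _ = _ := by rw [hEt, one_pow, one_mul]
    have a4 := (norm_sum_le _ _).trans (Finset.sum_le_sum a3)
    rw [Finset.sum_sub_distrib, ← Finset.mul_sum, ← Finset.mul_sum,
      Finset.sum_range_sub' (fun u => (Pd T c (u * q'.succ))⁻¹),
      ← sum_blocks (fun k => (Pd T c k)⁻¹ * (z - (fp T)^[k] c)⁻¹), ← hN, ← phi, zero_mul, Pd_zero,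
      inv_one, hN] at a4
    have a5 : t * ∑ u ∈ Finset.range U, ν⁻¹ ^ u ≤ 1 / 16 := by
      have b1 := geom_sum_mul_neg ν⁻¹ U
      have b2 : ν⁻¹ * ν = 1 := inv_mul_cancel₀ (by linarith)
      have b3 : 0 ≤ ∑ u ∈ Finset.range U, ν⁻¹ ^ u := Finset.sum_nonneg fun u _ => pow_nonneg hx0 u
      have b4 : 16 * t ≤ 1 - ν⁻¹ := by
        have b5 : ν⁻¹ ≤ (1 + χ / 32)⁻¹ := inv_anti₀ (by linarith) hν
        have b6 : (1 + χ / 32)⁻¹ ≤ 1 - χ / 64 := by
          rw [inv_eq_one_div, div_le_iff₀ (by linarith)]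
          nlinarith only [hχ, hχ1]
        linarith
      nlinarith only [b1, mul_le_mul_of_nonneg_left b4 b3, pow_nonneg hx0 U]
    have a6 : ‖(Pd T c (U * q'.succ))⁻¹‖ ≤ 1 / 4 := by
      rw [norm_inv]
      linarith [h5 U le_rfl, hp1 (show 2 ≤ 2 * V + 2 by omega)]
    have a7 : ‖1 - (Pd T c q'.succ)⁻¹‖ ≤ 2 := by
      refine (norm_sub_le _ _).trans ?_
      rw [norm_one, norm_inv]
      linarith [inv_le_one_of_one_le₀ ((Real.one_le_exp (by positivity)).trans hlam)]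
    have a8 := norm_sub_norm_le 1 (Pd T c (U * q'.succ))⁻¹
    have a9 := norm_sub_norm_le (1 - (Pd T c (U * q'.succ))⁻¹)
      ((1 - (Pd T c q'.succ)⁻¹) * (z - c) * phi T c N z)
    rw [norm_sub_rev (1 - _), norm_mul, norm_mul] at a9
    rw [norm_one] at a8
    have a10 : ‖1 - (Pd T c q'.succ)⁻¹‖ * ‖z - c‖ * ‖phi T c N z‖ ≤
        2 * (2 * t ^ 8) * ‖phi T c N z‖ := by gcongr
    have a11 : 40 * t ^ 3 * ∑ u ∈ Finset.range U, ν⁻¹ ^ u ≤ 40 * t ^ 2 * (1 / 16) := by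
      rw [pow_succ, ← mul_assoc, mul_assoc _ t]
      gcongr
    nlinarith only [a4, a6, a8, a9, a10, a11, hp1 (show 2 ≤ 2 by omega), hp1 (show 2 ≤ 8 by omega),
      ht1, norm_nonneg (phi T c N z)]
  have h7 := (LI_mono measurableSet_ball hpt).trans (hm N (hN ▸ h6 U le_rfl) w _
    (hlev.mono (ball_subset_ball (by linarith [pow_pos ht0 V]))))
  rw [LI_ball_const _ (by positivity) zero_le_one, ENNReal.ofReal_le_ofReal_iff (by positivity),
    hN] at h7
  have h8 : Real.exp L * ‖Pd T c (U * q)‖⁻¹ ≤ t ^ (2 * V) / 1024 := by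
    calc _ ≤ E * t ^ (2 * V + 2) := mul_le_mul hLE ((h5 U le_rfl).trans hνU) (by positivity) hE0.le
      _ = E * t * t ^ (2 * V + 1) := by ring
      _ ≤ _ := by
        rw [hEt, one_mul]
        exact hp' le_rfl
  rw [div_pow, ← pow_mul, mul_comm V] at h7
  nlinarith only [h7, h8, pow_pos ht0 (2 * V), two_le_pi]

theorem Dyn.near_per (D : Dyn T Λ L) (hχ : 0 < χ) (hχ1 : χ ≤ 1) (hL : 1024 / χ ≤ Real.exp L) :
    ∃ K : ℕ, ∀ c, Bd T Λ c → Mass T Λ L c → ∀ s q : ℕ, 0 < q → K * q ≤ s →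
      ‖(fp T)^[q] c - c‖ ≤ Real.exp (-(χ * s / 2)) →
      Real.exp (3 * χ * s) ≤ 2 * ‖Pd T c s‖ → False := by
  have hL0 : 0 < L := by linarith [D.L1]
  have hnat : ∀ x y : ℝ, 0 < x → ∃ k : ℕ, y ≤ x * k := fun x y hx => by
    obtain ⟨k, hk⟩ := exists_nat_ge (y / x)
    exact ⟨k, (div_le_iff₀' hx).mp hk⟩
  obtain ⟨V, hV⟩ := hnat χ (320 * L) hχ
  obtain ⟨U, hU⟩ := hnat χ (64 * L * (V + 1)) hχ
  obtain ⟨K1, hK1⟩ := hnat (χ ^ 2) 128 (by positivity)
  obtain ⟨K2, hK2⟩ := hnat χ (L * (24 + 4 * (2 * U + V + 3 : ℕ))) hχ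
  refine ⟨K1 + K2, fun c hc hm s q0 hq0 hs hε hD => ?_⟩
  have h1 : (K1 : ℝ) ≤ s := by
    exact_mod_cast (show K1 ≤ s from le_trans (by nlinarith) hs)
  have h2 : (K2 : ℝ) * q0 ≤ s := by
    exact_mod_cast (show K2 * q0 ≤ s from le_trans (by nlinarith) hs)
  have h3 : L * (24 + 4 * (2 * U + V + 3 : ℕ)) * q0 ≤ χ * s := by
    nlinarith only [mul_le_mul_of_nonneg_right hK2 (Nat.cast_nonneg (α := ℝ) q0),
      mul_le_mul_of_nonneg_left h2 hχ.le]
  have h4 : 0 ≤ L * q0 := by positivity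
  generalize hW : 2 * U + V + 3 = W at h3
  obtain ⟨q, a1, a2, a3, a4, a5⟩ := D.minq hχ hχ1 hL hc hq0 (hK1.trans (by gcongr))
    (by nlinarith only [h3, mul_nonneg h4 (Nat.cast_nonneg (α := ℝ) W)]) hε hD
  refine D.per_false hχ hχ1 hL hc hm a1 hV hU (a3.trans ?_) a4 a5
  rw [hW, ← Real.exp_nat_mul, Real.exp_le_exp]
  have h5 : W * (L * q) ≤ W * (L * q0) := by gcongr
  nlinarith only [h3, h4, h5]

end Pool.Agent.MP_28f8a1_an.G42.Act

end

section

/-! A minimum modulus estimate on most small circles. -/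

set_option autoImplicit false

namespace Pool.Agent.MP_28f8a1_an.G42.Act

open MeasureTheory Metric Set Real Filter Topology
open scoped ENNReal ComplexConjugate

theorem peel {F : ℂ → ℂ} (hF : Differentiable ℂ F) {M : ℝ} (hM : ∀ s, ‖s‖ ≤ 1 → ‖F s‖ ≤ M) {z : ℂ}
    (h0 : F z = 0) : ∃ G : ℂ → ℂ, Differentiable ℂ G ∧ (∀ s, ‖s‖ ≤ 1 → ‖G s‖ ≤ M) ∧
      ∀ s, (1 - conj z * s) * F s = (s - z) * G s := by
  have h1 : Differentiable ℂ (dslope F z) := differentiableOn_univ.mp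
    ((Complex.differentiableOn_dslope univ_mem).mpr hF.differentiableOn)
  have h2 : ∀ s, F s = (s - z) * dslope F z s := fun s => by
    have := sub_smul_dslope F z s
    rw [h0, sub_zero, smul_eq_mul] at this
    exact this.symm
  have h3 : Differentiable ℂ fun s => (1 - conj z * s) * dslope F z s := by fun_prop
  refine ⟨_, h3, fun s hs => ?_, fun s => by rw [h2 s]; ring⟩
  refine Complex.norm_le_of_forall_mem_frontier_norm_le (U := ball 0 1) isBounded_ball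
    h3.diffContOnCl (fun w hw => ?_) (by rwa [closure_ball _ one_ne_zero, mem_closedBall_zero_iff])
  rw [frontier_ball _ one_ne_zero, mem_sphere_zero_iff_norm] at hw
  have h4 : conj w * w = 1 := by
    rw [conj_mul_self', hw]
    simp
  have h5 : ‖1 - conj z * w‖ = ‖w - z‖ := by
    rw [show 1 - conj z * w = conj (w - z) * w by rw [map_sub, sub_mul, h4], norm_mul, hw, mul_one,
      Complex.norm_conj]
  rw [norm_mul, h5, ← norm_mul, ← h2]
  exact hM w hw.le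

theorem zero_free {F : ℂ → ℂ} (hF : Differentiable ℂ F) {M : ℝ} (hM : ∀ s, ‖s‖ ≤ 1 → ‖F s‖ ≤ M)
    (h0 : ∀ s, ‖s‖ < 1 / 2 → F s ≠ 0) {s : ℂ} (hs : ‖s‖ ≤ 1 / 4) :
    M * Real.exp (-((1 + 8 * ‖s‖) * (Real.log M - Real.log ‖F 0‖ + 1))) ≤ ‖F s‖ := by
  obtain ⟨H, h1, h2⟩ := exists_log (x := 0) (R := 1 / 2) hF.differentiableOn
    fun z hz => h0 z (mem_ball_zero_iff.mp hz)
  have h3 : ∀ z ∈ ball (0 : ℂ) (1 / 2), (H z).re = Real.log ‖F z‖ := fun z hz => by
    rw [← h2 z hz, Complex.norm_exp, Real.log_exp]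
  have h4 : ∀ z ∈ ball (0 : ℂ) (1 / 2), Real.log ‖F z‖ ≤ Real.log M := fun z hz =>
    Real.log_le_log (norm_pos_iff.mpr (h0 z (mem_ball_zero_iff.mp hz)))
      (hM z (by linarith [mem_ball_zero_iff.mp hz]))
  have hz0 : (0 : ℂ) ∈ ball (0 : ℂ) (1 / 2) := mem_ball_self (by norm_num)
  have hs' : s ∈ ball (0 : ℂ) (1 / 2) := mem_ball_zero_iff.mpr (by linarith)
  have hM0 : 0 < M := (norm_pos_iff.mpr (h0 0 (by simp))).trans_le (hM 0 (by simp))
  set A := Real.log M - Real.log ‖F 0‖ + 1 with hA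
  have hA0 : 0 < A := by linarith [h4 0 hz0]
  have h5 := Complex.borelCaratheodory_zero (f := fun z => H z - H 0) hA0 (h1.sub_const _)
    (fun z hz => by
      simp only [mem_ofPred_eq, Complex.sub_re]
      linarith [h3 z hz, h3 0 hz0, h4 z hz]) (by norm_num) hs' (sub_self _)
  have h6 : 2 * A * ‖s‖ / (1 / 2 - ‖s‖) ≤ 8 * ‖s‖ * A := by
    rw [div_le_iff₀ (by linarith)]
    nlinarith only [mul_nonneg hA0.le (norm_nonneg s), hs]
  have h7 := (Complex.abs_re_le_norm (H s - H 0)).trans (h5.trans h6)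
  rw [Complex.sub_re, h3 s hs', h3 0 hz0, abs_le] at h7
  rw [← Real.exp_log hM0, ← Real.exp_add,
    ← Real.le_log_iff_exp_le (norm_pos_iff.mpr (h0 s (by linarith)))]
  linarith [h7.1]

theorem mul_log_bd {t : ℝ} (ht : |t| ≤ 3) : |t * Real.log t| ≤ 6 := by
  rw [abs_mul, ← Real.log_abs]
  rcases (abs_nonneg t).eq_or_lt with h | h
  · rw [← h]
    norm_num
  generalize |t| = u at ht h
  rcases le_total u 1 with h1 | h1
  · have := Real.abs_log_mul_self_lt u h h1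
    rw [abs_mul, abs_of_pos h, mul_comm] at this
    linarith
  · rw [abs_of_nonneg (Real.log_nonneg h1)]
    nlinarith [Real.log_le_sub_one_of_pos h, Real.log_nonneg h1]

theorem int_log {θ a : ℝ} (hθ : 0 < θ) (hθ1 : θ ≤ 1) {ε : ℝ} (hε : ε = θ / 16 * Real.exp (-(16 / θ)))
    (ha : 0 < a) (ha1 : a ≤ 1 / 2) :
    ∫ ρ in ε..2 * ε, (ε - Real.log (ρ - a)) ≤ (1 + θ) * ε * -Real.log a := by
  have hε0 : 0 < ε := by rw [hε]; positivity
  have hε1 : ε ≤ θ / 16 := hε ▸ mul_le_of_le_one_right (by positivity)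
    (Real.exp_le_one_iff.mpr (by rw [neg_nonpos]; positivity))
  have h1 : a ≤ 16 * ε / θ → 16 ≤ θ * -Real.log a := fun h => by
    rw [hε, show 16 * (θ / 16 * Real.exp (-(16 / θ))) / θ = Real.exp (-(16 / θ)) by field_simp,
      ← Real.log_le_iff_le_exp ha, le_neg, div_le_iff₀' hθ] at h
    exact h
  have hi : IntervalIntegrable (fun ρ => Real.log (ρ - a)) volume ε (2 * ε) := by
    simpa using (intervalIntegral.intervalIntegrable_log' (a := ε - a) (b := 2 * ε - a)).comp_sub_right a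
  rcases le_or_gt a (4 * ε) with h2 | h2
  · have h3 := h1 (h2.trans (by
      rw [le_div_iff₀ hθ]
      nlinarith only [hθ1, hε0]))
    have h4 : ∀ x : ℝ, |x| ≤ 3 * ε → |x * Real.log x - x * Real.log ε| ≤ 6 * ε := fun x hx => by
      have h5 := mul_log_bd (t := x / ε) (by rwa [abs_div, abs_of_pos hε0, div_le_iff₀ hε0])
      rcases eq_or_ne x 0 with rfl | h6
      · simp [hε0.le]
      rw [Real.log_div h6 hε0.ne', div_mul_eq_mul_div, abs_div, abs_of_pos hε0, div_le_iff₀ hε0,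
        mul_sub] at h5
      exact h5
    have h5 := (abs_le.mp (h4 (2 * ε - a) (abs_le.mpr ⟨by linarith, by linarith⟩))).1
    have h6 := (abs_le.mp (h4 (ε - a) (abs_le.mpr ⟨by linarith, by linarith⟩))).2
    have h7 : Real.log a ≤ Real.log ε + 2 := by
      refine (Real.log_le_log ha h2).trans ?_
      rw [Real.log_mul four_ne_zero hε0.ne', show (4 : ℝ) = 2 ^ 2 by norm_num, Real.log_pow]
      push_cast
      linarith [Real.log_two_lt_d9]
    rw [intervalIntegral.integral_sub intervalIntegrable_const hi, intervalIntegral.integral_const,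
      intervalIntegral.integral_comp_sub_right Real.log, integral_log, smul_eq_mul]
    nlinarith only [h3, h5, h6, h7, hε0, hε1, hθ1]
  · refine (intervalIntegral.integral_mono_on (g := fun _ => (1 + θ) * -Real.log a) (by linarith)
      (intervalIntegrable_const.sub hi) intervalIntegrable_const fun ρ hρ => ?_).trans_eq (by
        rw [intervalIntegral.integral_const, smul_eq_mul]
        ring)
    have h3 : 0 < a - ρ := by linarith [hρ.2]
    have h4 := Real.log_le_sub_one_of_pos (div_pos ha h3)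
    rw [Real.log_div ha.ne' h3.ne', ← Real.log_neg_eq_log (a - ρ), neg_sub] at h4
    have h5 : a / (a - ρ) - 1 ≤ 4 * ε / a := by
      rw [div_sub_one h3.ne', div_le_div_iff₀ h3 ha]
      nlinarith only [hρ.1, hρ.2, h2, hε0, ha]
    have h6 : 4 * ε / a + ε ≤ θ * -Real.log a := by
      rcases le_total a (16 * ε / θ) with h7 | h7
      · have h8 : 4 * ε / a ≤ 1 := (div_le_one ha).mpr h2.le
        linarith [h1 h7]
      · have h8 : 4 * ε / a ≤ θ / 4 := by
          rw [div_le_iff₀ hθ] at h7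
          rw [div_le_iff₀ ha]
          linarith
        nlinarith only [h8, hε1, Real.log_le_sub_one_of_pos ha, ha1, hθ]
    linarith

theorem minmod {θ : ℝ} (hθ : 0 < θ) (hθ1 : θ ≤ 1) {ε : ℝ} (hε : ε = θ / 16 * Real.exp (-(16 / θ)))
    {M : ℝ} (k : ℕ) : ∀ F : ℂ → ℂ, Differentiable ℂ F → (∀ s, ‖s‖ ≤ 1 → ‖F s‖ ≤ M) → F 0 ≠ 0 →
      M < 2 ^ k * ‖F 0‖ → ∃ (Γ : ℝ → ℝ) (Z : Set ℝ), Z.Finite ∧
        IntervalIntegrable Γ volume ε (2 * ε) ∧ (∀ ρ ∈ Ioc ε (2 * ε), 0 ≤ Γ ρ) ∧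
        ∫ ρ in ε..2 * ε, Γ ρ ≤ (1 + θ) * ε * (Real.log M - Real.log ‖F 0‖ + 1) ∧
        ∀ s, ‖s‖ ∈ Ioc ε (2 * ε) → ‖s‖ ∉ Z → M * Real.exp (-Γ ‖s‖) ≤ ‖F s‖ := by
  have hε0 : 0 < ε := by rw [hε]; positivity
  have hε1 : ε ≤ θ / 16 := hε ▸ mul_le_of_le_one_right (by positivity)
    (Real.exp_le_one_iff.mpr (by rw [neg_nonpos]; positivity))
  induction k with
  | zero =>
    intro F _ hM _ hk
    rw [pow_zero, one_mul] at hk
    exact absurd (hM 0 (by simp)) (not_le.mpr hk)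
  | succ k ih =>
    intro F hF hM h0 hk
    have hF0 := norm_pos_iff.mpr h0
    have hM0 : 0 < M := hF0.trans_le (hM 0 (by simp))
    by_cases hz : ∀ s, ‖s‖ < 1 / 2 → F s ≠ 0
    · have hA : 0 ≤ Real.log M - Real.log ‖F 0‖ + 1 := by
        linarith [Real.log_le_log hF0 (hM 0 (by simp))]
      refine ⟨fun _ => (1 + θ) * (Real.log M - Real.log ‖F 0‖ + 1), ∅, finite_empty,
        intervalIntegrable_const, fun _ _ => by positivity, le_of_eq (by
          rw [intervalIntegral.integral_const, smul_eq_mul]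
          ring), fun s hs _ => le_trans ?_ (zero_free hF hM hz (by linarith [hs.2]))⟩
      beta_reduce
      gcongr
      linarith [hs.2]
    push Not at hz
    obtain ⟨z, hz1, hz2⟩ := hz
    have hz0 : 0 < ‖z‖ := norm_pos_iff.mpr fun h => h0 (h ▸ hz2)
    obtain ⟨G, g1, g2, g3⟩ := peel hF hM hz2
    have g4 : ‖F 0‖ = ‖z‖ * ‖G 0‖ := by simpa using congrArg norm (g3 0)
    have g5 : 0 < ‖G 0‖ := (pos_iff_pos_of_mul_pos (g4 ▸ hF0)).mp hz0
    obtain ⟨Γ, Z, a1, a2, a3, a4, a5⟩ := ih G g1 g2 (norm_pos_iff.mp g5) (hk.trans_le (by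
      rw [pow_succ, mul_assoc, g4]
      gcongr
      nlinarith only [hz1, g5]))
    have hi : IntervalIntegrable (fun ρ => ε - Real.log (ρ - ‖z‖)) volume ε (2 * ε) :=
      intervalIntegrable_const.sub (by simpa using (intervalIntegral.intervalIntegrable_log'
        (a := ε - ‖z‖) (b := 2 * ε - ‖z‖)).comp_sub_right ‖z‖)
    refine ⟨fun ρ => Γ ρ + (ε - Real.log (ρ - ‖z‖)), insert ‖z‖ Z, a1.insert _, a2.add hi,
      fun ρ hρ => add_nonneg (a3 ρ hρ) ?_, ?_, fun s hs hZ => ?_⟩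
    · rw [← Real.log_abs]
      linarith [Real.log_nonpos (abs_nonneg (ρ - ‖z‖))
        (abs_le.mpr ⟨by linarith [hρ.1], by linarith [hρ.2]⟩)]
    · rw [intervalIntegral.integral_add a2 hi, g4, Real.log_mul hz0.ne' g5.ne']
      linarith [int_log hθ hθ1 hε hz0 hz1.le]
    · rw [mem_insert_iff, not_or] at hZ
      have b1 := a5 s hs hZ.2
      have b2 : 0 < |‖s‖ - ‖z‖| := abs_pos.mpr (sub_ne_zero.mpr hZ.1)
      have b3 : ‖1 - conj z * s‖ ≤ Real.exp ε := by
        refine (norm_sub_le _ _).trans ?_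
        rw [norm_one, norm_mul, Complex.norm_conj]
        nlinarith only [Real.add_one_le_exp ε, hs.2, hz1, hz0, norm_nonneg s]
      have b4 := congrArg norm (g3 s)
      rw [norm_mul, norm_mul] at b4
      have b5 : |‖s‖ - ‖z‖| * (M * Real.exp (-Γ ‖s‖)) ≤ Real.exp ε * ‖F s‖ :=
        (mul_le_mul (abs_norm_sub_norm_le s z) b1 (by positivity) (norm_nonneg _)).trans
          (b4.symm.trans_le (by gcongr))
      rw [neg_add, neg_sub, Real.exp_add, Real.exp_sub, ← Real.log_abs, Real.exp_log b2,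
        ← mul_assoc, ← mul_div_assoc, div_le_iff₀' (Real.exp_pos _), mul_comm]
      exact b5

theorem thin {χ L : ℝ} (hχ : 0 < χ) (hL : χ ≤ L) : ∃ ε, 0 < ε ∧ 2 * ε ≤ 1 ∧ ∀ F : ℕ → ℂ → ℂ,
    (∀ n, Differentiable ℂ (F n)) → (∀ n s, ‖s‖ ≤ 1 → ‖F n s‖ ≤ Real.exp (L * n)) →
    (∀ N : ℕ, ∃ n : ℕ, N ≤ n ∧ Real.exp (χ * n) ≤ ‖F n 0‖) →
    (∀ ρ ∈ Ioc ε (2 * ε), ∃ s : ℂ, ‖s‖ = ρ ∧ ∃ N : ℕ, ∀ n : ℕ, N ≤ n →
      ‖F n s‖ ≤ Real.exp (χ / 2 * n)) → False := by
  have hL0 : 0 < L := by linarith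
  set θ := χ / (4 * L) with hθ
  have hθ0 : 0 < θ := by positivity
  have hθL : θ * L = χ / 4 := by rw [hθ]; field_simp
  have hθ1 : θ ≤ 1 := by
    rw [hθ, div_le_one (by positivity)]
    linarith
  obtain ⟨ε, hε⟩ : ∃ ε, ε = θ / 16 * Real.exp (-(16 / θ)) := ⟨_, rfl⟩
  have hε0 : 0 < ε := by rw [hε]; positivity
  have hε1 : ε ≤ θ / 16 := hε ▸ mul_le_of_le_one_right (by positivity)
    (Real.exp_le_one_iff.mpr (by rw [neg_nonpos]; positivity))
  refine ⟨ε, hε0, by linarith, fun F hF hb hg hs => ?_⟩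
  set A : ℕ → Set ℝ := fun N => {ρ | ρ ∈ Ioc ε (2 * ε) ∧ ∃ s : ℂ, ‖s‖ = ρ ∧ ∀ n : ℕ, N ≤ n →
    ‖F n s‖ ≤ Real.exp (χ / 2 * n)} with hA
  have h1 : Monotone A := fun N N' h ρ ⟨h1, s, h2, h3⟩ => ⟨h1, s, h2, fun n hn => h3 n (h.trans hn)⟩
  have h2 : ⋃ N, A N = Ioc ε (2 * ε) := by
    refine (iUnion_subset fun N ρ h => h.1).antisymm fun ρ hρ => ?_
    obtain ⟨s, h2, N, h3⟩ := hs ρ hρ
    exact mem_iUnion.mpr ⟨N, hρ, s, h2, h3⟩
  have h0 : 0 < L - χ / 2 := by linarith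
  have h3 : ∀ N, (volume.restrict (Ioc ε (2 * ε))) (A N) ≤
      ENNReal.ofReal (ε * (L - 5 * χ / 8) / (L - χ / 2)) := fun N => by
    obtain ⟨N', hN'⟩ := exists_nat_ge (16 / χ)
    obtain ⟨n, a1, a2⟩ := hg (max N N')
    have a3 : 16 ≤ χ * n := by
      rw [div_le_iff₀' hχ] at hN'
      have : (N' : ℝ) ≤ n := by exact_mod_cast (le_max_right _ _).trans a1
      nlinarith only [hN', this, hχ]
    have a4 : (0 : ℝ) < n := (pos_iff_pos_of_mul_pos (show 0 < χ * n by linarith)).mp hχ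
    have a5 : 0 < ‖F n 0‖ := (Real.exp_pos _).trans_le a2
    obtain ⟨k, hk⟩ := pow_unbounded_of_one_lt (Real.exp (L * n) / ‖F n 0‖) (one_lt_two (α := ℝ))
    obtain ⟨Γ, Z, b1, b2, b3, b4, b5⟩ := minmod hθ0 hθ1 hε k (F n) (hF n) (hb n)
      (norm_pos_iff.mp a5) ((div_lt_iff₀ a5).mp hk)
    have b6 := mul_meas_ge_le_integral_of_nonneg (μ := volume.restrict (Ioc ε (2 * ε)))
      (ae_restrict_of_forall_mem measurableSet_Ioc b3) b2.1 ((L - χ / 2) * n)
    rw [← intervalIntegral.integral_of_le (by linarith)] at b6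
    rw [Real.log_exp] at b4
    have b7 : (1 + θ) * (L * n - Real.log ‖F n 0‖ + 1) ≤ (L - 5 * χ / 8) * n := by
      have := (Real.le_log_iff_exp_le a5).mpr a2
      have b8 : θ * (L * n) = χ / 4 * n := by rw [← mul_assoc, hθL]
      nlinarith only [this, b8, a3, hθ0, hθ1]
    refine (measure_mono (t := {ρ | (L - χ / 2) * n ≤ Γ ρ} ∪ Z) ?_).trans
      ((measure_union_le _ _).trans ?_)
    · rintro ρ ⟨c1, s, c2, c3⟩
      refine or_iff_not_imp_right.mpr fun c4 => ?_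
      subst c2
      have c5 := (b5 s c1 c4).trans (c3 n ((le_max_left _ _).trans a1))
      rw [← Real.exp_add, Real.exp_le_exp] at c5
      simp only [mem_ofPred_eq]
      linarith
    · rw [b1.measure_zero, add_zero, ← ofReal_measureReal]
      refine ENNReal.ofReal_le_ofReal ?_
      rw [le_div_iff₀ h0]
      refine le_of_mul_le_mul_right ?_ a4
      nlinarith only [b4, b6, mul_le_mul_of_nonneg_left b7 hε0.le]
  have h4 := h1.measure_iUnion (μ := volume.restrict (Ioc ε (2 * ε)))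
  rw [h2, Measure.restrict_apply_self, Real.volume_Ioc] at h4
  have h5 := h4.trans_le (iSup_le h3)
  rw [ENNReal.ofReal_le_ofReal_iff (div_nonneg (mul_nonneg hε0.le (by linarith)) h0.le),
    le_div_iff₀ h0] at h5
  nlinarith only [h5, mul_pos hε0 hχ]

end Pool.Agent.MP_28f8a1_an.G42.Act

end
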