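import Pool.Agent.MP_28f8a1_an.Act.Geo

section

/-! The key lemma: a univalent pull-back to a critical value followed by expansion is impossible
when the differentials of the critical value have small mass. -/

set_option autoImplicit false

namespace Pool.Agent.MP_28f8a1_an.G42.Act

open MeasureTheory Metric Set Real Filter Topology Polynomial
open scoped ENNReal

variable {T : ℂ[X]} {Λ L χ : ℝ}

/-- No two deep returns are close in time. -/
def Sep (T : ℂ[X]) (χ : ℝ) (M : ℕ) (c : ℂ) (s : ℕ) : Prop :=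
  ∀ k q, 0 < q → M * q ≤ s → ‖(fp T)^[k] c - c‖ < Real.exp (-(χ * s)) →
    ‖(fp T)^[q + k] c - c‖ < Real.exp (-(χ * s)) → False

theorem Dyn.sep (D : Dyn T Λ L) (hχ : 0 < χ) (hχ1 : χ ≤ 1) (hL : 1024 / χ ≤ Real.exp L) :
    ∃ M : ℕ, 1 ≤ M ∧ ∀ c, Bd T Λ c → Mass T Λ L c → ∀ s : ℕ,
      Real.exp (3 * χ * s) ≤ 2 * ‖Pd T c s‖ → Sep T χ M c s := by
  obtain ⟨K, hK⟩ := D.near_per hχ hχ1 hL
  obtain ⟨K', hK'⟩ := exists_nat_ge (4 * L / χ)
  have hL1 := D.L1
  refine ⟨K + K' + 1, by omega, fun c hc hm s hD k q hq hs h1 h2 => hK c hc hm s q hq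
    (le_trans (Nat.mul_le_mul_right q (by omega)) hs) ?_ hD⟩
  have h3 : (K' : ℝ) * q ≤ s := by
    exact_mod_cast (show K' * q ≤ s from le_trans (Nat.mul_le_mul_right q (by omega)) hs)
  have hq1 : (1 : ℝ) ≤ q := by exact_mod_cast hq
  rw [div_le_iff₀ hχ] at hK'
  have h4 : 4 * (L * q) ≤ χ * s := by
    nlinarith only [mul_le_mul_of_nonneg_right hK' (zero_le_one.trans hq1),
      mul_le_mul_of_nonneg_left h3 hχ.le]
  have h5 : 1 ≤ L * q := by nlinarith only [hL1, hq1]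
  have h6 : 4 * Real.exp (-(χ * s)) ≤ Real.exp (-(L * q)) := by
    rw [show -(L * q) = χ * s - L * q + -(χ * s) by ring, Real.exp_add]
    gcongr
    linarith [Real.add_one_le_exp (χ * s - L * q)]
  have h7 := D.stay' (n := q) le_rfl hc (z := (fp T)^[k] c) (by linarith)
  rw [it_add, norm_sub_rev] at h7
  have h8 : 2 * (Real.exp (L * q) * Real.exp (-(χ * s))) ≤ Real.exp (-(χ * s / 2)) := by
    rw [← Real.exp_add, show -(χ * s / 2) = χ * s / 2 - L * q + (L * q + -(χ * s)) by ring,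
      Real.exp_add (χ * s / 2 - L * q)]
    gcongr
    linarith [Real.add_one_le_exp (χ * s / 2 - L * q)]
  have h9 : 1 ≤ Real.exp (L * q) := Real.one_le_exp (by linarith)
  nlinarith only [norm_sub_le_norm_sub_add_norm_sub ((fp T)^[q] c) ((fp T)^[q + k] c) c, h7, h8, h2,
    mul_le_mul_of_nonneg_left h1.le (Real.exp_pos (L * q)).le, h9, Real.exp_pos (-(χ * s))]

theorem Sep.card {M s N : ℕ} {c : ℂ} (h : Sep T χ M c s) (hs : 0 < s) (hN : N ≤ 2 * s) :
    ((Finset.range N).filter fun k => ‖(fp T)^[k + 1] c - c‖ < Real.exp (-(χ * s))).card ≤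
      2 * M + 1 := by
  refine (Finset.card_le_card_of_injOn (t := Finset.range (2 * M + 1)) (fun k => M * k / s)
    (fun k hk => ?_) fun k hk k' hk' hkk => ?_).trans_eq (Finset.card_range _)
  · simp only [Finset.mem_coe, Finset.mem_filter, Finset.mem_range] at hk ⊢
    refine Nat.lt_succ_of_le (Nat.div_le_of_le_mul ?_)
    calc M * k ≤ M * (2 * s) := Nat.mul_le_mul_left M (by omega)
      _ = _ := by ring
  · wlog hlt : k < k' generalizing k k'
    · rcases (not_lt.mp hlt).eq_or_lt with h1 | h1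
      · exact h1.symm
      · exact (this k' hk' k hk hkk.symm h1).symm
    simp only [Finset.mem_coe, Finset.mem_filter, Finset.mem_range] at hk hk' hkk
    obtain ⟨q, rfl⟩ := Nat.exists_eq_add_of_le' hlt.le
    refine (h (k + 1) q (by omega) ?_ hk.2 hk'.2).elim
    have h1 := Nat.div_add_mod (M * k) s
    have h2 := Nat.div_add_mod (M * (q + k)) s
    have h3 := Nat.mod_lt (M * (q + k)) hs
    rw [← hkk] at h2
    rw [Nat.mul_add] at h2 h3
    omega

theorem Dyn.key (D : Dyn T Λ L) {c : ℂ} (hb : Bd T Λ c) (hq : Mass T Λ L c) {J γ : ℝ} (hχ : 0 < χ)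
    (hχ1 : χ ≤ 1) {m M : ℕ} (hM : 1 ≤ M) (hγ0 : 0 < γ) (hγ : γ * M ≤ χ)
    (hm : (4 * M + 9) * L ≤ χ * m) (hJ1 : 512 * Real.exp L ≤ Real.exp J)
    (hJ2 : 192 / γ ≤ Real.exp J) (hJ3 : 9 ^ (2 * M + 1) * Real.exp χ⁻¹ ≤ Real.exp J)
    {s n1 n2 : ℕ} (hsep : Sep T χ M c s) {ρ : ℝ} {h : ℂ → ℂ} (hρ : 0 < ρ) (hρ1 : ρ ≤ 1)
    (hbr : Br T s h (ball ((fp T)^[s] c) ρ)) (hh : h ((fp T)^[s] c) = c)
    (hyp : ∀ j k, j + k = s → ‖Pd T ((fp T)^[j] c) k‖⁻¹ ≤ 2 * Real.exp (-(3 * χ * k)))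
    (hn1 : 136 * Real.exp L < ρ * ‖Pd T ((fp T)^[s] c) n1‖)
    (hn2 : Real.exp (3 * χ * (n2 + 1 : ℕ)) ≤ 2 * ‖Pd T ((fp T)^[s] c) (n2 + 1)‖)
    (a1 : L * (n2 + 1 : ℕ) ≤ χ * s) (a2 : 2 * J + (m + 2) * (L * n1 + 1) ≤ 3 * χ * (n2 + 1 : ℕ))
    (a3 : 2 * J + (m + 1) * (L * n1 + 1) ≤ γ * s / 2) : False := by
  have hL1 := D.L1
  have hL0 : 0 < L := by linarith
  have hU := hbr.univ isOpen_ball
  have hs0 : (0 : ℝ) ≤ s := Nat.cast_nonneg s
  have hn21 : (1 : ℝ) ≤ (n2 + 1 : ℕ) := by exact_mod_cast Nat.succ_pos n2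
  have hχs : 1 ≤ χ * s := by nlinarith only [a1, hL1, hn21]
  have hn2s : ((n2 + 1 : ℕ) : ℝ) ≤ s := by nlinarith only [a1, hL1, hn21, hχ1, hs0]
  have hM1 : (1 : ℝ) ≤ M := by exact_mod_cast hM
  have hγχ : γ ≤ χ := by nlinarith only [hγ, hM1, hγ0]
  have heL : 2 ≤ Real.exp L := by linarith [Real.add_one_le_exp L]
  have hJ0 : 0 ≤ J := Real.one_le_exp_iff.mp (by linarith)
  have hcard := hsep.card (N := n2 + s) (by exact_mod_cast hn21.trans hn2s) (by
    have : n2 + 1 ≤ s := by exact_mod_cast hn2s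
    omega)
  have hsep0 := hsep 0
  set E := Real.exp (-(χ * s)) with hE
  have hE0 : 0 < E := Real.exp_pos _
  have hE1 : E ≤ 1 / 2 := by
    have := Real.add_one_le_exp (χ * s)
    rw [hE, Real.exp_neg, inv_eq_one_div]
    gcongr
    linarith
  have hE3 : Real.exp (-(3 * χ * s)) = E ^ 3 := by
    rw [hE, ← Real.exp_nat_mul]
    congr 1
    push_cast
    ring
  set A := ‖deriv h ((fp T)^[s] c)‖ with hA
  have hAD : A = ‖Pd T c s‖⁻¹ := by rw [hA, hbr.norm_deriv isOpen_ball (mem_ball_self hρ), hh]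
  have hD0 : Pd T c s ≠ 0 := by
    have := left_ne_zero_of_mul_eq_one (hbr.mul_deriv isOpen_ball (mem_ball_self hρ))
    rwa [hh] at this
  have hA0 : 0 < A := hAD ▸ inv_pos.mpr (norm_pos_iff.mpr hD0)
  have hAE : A ≤ 2 * E ^ 3 := by
    rw [hAD, ← hE3]
    exact hyp 0 s (zero_add s)
  have h0 : Pd T c (n2 + s + 1) ≠ 0 := by
    rw [add_right_comm, Pd_add]
    exact mul_ne_zero (norm_pos_iff.mp (by linarith [Real.exp_pos (3 * χ * (n2 + 1 : ℕ))])) hD0
  have haN : ‖Pd T c (n2 + s + 1)‖⁻¹ ≤ 2 * Real.exp (-(3 * χ * (n2 + 1 : ℕ))) * A := by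
    rw [add_right_comm, Pd_norm, mul_inv, ← hAD, Real.exp_neg]
    gcongr
    rw [← div_eq_mul_inv, ← inv_div]
    exact inv_anti₀ (by positivity) (by linarith)
  set N := n2 + s with hN
  have hN1 : ((N + 1 : ℕ) : ℝ) ≤ 2 * s := by
    rw [hN, add_right_comm, Nat.cast_add]
    linarith
  have hN2 : (N : ℝ) ≤ 2 * s := le_trans (by exact_mod_cast Nat.le_succ N) hN1
  have haN1 : ‖Pd T c (N + 1)‖⁻¹ ≤ 2 * A := by
    refine haN.trans ?_
    have : Real.exp (-(3 * χ * (n2 + 1 : ℕ))) ≤ 1 := Real.exp_le_one_iff.mpr (by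
      rw [neg_nonpos]; positivity)
    nlinarith only [this, hA0]
  have hE8 : E ^ 3 ≤ 1 / 8 := (pow_le_pow_left₀ hE0.le hE1 3).trans_eq (by norm_num)
  have haN2 : ‖Pd T c (N + 1)‖⁻¹ ≤ 1 := by linarith
  obtain ⟨w, hw, l, hl⟩ := D.basin (hb.iter s) (n := n1) (ρ := ρ / 136) (by positivity)
    (by linarith) (by linarith)
  set Γ := Real.exp (L * n1) with hΓ
  have hΓ0 : 0 < Γ := Real.exp_pos _
  rw [Real.exp_neg, ← hΓ] at hl
  set σ := Γ⁻¹ / 4 with hσ
  have hσ0 : 0 < σ := by positivity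
  have hσΓ : σ * Γ = 1 / 4 := by rw [hσ]; field_simp
  have hρΓ : 272 ≤ ρ * Γ := by
    linarith [mul_le_mul_of_nonneg_left (D.Pd_bd (hb.iter s) n1) hρ.le]
  have hσρ : σ ≤ ρ / 68 := by
    refine le_of_mul_le_mul_right ?_ hΓ0
    rw [hσΓ]
    linarith
  rw [mem_ball, dist_eq_norm] at hw
  have hwb : ball w σ ⊆ ball ((fp T)^[s] c) ρ :=
    ball_subset_ball' (by rw [dist_eq_norm]; linarith)
  have h1 : ball (h w) (2 * (A * σ / 16)) ⊆ h '' ball w σ := by
    refine subset_trans (ball_subset_ball ?_) (koebe hσ0 (hU.mono hwb))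
    have h2 := lin_deriv hρ hU (z := w) (η := 1 / 2) (by norm_num) (by linarith)
    have h3 := norm_sub_norm_le (deriv h ((fp T)^[s] c)) (deriv h w)
    rw [norm_sub_rev] at h3
    have h4 : A / 2 ≤ ‖deriv h w‖ := by linarith
    nlinarith only [h4, hσ0]
  have h2 : Lev T Λ (ball (h w) (2 * (A * σ / 16))) := by
    refine ⟨l + s, fun z hz => ?_⟩
    obtain ⟨u, hu, rfl⟩ := h1 hz
    rw [add_right_comm, Function.iterate_add_apply, Function.iterate_add_apply _ (l + 2),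
      hbr.inv u (hwb hu)]
    exact hl u hu
  have hr : A * ρ / 34 ≤ E ^ 3 / 17 := by nlinarith only [hAE, hρ1, hA0]
  have hE2 : E ^ 3 ≤ E ^ 2 / 2 := by nlinarith only [hE1, sq_nonneg E]
  have hE4 : E ^ 2 ≤ E / 2 := by nlinarith only [hE1, hE0]
  have hin : ∀ k < N, ‖(fp T)^[k + 1] c - c‖ < A * ρ / 34 / 8 →
      ‖(Pd T c (k + 1))⁻¹‖ ≤ 6 * Real.exp (-(γ * s)) := by
    intro k hk h3
    rw [norm_inv]
    rcases le_or_gt (k + 1) s with h4 | h4
    · have h10 : s < M * (k + 1) := not_le.mp fun h5 =>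
        hsep0 (k + 1) (Nat.succ_pos k) h5 (by simpa using hE0) (by rw [add_zero]; linarith)
      obtain ⟨j, rfl⟩ := Nat.exists_eq_add_of_le' h4
      obtain ⟨u, hu, h5⟩ := koebe (R := ρ / 68) (by positivity)
        (hU.mono (ball_subset_ball (by linarith))) (show (fp T)^[k + 1] c ∈ _ by
          rw [mem_ball, dist_eq_norm, hh]; linarith)
      have h6 := (inner_pole hρ hbr hh hu h5).trans
        (mul_le_mul_of_nonneg_left (hyp j (k + 1) rfl) zero_le_three)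
      have h11 : Real.exp (-(3 * χ * (k + 1 : ℕ))) ≤ Real.exp (-(γ * (j + (k + 1) : ℕ))) := by
        rw [Real.exp_le_exp, neg_le_neg_iff]
        have h12 : ((j + (k + 1) : ℕ) : ℝ) ≤ M * (k + 1 : ℕ) := by exact_mod_cast h10.le
        have h13 : (0 : ℝ) ≤ (k + 1 : ℕ) := Nat.cast_nonneg _
        nlinarith only [mul_le_mul_of_nonneg_left h12 hγ0.le, mul_le_mul_of_nonneg_right hγ h13,
          mul_nonneg hχ.le h13]
      linarith
    · obtain ⟨j, hj⟩ := Nat.exists_eq_add_of_le' (show k + 1 ≤ N + 1 by omega)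
      have h5 := D.an_le hb (j := j) (k := k + 1) (hj ▸ h0)
      rw [← hj] at h5
      have h6 : (j : ℝ) ≤ (n2 + 1 : ℕ) := by exact_mod_cast (show j ≤ n2 + 1 by omega)
      have h7 : Real.exp (L * j) * E ≤ 1 := by
        rw [hE, ← Real.exp_add, Real.exp_le_one_iff]
        nlinarith only [a1, h6, hL0]
      have h8 : E ≤ Real.exp (-(γ * s)) := by
        rw [hE, Real.exp_le_exp, neg_le_neg_iff]
        gcongr
      have h9 : Real.exp (L * j) * ‖Pd T c (N + 1)‖⁻¹ ≤ Real.exp (L * j) * E * (4 * E ^ 2) := by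
        rw [mul_assoc]
        gcongr
        linarith
      nlinarith only [h5, h7, h8, h9, hE0, hE1]
  have hB : ∀ k < N, ‖(Pd T c (k + 1))⁻¹‖ ≤ Real.exp (2 * L * s) := by
    intro k hk
    obtain ⟨j, hj⟩ := Nat.exists_eq_add_of_le' (show k + 1 ≤ N + 1 by omega)
    have h5 := D.an_le hb (j := j) (k := k + 1) (hj ▸ h0)
    rw [← hj] at h5
    have h6 : (j : ℝ) ≤ (N + 1 : ℕ) := by exact_mod_cast (show j ≤ N + 1 by omega)
    rw [norm_inv]
    refine h5.trans ((mul_le_of_le_one_right (Real.exp_pos _).le haN2).trans ?_)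
    rw [Real.exp_le_exp]
    nlinarith only [h6, hN1, hL0]
  have h3 := core1 (c := fun k => (fp T)^[k] c) (a := fun k => (Pd T c k)⁻¹) (N := N)
    (by simp [Pd_zero]) (σ := A * σ / 16) (r := A * ρ / 34) (R := E ^ 2) (τ := E) (by positivity)
    (h2.ne hb) (by positivity) (hq N h0 _ _ h2) (by
      have := lin_val_le hρ hU (z := w) (by linarith)
      rw [hh] at this
      show ‖h w - c‖ + _ ≤ _
      nlinarith only [this, hw, hσρ, hA0, hρ, hA]) (by linarith [pow_pos hE0 2]) (by positivity) hin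
    hE0 hcard (Real.exp_pos _).le hB m
  have hsE : χ * s * E ≤ 1 := by
    nlinarith only [Real.add_one_le_exp (χ * s), exp_mul_neg (χ * s), hE0]
  refine absurd h3 (not_le.mpr (max_lt ?_ ?_))
  · have h4 : 9 ^ (2 * M + 1) * Real.exp (N * (A * ρ / 34 / E)) ≤ Real.exp J := by
      refine le_trans ?_ hJ3
      gcongr
      have h8 : A * ρ / 34 / E ≤ E / 2 := by
        rw [div_le_iff₀ hE0]
        nlinarith only [hr, hE2, pow_pos hE0 2]
      have h9 : N * (A * ρ / 34 / E) ≤ 2 * s * (E / 2) := by gcongr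
      rw [inv_eq_one_div, le_div_iff₀ hχ]
      nlinarith only [mul_le_mul_of_nonneg_right h9 hχ.le, hsE]
    have h5 : A * ρ / 34 / (A * σ / 16) ≤ Real.exp (L * n1 + 1) := by
      rw [Real.exp_add, ← hΓ, div_le_iff₀ (by positivity)]
      have : Γ * Real.exp 1 * (A * σ / 16) = A * Real.exp 1 / 64 := by
        linear_combination (Real.exp 1 * A / 16) * hσΓ
      nlinarith only [Real.exp_one_gt_d9, this, hA0, hρ1]
    have h6 : Real.exp L * ‖Pd T c (N + 1)‖⁻¹ / (A * σ / 16) ≤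
        Real.exp (J + L * n1 - 3 * χ * (n2 + 1 : ℕ)) / 4 := by
      rw [sub_eq_add_neg, Real.exp_add, Real.exp_add, ← hΓ, div_le_iff₀ (by positivity)]
      set x := Real.exp (-(3 * χ * (n2 + 1 : ℕ)))
      have hx : 0 < x := Real.exp_pos _
      have : Real.exp J * Γ * x / 4 * (A * σ / 16) = Real.exp J * (x * A / 256) := by
        linear_combination (Real.exp J * x * A / 64) * hσΓ
      rw [this]
      calc _ ≤ Real.exp L * (2 * x * A) := by gcongr
        _ = 512 * Real.exp L * (x * A / 256) := by ring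
        _ ≤ _ := by gcongr
    have h7 : 2 * N * (6 * Real.exp (-(γ * s))) ≤ Real.exp (J - γ * s / 2) / 4 := by
      have h8 := Real.add_one_le_exp (γ * s / 2)
      have h9 : Real.exp (J - γ * s / 2) =
          Real.exp J * Real.exp (γ * s / 2) * Real.exp (-(γ * s)) := by
        rw [← Real.exp_add, ← Real.exp_add]
        congr 1
        ring
      have h10 : 96 * s ≤ Real.exp J * Real.exp (γ * s / 2) := by
        calc 96 * (s : ℝ) = 192 / γ * (γ * s / 2) := by field_simp; ring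
          _ ≤ _ := by gcongr; linarith
      rw [h9]
      nlinarith only [Real.exp_pos (-(γ * s)), h10, hN2]
    calc _ ≤ Real.exp J * Real.exp (L * n1 + 1) * (Real.exp (J + L * n1 - 3 * χ * (n2 + 1 : ℕ)) / 4 +
          Real.exp (J - γ * s / 2) / 4) * Real.exp (L * n1 + 1) ^ m := by gcongr
      _ = Real.exp (2 * J + (m + 1) * (L * n1 + 1) + L * n1 - 3 * χ * (n2 + 1 : ℕ)) / 4 +
          Real.exp (2 * J + (m + 1) * (L * n1 + 1) - γ * s / 2) / 4 := by
        rw [← Real.exp_nat_mul, mul_add, add_mul]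
        simp only [← mul_div_assoc, div_mul_eq_mul_div, ← Real.exp_add]
        congr 3 <;> ring
      _ ≤ 1 / 4 + 1 / 4 := by
        gcongr <;> rw [Real.exp_le_one_iff] <;> linarith
      _ < 1 := by norm_num
  · set G := Real.exp (L * s) with hG
    have hG0 : 0 < G := Real.exp_pos _
    have hs1 : 1 + s ≤ G := by nlinarith only [Real.add_one_le_exp (L * s), hL1, hs0]
    have hs2 : (1 : ℝ) ≤ s := hn21.trans hn2s
    have b1 : 1 ≤ A * G := by
      rw [hAD, ← div_eq_inv_mul, one_le_div (norm_pos_iff.mpr hD0)]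
      exact D.Pd_bd hb s
    have b2 : Γ ≤ G := by
      rw [hΓ, hG, Real.exp_le_exp]
      have : 0 ≤ m * (L * n1 + 1) := by positivity
      nlinarith only [a3, hJ0, this, hγχ, hχ1, hL1, hs0]
    have b3 : 16 * E ^ 2 / (A * ρ / 34) ≤ G ^ 2 / 2 := by
      rw [div_le_iff₀ (by positivity)]
      have b4 : 272 ≤ ρ * G := hρΓ.trans (by gcongr)
      nlinarith only [mul_le_mul b1 b4 (by norm_num) (by positivity), hE4, hE1]
    have b4 : 1 + 16 * E ^ 2 / (A * ρ / 34) ≤ G ^ 2 := by nlinarith only [b3, hs1, hs2]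
    have b5 : Real.exp (N * (2 * E ^ 2 / E)) ≤ G ^ 2 := by
      rw [show 2 * E ^ 2 / E = 2 * E by field_simp, hG, ← Real.exp_nat_mul, Real.exp_le_exp]
      push_cast
      nlinarith only [hN2, hE1, hL1, hs0, (Nat.cast_nonneg N : (0 : ℝ) ≤ N)]
    have b6 : Real.exp (2 * L * s) = G ^ 2 := by
      rw [hG, ← Real.exp_nat_mul]
      congr 1
      push_cast
      ring
    have b7 : 1 + 16 * E ^ 2 / (A * ρ / 34) * (N * Real.exp (2 * L * s)) ≤ G ^ 5 := by
      rw [b6]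
      have b8 : 16 * E ^ 2 / (A * ρ / 34) * (N * G ^ 2) ≤ G ^ 2 / 2 * (2 * s * G ^ 2) := by gcongr
      have b9 : 1 ≤ G ^ 4 := one_le_pow₀ (by linarith)
      nlinarith only [b8, b9, mul_le_mul_of_nonneg_right hs1 (zero_le_one.trans b9)]
    have hm0 : m ≠ 0 := by
      rintro rfl
      rw [Nat.cast_zero, mul_zero] at hm
      nlinarith only [hm, hM1, hL0]
    have b8 : (A * ρ / 34 / E ^ 2) ^ m < E ^ m := by
      refine pow_lt_pow_left₀ ?_ (by positivity) hm0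
      rw [div_lt_iff₀ (by positivity)]
      nlinarith only [hr, pow_pos hE0 3]
    calc _ ≤ (G ^ 2) ^ (2 * M + 1) * G ^ 2 * G ^ 5 * (A * ρ / 34 / E ^ 2) ^ m := by gcongr
      _ < (G ^ 2) ^ (2 * M + 1) * G ^ 2 * G ^ 5 * E ^ m := by gcongr
      _ = G ^ (4 * M + 9) * E ^ m := by ring
      _ ≤ 1 := by
        rw [hG, hE, ← Real.exp_nat_mul, ← Real.exp_nat_mul, ← Real.exp_add, Real.exp_le_one_iff]
        push_cast
        nlinarith only [mul_le_mul_of_nonneg_right hm hs0]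

end Pool.Agent.MP_28f8a1_an.G42.Act

end

section

/-! No exponential growth along a subsequence of a critical orbit. -/

set_option autoImplicit false

namespace Pool.Agent.MP_28f8a1_an.G42.Act

open MeasureTheory Metric Set Real Filter Topology Polynomial
open scoped ENNReal

variable {T : ℂ[X]} {Λ L χ : ℝ}

theorem Dyn.step (D : Dyn T Λ L) {x c : ℂ} (hx : Bd T Λ x) (hb : Bd T Λ c) (hq : Mass T Λ L c)
    {J γ : ℝ} (hχ : 0 < χ) (hχ1 : χ ≤ 1) {m M : ℕ} (hM : 1 ≤ M) (hγ0 : 0 < γ) (hγ : γ * M ≤ χ)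
    (hm : (4 * M + 9) * L ≤ χ * m) (hJ1 : 512 * Real.exp L ≤ Real.exp J)
    (hJ2 : 192 / γ ≤ Real.exp J) (hJ3 : 9 ^ (2 * M + 1) * Real.exp χ⁻¹ ≤ Real.exp J)
    {n s n1 n2 : ℕ} {b b' : ℝ} (hsep : Real.exp (3 * χ * s) ≤ 2 * ‖Pd T c s‖ → Sep T χ M c s)
    (hs : s ≤ n) (hH : ∀ j k, j + k = n → Real.exp (3 * χ * k) ≤ ‖Pd T ((fp T)^[j] x) k‖)
    {h : ℂ → ℂ} (hbr : Br T s h (ball ((fp T)^[n] x) (Real.exp (-b))))
    (hh : h ((fp T)^[n] x) = (fp T)^[n - s] x) {u : ℂ}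
    (hu : ‖u - (fp T)^[n] x‖ ≤ 2 * Real.exp (-b')) (huc : h u = c)
    (hn1 : Real.exp (3 * χ * n1) ≤ ‖Pd T ((fp T)^[n] x) n1‖)
    (hn2 : Real.exp (3 * χ * (n2 + 1 : ℕ)) ≤ ‖Pd T ((fp T)^[n] x) (n2 + 1)‖) (b1 : L + 5 ≤ b)
    (b2 : b ≤ χ * n1) (b3 : b + 5 ≤ b') (b4 : 2 * (L * n1) + 4 ≤ b')
    (b5 : 2 * (L * (n2 + 1 : ℕ)) + 4 ≤ b') (a1 : L * (n2 + 1 : ℕ) ≤ χ * s)
    (a2 : 2 * J + (m + 2) * (L * n1 + 1) ≤ 3 * χ * (n2 + 1 : ℕ))
    (a3 : 2 * J + (m + 1) * (L * n1 + 1) ≤ γ * s / 2) : False := by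
  have hL1 := D.L1
  have hex : ∀ k : ℕ, (2.7 : ℝ) ^ k ≤ Real.exp k := fun k => by
    rw [← mul_one (k : ℝ), Real.exp_nat_mul]
    exact pow_le_pow_left₀ (by norm_num) (by linarith [Real.exp_one_gt_d9]) k
  have e4 : 53 ≤ Real.exp (4 : ℕ) := le_trans (by norm_num) (hex 4)
  have e5 : 143 ≤ Real.exp (5 : ℕ) := le_trans (by norm_num) (hex 5)
  have e10 : 20000 ≤ Real.exp (10 : ℕ) := le_trans (by norm_num) (hex 10)
  set ρ := Real.exp (-b) with hρ
  have hρ0 : 0 < ρ := Real.exp_pos _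
  have hρ1 : ρ ≤ 1 := Real.exp_le_one_iff.mpr (by linarith)
  have h1 : 34 * ‖u - (fp T)^[n] x‖ ≤ ρ := by
    have h2 : Real.exp (5 : ℕ) * Real.exp (-b') ≤ ρ := by
      rw [← Real.exp_add, hρ, Real.exp_le_exp]
      push_cast
      linarith
    nlinarith only [h2, e5, hu, Real.exp_pos (-b')]
  have hub : u ∈ ball ((fp T)^[n] x) ρ := by
    rw [mem_ball, dist_eq_norm]
    linarith [norm_nonneg (u - (fp T)^[n] x)]
  have hus : (fp T)^[s] c = u := by rw [← hbr.inv u hub, huc]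
  have hsub : ball ((fp T)^[s] c) (ρ / 2) ⊆ ball ((fp T)^[n] x) ρ :=
    ball_subset_ball' (by rw [dist_eq_norm, hus]; linarith [norm_nonneg (u - (fp T)^[n] x)])
  have hg : ∀ k : ℕ, 2 * (L * k) + 4 ≤ b' → Real.exp (3 * χ * k) ≤ ‖Pd T ((fp T)^[n] x) k‖ →
      Real.exp (3 * χ * k) ≤ 2 * ‖Pd T ((fp T)^[s] c) k‖ := fun k h2 h3 => by
    refine h3.trans (D.gain (hx.iter n) ?_ ((Real.one_le_exp (by positivity)).trans h3))
    have h4 : Real.exp (4 : ℕ) * (Real.exp (2 * (L * k)) * Real.exp (-b')) ≤ 1 := by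
      rw [← Real.exp_add, ← Real.exp_add, Real.exp_le_one_iff]
      push_cast
      linarith
    have h5 := mul_le_mul_of_nonneg_left hu (Real.exp_pos (2 * (L * k))).le
    rw [hus]
    nlinarith only [h4, h5, e4, mul_pos (Real.exp_pos (2 * (L * k))) (Real.exp_pos (-b'))]
  have hyp : ∀ j k, j + k = s → ‖Pd T ((fp T)^[j] c) k‖⁻¹ ≤ 2 * Real.exp (-(3 * χ * k)) := by
    intro j k hjk
    have h2 := hbr.iter (show j ≤ s by omega)
    have h3 := lin_deriv hρ0 (h2.univ isOpen_ball) (z := u) (η := 1) (by norm_num) (by linarith)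
    have h4 := norm_sub_norm_le (deriv (fun z => (fp T)^[j] (h z)) u)
      (deriv (fun z => (fp T)^[j] (h z)) ((fp T)^[n] x))
    have h5 := h2.norm_deriv isOpen_ball hub
    have h6 := h2.norm_deriv isOpen_ball (mem_ball_self hρ0)
    rw [huc, show s - j = k by omega] at h5
    rw [hh, show s - j = k by omega, it_add] at h6
    have h7 := inv_anti₀ (Real.exp_pos _) (hH (j + (n - s)) k (by omega))
    rw [← Real.exp_neg] at h7
    linarith
  refine D.key hb hq hχ hχ1 hM hγ0 hγ hm hJ1 hJ2 hJ3 (s := s) (n1 := n1) (hsep ?_) (half_pos hρ0)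
    (by linarith) (hbr.mono hsub) (by rw [hus, huc]) hyp ?_ (hg _ b5 hn2) a1 a2 a3
  · have h2 : ‖Pd T c s‖⁻¹ ≤ _ := hyp 0 s (zero_add s)
    have h3 := left_ne_zero_of_mul_eq_one (hbr.mul_deriv isOpen_ball hub)
    rw [huc] at h3
    rw [Real.exp_neg, ← div_eq_mul_inv, inv_eq_one_div,
      div_le_div_iff₀ (norm_pos_iff.mpr h3) (Real.exp_pos _), one_mul] at h2
    exact h2
  · have h2 := hg _ b4 hn1
    have h3 : Real.exp (10 : ℕ) * Real.exp L ≤ ρ * Real.exp (3 * χ * n1) := by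
      rw [hρ, ← Real.exp_add, ← Real.exp_add, Real.exp_le_exp]
      push_cast
      linarith
    nlinarith only [h2, h3, e10, hρ0, Real.exp_pos L]

theorem Dyn.no_exp (D : Dyn T Λ L) (hT : 0 < T.natDegree) (hχ : 0 < χ) (hχ1 : χ ≤ 1)
    (hL : 1024 / χ ≤ Real.exp L) {ω₀ c : ℂ} (hω : lam T ω₀ = 0) (hc : c = fp T ω₀) (hb : Bd T Λ c)
    {δ : ℝ} (hδ : 0 < δ) (hq : ∀ ω, lam T ω = 0 → (Bd T Λ (fp T ω) ∧ Mass T Λ L (fp T ω)) ∨
      ∀ k j, δ ≤ ‖(fp T)^[k] (fp T ω) - (fp T)^[j] c‖)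
    (h : ∀ N : ℕ, ∃ n : ℕ, N ≤ n ∧ Real.exp (4 * χ * n) ≤ ‖Pd T c n‖) : False := by
  classical
  have hL1 := D.L1
  have hL0 : 0 < L := by linarith
  have h0 : ∀ n, 0 < ‖Pd T c n‖ := fun n => by
    obtain ⟨k, h1, h2⟩ := h n
    exact norm_pos_iff.mpr (Pd_ne (norm_pos_iff.mp ((Real.exp_pos _).trans_le h2)) h1)
  have h0' : ∀ j, 0 < ‖lam T ((fp T)^[j] c)‖ := fun j => by
    have := h0 (j + 1)
    rw [Pd_succ', norm_mul] at this
    exact (pos_iff_pos_of_mul_pos this).mpr (h0 j)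
  set dep : ℕ → ℝ := fun j => 2 * L + 1 - 2 * Real.log ‖lam T ((fp T)^[j] c)‖ with hdp
  have hd1 : ∀ j, 1 ≤ dep j := fun j => by
    have := (Real.log_le_iff_le_exp (h0' j)).mpr (D.der _ (by linarith [hb j]))
    simp only [hdp]
    linarith
  have hsum : ∀ n : ℕ, ∑ j ∈ Finset.range n, dep j =
      (2 * L + 1) * n - 2 * Real.log ‖Pd T c n‖ := fun n => by
    induction n with
    | zero => simp [Pd_zero]
    | succ n ih =>
      rw [Finset.sum_range_succ, ih, Pd_succ', norm_mul, Real.log_mul (h0' n).ne' (h0 n).ne']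
      simp only [hdp]
      push_cast
      ring
  obtain ⟨R, hR, hsep⟩ := D.sep hχ hχ1 hL
  have hR0 : (0 : ℝ) < R := by exact_mod_cast hR
  have hnat : ∀ x y : ℝ, 0 < x → ∃ k : ℕ, y ≤ x * k := fun x y hx => by
    obtain ⟨k, hk⟩ := exists_nat_ge (y / x)
    exact ⟨k, (div_le_iff₀' hx).mp hk⟩
  set θ := χ / (2 * L) with hθ
  have hθ0 : 0 < θ := by positivity
  obtain ⟨KH, hKH⟩ := hnat θ 2 hθ0
  obtain ⟨m, hm⟩ := hnat χ ((4 * R + 9) * L) hχ
  obtain ⟨γ, hγ0, hγ⟩ : ∃ γ : ℝ, 0 < γ ∧ γ * R ≤ χ :=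
    ⟨χ / R, by positivity, (div_mul_cancel₀ _ hR0.ne').le⟩
  obtain ⟨J, hJ0, hJ1, hJ2, hJ3⟩ : ∃ J : ℝ, 0 ≤ J ∧ 512 * Real.exp L ≤ Real.exp J ∧
      192 / γ ≤ Real.exp J ∧ 9 ^ (2 * R + 1) * Real.exp χ⁻¹ ≤ Real.exp J := by
    have h1 : 0 ≤ 192 / γ := by positivity
    have h2 : 0 ≤ 9 ^ (2 * R + 1) * Real.exp χ⁻¹ := by positivity
    have h3 := Real.add_one_le_exp (512 * Real.exp L + 192 / γ + 9 ^ (2 * R + 1) * Real.exp χ⁻¹)
    have h4 := Real.exp_pos L
    exact ⟨512 * Real.exp L + 192 / γ + 9 ^ (2 * R + 1) * Real.exp χ⁻¹, by linarith, by linarith,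
      by linarith, by linarith⟩
  obtain ⟨k1, hk1⟩ := hnat χ 1 hχ
  set P := 2 * J + (m + 2) * (L * (KH * k1) + 1) with hP
  have hP0 : 0 ≤ P := by positivity
  obtain ⟨k2, hk2, hk12⟩ : ∃ k2 : ℕ, P ≤ χ * k2 ∧ k1 ≤ k2 := by
    obtain ⟨k, hk⟩ := hnat χ P hχ
    refine ⟨k + k1, hk.trans ?_, by omega⟩
    gcongr
    omega
  have hk10 : 1 ≤ k1 := Nat.pos_of_ne_zero fun h => by
    rw [h, Nat.cast_zero] at hk1
    linarith
  set K' := L * (KH * k2) / χ + 2 * P / γ with hK'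
  have hK'0 : 0 ≤ K' := by positivity
  set β := θ / (30 * L) with hβ
  have hβ0 : 0 < β := by positivity
  obtain ⟨N', hN'⟩ := hnat (χ * β) 2 (by positivity)
  have hN'0 : (0 : ℝ) < N' := (pos_iff_pos_of_mul_pos (two_pos.trans_le hN')).mp (by positivity)
  obtain ⟨K, hK1, hK2⟩ : ∃ K : ℕ, 2 * K' ≤ β * K ∧ 2 * (L * (KH * k2)) + 4 ≤ K := by
    obtain ⟨k, hk⟩ := exists_nat_ge (max (2 * K' / β) (2 * (L * (KH * k2)) + 4))
    exact ⟨k, (div_le_iff₀' hβ0).mp ((le_max_left _ _).trans hk), (le_max_right _ _).trans hk⟩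
  have hK4 : (4 : ℝ) ≤ K := le_trans (le_add_of_nonneg_left (by positivity)) hK2
  have hK1' : 1 ≤ K := by exact_mod_cast le_trans (show (1 : ℝ) ≤ 4 by norm_num) hK4
  set q := Real.exp (-χ) with hq'
  have hq0 : 0 < q := Real.exp_pos _
  have hq1 : q < 1 := Real.exp_lt_one_iff.mpr (by linarith)
  obtain ⟨b0, hb1, hb2, hb3, hb4⟩ : ∃ b0 : ℕ, L + 5 ≤ b0 ∧
      -(2 * Real.log ((1 - q) ^ 2 / 512)) ≤ b0 ∧ 2 * β⁻¹ ≤ b0 ∧ -Real.log (δ / 4) ≤ b0 := by
    obtain ⟨k, hk⟩ := exists_nat_ge (max (L + 5) (max (-(2 * Real.log ((1 - q) ^ 2 / 512)))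
      (max (2 * β⁻¹) (-Real.log (δ / 4)))))
    simp only [max_le_iff] at hk
    exact ⟨k, hk⟩
  set bb : ℕ → ℕ := fun a => K ^ a * b0 with hbb
  have hbm : ∀ a a', a ≤ a' → bb a ≤ bb a' := fun a a' haa =>
    Nat.mul_le_mul_right _ (Nat.pow_le_pow_right hK1' haa)
  have hb0 : ∀ a, (b0 : ℝ) ≤ bb a := fun a => by
    have := hbm 0 a (Nat.zero_le a)
    simp only [hbb, pow_zero, one_mul] at this
    exact_mod_cast this
  obtain ⟨M, hM1, hM2⟩ : ∃ M : ℕ, K' * bb N' ≤ M ∧ 1 + KH * (k2 * bb N') ≤ M := by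
    obtain ⟨k, hk⟩ := exists_nat_ge (K' * bb N')
    exact ⟨max k _, hk.trans (by exact_mod_cast le_max_left _ _), le_max_right _ _⟩
  obtain ⟨N0, hN0⟩ := hnat θ (4 * M + 1) hθ0
  obtain ⟨n0, hn0, hD⟩ := h N0
  set a : ℕ → ℝ := fun n => Real.log ‖Pd T c n‖ - 3 * χ * n with ha
  have hH : ∀ j k, a j ≤ a (k + j) → Real.exp (3 * χ * k) ≤ ‖Pd T ((fp T)^[j] c) k‖ := by
    intro j k h1
    have h2 := h0 (k + j)
    rw [Pd_norm] at h2
    have h3 := (pos_iff_pos_of_mul_pos h2).mpr (h0 j)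
    simp only [ha] at h1
    rw [Pd_norm, Real.log_mul h3.ne' (h0 j).ne', Nat.cast_add] at h1
    rw [← Real.le_log_iff_exp_le h3]
    linarith
  have h1 := pliss (a := a) (lam := L) (fun n => by
    have h2 := D.Pd_bd (hb.iter n) 1
    have h3 := h0 (1 + n)
    rw [Pd_norm] at h3
    have h4 := (pos_iff_pos_of_mul_pos h3).mpr (h0 n)
    rw [← Real.log_le_iff_le_exp h4] at h2
    simp only [ha]
    rw [add_comm n 1, Pd_norm, Real.log_mul h4.ne' (h0 n).ne']
    push_cast at h2 ⊢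
    linarith) n0 n0 le_rfl
  have h2 : 4 * χ * n0 ≤ Real.log ‖Pd T c n0‖ := (Real.le_log_iff_exp_le (h0 n0)).mpr hD
  obtain ⟨F, hF1, hF2⟩ := dense_times (H := fun i => ∀ j ≤ i, a j ≤ a i) hθ0 (n0 := n0) (by
    refine le_of_mul_le_mul_left (le_trans ?_ h1) hL0
    simp only [ha, Pd_zero, norm_one, Real.log_one, Nat.cast_zero]
    rw [show L * (2 * θ * n0) = χ * n0 by rw [hθ]; field_simp]
    linarith) hKH
  have hd0 : ∀ j, 0 ≤ dep j := fun j => zero_le_one.trans (hd1 j)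
  obtain ⟨n, hn, hψ⟩ := select_time (F := F.filter fun n => M ≤ n ∧ n + M ≤ n0) (n0 := n0)
    (fun n hn => (hF2 n (Finset.mem_filter.mp hn).1).1)
    (ψ := fun l j => (if (l : ℝ) ≤ dep j / χ then (N' : ℝ)⁻¹ else 0) +
      if (l : ℝ) ≤ β * dep j then (if β⁻¹ ≤ dep j then 1 else 0) else 0)
    (fun l j => by positivity) (W := fun j => 3 * β * dep j) (fun j => by
      rw [Finset.sum_add_distrib]
      have h3 := hd0 j
      have h4 : (dep j / χ + 1) * (N' : ℝ)⁻¹ ≤ β * dep j := by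
        rw [← div_eq_mul_inv, div_le_iff₀ hN'0, div_add_one hχ.ne', div_le_iff₀ hχ]
        nlinarith only [mul_le_mul_of_nonneg_left hN' h3, hd1 j, hχ1]
      have h5 : (β * dep j + 1) * (if β⁻¹ ≤ dep j then 1 else 0) ≤ 2 * β * dep j := by
        split_ifs with h5
        · rw [inv_le_iff_one_le_mul₀' hβ0] at h5
          linarith
        · rw [mul_zero]
          positivity
      linarith [count_le n0 (div_nonneg h3 hχ.le) (inv_pos.mpr hN'0).le, count_le n0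
        (mul_nonneg hβ0.le h3) (show (0 : ℝ) ≤ if β⁻¹ ≤ dep j then 1 else 0 by positivity)])
    (by
      have h3 : ∑ j ∈ Finset.range n0, dep j ≤ 5 * L * n0 := by
        rw [hsum]
        nlinarith only [h2, hL1, hχ, (Nat.cast_nonneg n0 : (0 : ℝ) ≤ n0)]
      have h4 : (F.card : ℝ) ≤ (F.filter fun n => M ≤ n ∧ n + M ≤ n0).card + 2 * M := by
        exact_mod_cast trim_card (fun n hn => (hF2 n hn).1) M
      have h5 : θ * N0 ≤ θ * n0 := by gcongr
      have h6 : 3 * β * (5 * L * n0) = θ * n0 / 2 := by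
        rw [hβ]
        field_simp
        ring
      rw [← Finset.mul_sum]
      linarith [mul_le_mul_of_nonneg_left h3 (show 0 ≤ 3 * β by positivity)])
  obtain ⟨hnF, hMn, hnM⟩ := Finset.mem_filter.mp hn
  obtain ⟨-, hHn, hwin⟩ := hF2 n hnF
  have hyp : ∀ j k, j + k = n + 1 → Real.exp (3 * χ * k) ≤ ‖Pd T ((fp T)^[j] c) k‖ := fun j k hjk =>
    hH j k (by rw [add_comm, hjk]; exact hHn j (by omega))
  choose l hl1 g hg1 hg2 u hu1 ω hω1 hu2 hw0 using fun a : ℕ =>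
    D.hit hT hω hc hb (fun j => norm_pos_iff.mp (h0' j)) (Real.exp_pos (-(bb a : ℝ))) hq0 hq1 (n + 1)
  have hdep : ∀ a, l a ≤ n → (bb a : ℝ) / 2 + χ * l a ≤ dep (n - l a) := by
    intro a ha
    obtain ⟨w, hw1, hw2⟩ := hw0 a (by omega)
    have h3 := hit_depth (Real.exp_pos _) hq0 hq1 (hg1 a) hw1 (by
      rw [hg2, hq', ← Real.exp_nat_mul, ← Real.exp_nat_mul]
      refine (inv_anti₀ (Real.exp_pos _) (hyp _ _ (by omega))).trans_eq ?_
      rw [← Real.exp_neg]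
      congr 1
      push_cast
      ring)
    rw [Nat.add_sub_add_right] at hw2
    have h4 : 0 < (1 - q) ^ 2 := pow_pos (sub_pos.mpr hq1) 2
    have h5 : Real.exp (-(bb a / 2 : ℝ)) ≤ (1 - q) ^ 2 / 512 := by
      rw [← Real.le_log_iff_exp_le (by positivity)]
      linarith [hb0 a]
    have h6 : Real.exp L ^ 2 * (Real.exp (-(bb a : ℝ)) * q ^ l a) =
        Real.exp (-(bb a / 2 : ℝ)) * Real.exp (2 * L - bb a / 2 - χ * l a) := by
      rw [hq', ← Real.exp_nat_mul, ← Real.exp_nat_mul, ← Real.exp_add, ← Real.exp_add,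
        ← Real.exp_add]
      congr 1
      push_cast
      ring
    have h7 : ‖lam T ((fp T)^[n - l a] c)‖ ^ 2 ≤ Real.exp (2 * L - bb a / 2 - χ * l a) := by
      refine le_of_mul_le_mul_right ?_ h4
      nlinarith only [mul_le_mul_of_nonneg_right hw2 h4.le, h6,
        mul_le_mul_of_nonneg_left h3 (sq_nonneg (Real.exp L)),
        mul_le_mul_of_nonneg_right h5 (Real.exp_pos (2 * L - bb a / 2 - χ * l a)).le]
    rw [← Real.log_le_iff_le_exp (pow_pos (h0' _) 2), Real.log_pow] at h7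
    simp only [hdp]
    push_cast at h7
    linarith
  set S := (Finset.range (n + 1)).filter fun j => ((n - j : ℕ) : ℝ) ≤ dep j / χ with hS
  have hSc : S.card < N' := by
    have h3 : ∑ j ∈ Finset.range (n + 1), (if ((n - j : ℕ) : ℝ) ≤ dep j / χ
        then (N' : ℝ)⁻¹ else 0) < 1 :=
      (Finset.sum_le_sum fun j _ => le_add_of_nonneg_right (by positivity)).trans_lt hψ
    rw [← Finset.sum_filter, Finset.sum_const, nsmul_eq_mul, ← div_eq_mul_inv,
      div_lt_one hN'0] at h3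
    exact_mod_cast h3
  obtain ⟨x, hx, y, hy, hxy, hf⟩ := Finset.exists_ne_map_eq_of_card_lt_of_maps_to
    (s := Finset.range (N' + 1)) (t := insert 0 (S.image (· + 1))) (f := fun a => n + 1 - l a)
    (by
      rw [Finset.card_range]
      exact (Finset.card_insert_le _ _).trans_lt
        (Nat.succ_lt_succ (Finset.card_image_le.trans_lt hSc)))
    (fun a _ => by
      simp only [Finset.mem_coe, Finset.mem_insert, Finset.mem_image]
      rcases (hl1 a).eq_or_lt with h3 | h3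
      · exact Or.inl (by omega)
      · refine Or.inr ⟨n - l a, Finset.mem_filter.mpr ⟨Finset.mem_range.mpr (by omega), ?_⟩,
          by omega⟩
        rw [Nat.sub_sub_self (by omega), le_div_iff₀' hχ]
        linarith [hdep a (by omega), show (0 : ℝ) ≤ bb a / 2 by positivity])
  wlog hlt : x < y generalizing x y
  · exact this y hy x hx hxy.symm hf.symm (by omega)
  have hl2 : l x = l y := by
    have := hl1 x
    have := hl1 y
    omega
  have hx' : bb x ≤ bb N' := hbm _ _ (by have := Finset.mem_range.mp hx; omega)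
  have hxy' : (K : ℝ) * bb x ≤ bb y := by
    have := hbm (x + 1) y hlt
    simp only [hbb, pow_succ'] at this ⊢
    rw [mul_assoc] at this
    exact_mod_cast this
  have hb5' : L + 5 ≤ bb x := hb1.trans (hb0 x)
  have hb5 : (5 : ℝ) ≤ bb x := by linarith
  have hb6 : 1 ≤ bb x := by exact_mod_cast le_trans (show (1 : ℝ) ≤ 5 by norm_num) hb5
  have hw : ∀ k, k ≤ k2 → n + 1 + KH * (k * bb x) ≤ n0 := fun k hk => by
    have : KH * (k * bb x) ≤ KH * (k2 * bb N') := by gcongr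
    omega
  obtain ⟨n1, h3, h4, h5⟩ := hwin (k1 * bb x) (Nat.mul_pos hk10 hb6) (hw _ hk12)
  obtain ⟨n2, h6, h7, h8⟩ := hwin (k2 * bb x) (Nat.mul_pos (by omega) hb6) (hw _ le_rfl)
  obtain ⟨n2, rfl⟩ := Nat.exists_eq_succ_of_ne_zero
    ((Nat.mul_pos (show 0 < k2 by omega) hb6).trans_le h6).ne'
  have h3' : (k1 : ℝ) * bb x ≤ n1 := by exact_mod_cast h3
  have h4' : (n1 : ℝ) ≤ KH * (k1 * bb x) := by exact_mod_cast h4
  have h6' : (k2 : ℝ) * bb x ≤ (n2 + 1 : ℕ) := by exact_mod_cast h6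
  have h7' : ((n2 + 1 : ℕ) : ℝ) ≤ KH * (k2 * bb x) := by exact_mod_cast h7
  have hs : K' * bb x ≤ l x := by
    rcases (hl1 y).eq_or_lt with h9 | h9
    · have h10 : K' * bb x ≤ K' * bb N' := by gcongr
      refine h10.trans (hM1.trans ?_)
      exact_mod_cast (show M ≤ l x by omega)
    · by_contra h10
      have h11 := hdep y (by omega)
      have h12 : (0 : ℝ) ≤ χ * l y := by positivity
      have h13 := (Finset.single_le_sum (f := fun j => (if ((n - j : ℕ) : ℝ) ≤ dep j / χ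
        then (N' : ℝ)⁻¹ else 0) + if ((n - j : ℕ) : ℝ) ≤ β * dep j
          then (if β⁻¹ ≤ dep j then 1 else 0) else 0) (fun j _ => by positivity)
        (Finset.mem_range.mpr (show n - l y < n + 1 by omega))).trans_lt hψ
      simp only [Nat.sub_sub_self (show l y ≤ n by omega)] at h13
      rw [if_pos (show (l y : ℝ) ≤ β * dep (n - l y) by
        rw [hl2] at h10
        nlinarith only [h10, h11, h12, hβ0, mul_le_mul_of_nonneg_left hxy' hβ0.le,
          mul_le_mul_of_nonneg_right hK1 (Nat.cast_nonneg (α := ℝ) (bb x))]),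
        if_pos (show β⁻¹ ≤ dep (n - l y) by linarith [hb0 y])] at h13
      have : (0 : ℝ) ≤ if (l y : ℝ) ≤ dep (n - l y) / χ then (N' : ℝ)⁻¹ else 0 := by positivity
      linarith
  have hρ : Real.exp (-(bb y : ℝ)) ≤ Real.exp (-(bb x : ℝ)) / 2 := by
    have h9 := Real.add_one_le_exp (bb y - bb x : ℝ)
    rw [le_div_iff₀ two_pos, show -(bb x : ℝ) = -(bb y : ℝ) + (bb y - bb x) by ring, Real.exp_add]
    gcongr
    nlinarith only [h9, hxy', hK4, hb5]
  have hp : ∀ k, q ^ k ≤ 1 := fun k => pow_le_one₀ hq0.le hq1.le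
  have hs1 : ball ((fp T)^[n + 1] c) (Real.exp (-(bb x : ℝ))) ⊆
      ball ((fp T)^[n + 1] c) (Real.exp (-(bb x : ℝ)) * (1 + q ^ l x)) :=
    ball_subset_ball (le_mul_of_one_le_right (Real.exp_pos _).le
      (le_add_of_nonneg_right (by positivity)))
  have hs2 : ball ((fp T)^[n + 1] c) (Real.exp (-(bb y : ℝ)) * (1 + q ^ l y)) ⊆
      ball ((fp T)^[n + 1] c) (Real.exp (-(bb x : ℝ))) :=
    ball_subset_ball (by nlinarith only [hρ, hp (l y), Real.exp_pos (-(bb y : ℝ))])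
  have hu3 := hu1 y
  rw [mem_ball, dist_eq_norm] at hu3
  have hbr : Br T (l x) (g x) (ball ((fp T)^[n + 1] c) (Real.exp (-(bb x : ℝ)))) :=
    ⟨(hg1 x).diff.mono hs1, fun z hz => (hg1 x).inv z (hs1 hz)⟩
  have heq := (hg1 y).unique (h' := g x) ⟨hbr.diff.mono hs2, fun z hz => hl2 ▸ hbr.inv z (hs2 hz)⟩
    (mem_ball_self (by positivity)) (by rw [hg2, hg2, hl2]) (ball_subset_ball (by
      gcongr 2
      exact pow_le_pow_of_le_one hq0.le hq1.le (Nat.le_succ _)) (hu1 y))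
  have hP1 : 2 * J + (m + 2) * (L * n1 + 1) ≤ P * bb x := by
    have h9 : L * n1 + 1 ≤ (L * (KH * k1) + 1) * bb x := by
      nlinarith only [mul_le_mul_of_nonneg_left h4' hL0.le, hb5]
    have h10 := mul_le_mul_of_nonneg_left h9 (show (0 : ℝ) ≤ m + 2 by positivity)
    rw [hP]
    nlinarith only [h10, hJ0, hb5]
  have hk12' : (k1 : ℝ) ≤ k2 := by exact_mod_cast hk12
  have h9 : 2 * (L * (KH * (k2 * bb x))) + 4 ≤ bb y := by
    nlinarith only [mul_le_mul_of_nonneg_right hK2 (Nat.cast_nonneg (α := ℝ) (bb x)), hxy', hb5]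
  have h10 : L * (KH * k2) / χ * bb x ≤ l x := le_trans (by
    gcongr
    exact le_add_of_nonneg_right (by positivity)) hs
  have h11 : 2 * P / γ * bb x ≤ l x := le_trans (by
    gcongr
    exact le_add_of_nonneg_left (by positivity)) hs
  rw [div_mul_eq_mul_div, div_le_iff₀' hχ] at h10
  rw [div_mul_eq_mul_div, div_le_iff₀' hγ0] at h11
  have hu4 : ‖u y - (fp T)^[n + 1] c‖ ≤ 2 * Real.exp (-(bb y : ℝ)) := by
    nlinarith only [hu3, hp (l y + 1), Real.exp_pos (-(bb y : ℝ))]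
  obtain ⟨hc1, hc2⟩ := (hq _ (hω1 y)).resolve_right fun h12 => by
    have h13 := h12 (l y) (n + 1)
    have h14 : Real.exp (-(bb y : ℝ)) ≤ δ / 4 := by
      rw [← Real.le_log_iff_exp_le (by positivity)]
      linarith [hb0 y]
    rw [← hu2, (hg1 y).inv _ (ball_subset_ball (by
      gcongr 2
      exact pow_le_pow_of_le_one hq0.le hq1.le (Nat.le_succ _)) (hu1 y))] at h13
    linarith
  refine D.step hb hc1 hc2 hχ hχ1 hR hγ0 hγ hm hJ1 hJ2 hJ3 (hsep _ hc1 hc2 _) (hl1 x) hyp hbr (hg2 x)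
    (u := u y) (b' := bb y) hu4 (heq.symm.trans (hu2 y)) (hH _ n1 (by rw [add_comm n1]; exact h5 _ (by omega)))
    (hH _ (n2 + 1) (by rw [add_comm (n2 + 1)]; exact h8 _ (by omega))) hb5' ?_ ?_ ?_ ?_ ?_ ?_ ?_
  · nlinarith only [mul_le_mul_of_nonneg_left h3' hχ.le, hk1, hb5]
  · nlinarith only [hxy', hK4, hb5]
  · refine le_trans ?_ h9
    gcongr
    exact h4'.trans (by gcongr)
  · refine le_trans ?_ h9
    gcongr
  · refine le_trans ?_ h10
    rw [mul_assoc, mul_assoc]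
    gcongr
  · nlinarith only [hP1, mul_le_mul_of_nonneg_left h6' hχ.le, hP0, hb5,
      mul_le_mul_of_nonneg_right hk2 (Nat.cast_nonneg (α := ℝ) (bb x))]
  · have : (0 : ℝ) ≤ L * n1 + 1 := by positivity
    nlinarith only [hP1, h11, this]

end Pool.Agent.MP_28f8a1_an.G42.Act

end
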