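import Pool.Agent.MP_28f8a1_an.Act.Key
import Pool.Agent.MP_28f8a1_an.Mg.G42_Main

section

/-! Bounded speeds give small mass; the theorem in the family with fixed critical multiplicities. -/

set_option autoImplicit false

namespace Pool.Agent.MP_28f8a1_an.G42.Act

open MeasureTheory Metric Set Real Filter Topology Polynomial
open scoped ENNReal

variable {T : ℂ[X]} {Λ L : ℝ}

theorem sp_eq (p : ℂ[X]) (c σ : ℂ) {n : ℕ} (h : Pd T c n ≠ 0) :
    (Pd T c n)⁻¹ * t1718_sp T p c σ n =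
      σ + ∑ k ∈ Finset.range n, (Pd T c (k + 1))⁻¹ * fp p ((fp T)^[k] c) := by
  induction n with
  | zero => simp [Pd_zero, t1718_sp]
  | succ n ih =>
    have h1 := t1718_ne0 h (Nat.lt_succ_self n)
    rw [Finset.sum_range_succ, ← add_assoc, ← ih h1.2, t1718_sp, Pd_succ']
    have := h1.1
    field_simp

theorem phi_id {ι : Type} [Fintype ι] {p : ι → ℂ[X]} {v : ι → ℂ} (hT : 2 ≤ T.natDegree)
    (h1 : ∑ i, p i = 1) (h2 : ∀ i, (p i).natDegree + 2 ≤ T.natDegree)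
    (h3 : ∀ i, derivative T ∣ p i * (T - C (v i))) {ω : ℂ} (hω : lam T ω = 0) {N : ℕ}
    (h0 : Pd T (fp T ω) (N + 1) ≠ 0) {y : ℂ} (hy : ∀ k, (fp T)^[k] (fp T ω) ≠ y)
    (hy' : ∀ i, v i ≠ y) :
    phi T (fp T ω) N y - Tr T (phi T (fp T ω) N) y = (Pd T (fp T ω) (N + 1))⁻¹ *
      (∑ i, t1718_sp T (p i) (fp T ω) (fp (p i) ω) (N + 1) * (y - v i)⁻¹ -
        (y - (fp T)^[N + 1] (fp T ω))⁻¹) := by
  have hv : ∀ i, v i - y ≠ 0 := fun i => sub_ne_zero.2 (hy' i)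
  set P := ∑ i, C (v i - y)⁻¹ * p i with hP'
  have hP : P.natDegree + 2 ≤ T.natDegree := by
    have h5 : P.natDegree ≤ T.natDegree - 2 := natDegree_sum_le_of_forall_le _ _ fun i _ =>
      (natDegree_C_mul_le _ _).trans (Nat.le_sub_of_add_le (h2 i))
    omega
  have hd : derivative T ∣ (T - C y) * P - 1 := by
    rw [← h1, Finset.mul_sum, ← Finset.sum_sub_distrib]
    refine Finset.dvd_sum fun i _ => ?_
    have h4 : C (v i - y)⁻¹ * (C (v i) - C y) = (1 : ℂ[X]) := by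
      rw [← C_sub, ← C_mul, inv_mul_cancel₀ (hv i), C_1]
    rw [show (T - C y) * (C (v i - y)⁻¹ * p i) - p i =
      C (v i - y)⁻¹ * (p i * (T - C (v i))) by linear_combination p i * h4]
    exact (h3 i).mul_left _
  have hPe : ∀ z, fp P z = -∑ i, fp (p i) z * (y - v i)⁻¹ := fun z => by
    simp only [hP', fp, eval_finsetSum, eval_mul, eval_C, ← Finset.sum_neg_distrib]
    exact Finset.sum_congr rfl fun i _ => by rw [← neg_sub y, inv_neg]; ring
  set c := fp T ω with hc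
  have hPω : fp P ω = -(y - c)⁻¹ := by
    obtain ⟨Q, hQ⟩ := hd
    have h5 : (c - y) * fp P ω - 1 = lam T ω * Q.eval ω := by
      simpa [fp, lam, hc] using congrArg (eval ω) hQ
    have h6 : y - c ≠ 0 := sub_ne_zero.2 (hy 0).symm
    rw [hω, zero_mul] at h5
    field_simp
    linear_combination -h5
  have h4 : Tr T (phi T c N) y = ∑ k ∈ Finset.range (N + 1), (Pd T c k)⁻¹ *
      Tr T (fun z => (z - (fp T)^[k] c)⁻¹) y := by
    simp only [Tr, tm, phi, Finset.sum_div, Finset.mul_sum, mul_div_assoc]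
    exact Finset.sum_comm
  have h5 : ∀ k ∈ Finset.range (N + 1), (Pd T c k)⁻¹ * Tr T (fun z => (z - (fp T)^[k] c)⁻¹) y =
      (Pd T c (k + 1))⁻¹ * fp P ((fp T)^[k] c) +
        (Pd T c (k + 1))⁻¹ * (y - (fp T)^[k + 1] c)⁻¹ := fun k hk => by
    have h6 := t1718_ne0 h0 (Finset.mem_range.mp hk)
    rw [Tr_pole hP hd h6.1 (by rw [← Function.iterate_succ_apply' (fp T)]; exact hy _), Pd_succ',
      Function.iterate_succ_apply', mul_inv, mul_inv, div_eq_mul_inv]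
    ring
  have h6 : (Pd T c (N + 1))⁻¹ * ∑ i, t1718_sp T (p i) c (fp (p i) ω) (N + 1) * (y - v i)⁻¹ =
      -fp P ω - ∑ k ∈ Finset.range (N + 1), (Pd T c (k + 1))⁻¹ * fp P ((fp T)^[k] c) := by
    simp only [Finset.mul_sum, ← mul_assoc, sp_eq _ _ _ h0, add_mul, Finset.sum_add_distrib, hPe,
      neg_neg, mul_neg, Finset.sum_neg_distrib, sub_neg_eq_add, Finset.sum_mul]
    rw [Finset.sum_comm]
  rw [h4, Finset.sum_congr rfl h5, Finset.sum_add_distrib, mul_sub, h6, hPω, phi,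
    Finset.sum_range_succ' (fun k => (Pd T c k)⁻¹ * (y - (fp T)^[k] c)⁻¹),
    Finset.sum_range_succ (fun k => (Pd T c (k + 1))⁻¹ * (y - (fp T)^[k + 1] c)⁻¹), Pd_zero]
  simp only [Function.iterate_zero, id, inv_one, one_mul]
  ring

theorem mass_of {ι : Type} [Fintype ι] {p : ι → ℂ[X]} {v : ι → ℂ} (D : Dyn T Λ L)
    (hT : 2 ≤ T.natDegree) (h1 : ∑ i, p i = 1) (h2 : ∀ i, (p i).natDegree + 2 ≤ T.natDegree)
    (h3 : ∀ i, derivative T ∣ p i * (T - C (v i))) {ω : ℂ} (hω : lam T ω = 0) {V : ℝ} (hV0 : 0 ≤ V)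
    (hV : ∀ i n, ‖t1718_sp T (p i) (fp T ω) (fp (p i) ω) n‖ ≤ V)
    (hL : 4 * π * (Λ + 1) * (Fintype.card ι * V + 1) ≤ Real.exp L) : Mass T Λ L (fp T ω) := by
  rintro N h0 w σ ⟨l, hl⟩
  have hΛ := D.one
  have hT0 : 0 < T.natDegree := by omega
  set c := fp T ω with hc
  set ε := ‖Pd T c (N + 1)‖⁻¹ * ((Fintype.card ι * V + 1) * (2 * π * (Λ + 1))) with hε
  have hε0 : 0 ≤ ε := by positivity
  have hE3 : ∀ X ⊆ ball (0 : ℂ) (Λ + 1),
      LI X (fun y => ‖phi T c N y - Tr T (phi T c N) y‖) ≤ ENNReal.ofReal ε := by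
    intro X hX
    have hB : volume (range (fun k => (fp T)^[k] c) ∪ range v) = 0 :=
      ((countable_range _).union (countable_range _)).measure_zero _
    refine (LI_mono_set hX _).trans ((LI_mono_ae measurableSet_ball hB
      (v := fun y => ‖Pd T c (N + 1)‖⁻¹ * (∑ i, V * gk (v i) y + gk ((fp T)^[N + 1] c) y))
      fun y _ hy => ?_).trans ?_)
    · rw [phi_id hT h1 h2 h3 hω h0 (fun k h => hy (Or.inl ⟨k, h⟩)) fun i h => hy (Or.inr ⟨i, h⟩),
        norm_mul, norm_inv]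
      refine mul_le_mul_of_nonneg_left ((norm_sub_le _ _).trans (add_le_add ((norm_sum_le _ _).trans
        (Finset.sum_le_sum fun i _ => ?_)) (norm_inv _).le)) (by positivity)
      rw [norm_mul, norm_inv]
      exact mul_le_mul_of_nonneg_right (hV i _) (by positivity)
    · rw [LI_const_mul _ (by positivity), hε, ENNReal.ofReal_mul (by positivity)]
      refine mul_le_mul_right ((LI_add_le _ (by fun_prop) _).trans ?_) _
      rw [add_mul, one_mul, ENNReal.ofReal_add (by positivity) (by positivity)]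
      refine add_le_add ((LI_sum_le _ _ fun k _ => by fun_prop).trans ((Finset.sum_le_card_nsmul _ _
        (ENNReal.ofReal (V * (2 * π * (Λ + 1)))) fun k _ => ?_).trans_eq ?_)) (LI_gk_le _ _ _)
      · rw [LI_const_mul _ hV0, ENNReal.ofReal_mul hV0]
        exact mul_le_mul_right (LI_gk_le _ _ _) _
      · rw [mul_assoc (Fintype.card ι : ℝ), ENNReal.ofReal_mul (Nat.cast_nonneg _),
          ENNReal.ofReal_natCast, nsmul_eq_mul, Finset.card_univ]
  have hm : ∀ m, MeasurableSet ((fp T)^[m] ⁻¹' ball 0 (Λ + 1)) := fun m =>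
    (iter_diff m).continuous.measurable measurableSet_ball
  have hsub : ∀ m, (fp T)^[m] ⁻¹' ball 0 (Λ + 1) ⊆ ball 0 (Λ + 1) := fun m y hy =>
    mem_ball_zero_iff.mpr (back_ball D.esc (by linarith) m (mem_ball_zero_iff.mp hy))
  have hstep : ∀ m, LI ((fp T)^[m] ⁻¹' ball 0 (Λ + 1)) (fun y => ‖phi T c N y‖) ≤
      LI ((fp T)^[m + 1] ⁻¹' ball 0 (Λ + 1)) (fun y => ‖phi T c N y‖) + ENNReal.ofReal ε := fun m =>
    (le_self_add.trans (transfer hT0 (measurable_phi c N) (hm m))).trans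
      (add_le_add le_rfl (hE3 _ (hsub m)))
  have hun : LI ((fp T)^[l + 2] ⁻¹' ball 0 (Λ + 1)) (fun y => ‖phi T c N y‖) +
      LI (ball w σ) (fun y => ‖phi T c N y‖) ≤
        LI ((fp T)^[l] ⁻¹' ball 0 (Λ + 1)) (fun y => ‖phi T c N y‖) := by
    unfold LI
    rw [← lintegral_union measurableSet_ball]
    · refine lintegral_mono_set (union_subset (fun y hy => ?_) fun y hy =>
        mem_ball_zero_iff.mpr (hl y hy).1)
      rw [mem_preimage, add_comm l, Function.iterate_add_apply, mem_ball_zero_iff] at hy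
      exact mem_ball_zero_iff.mpr (back_ball D.esc (by linarith) 2 hy)
    · exact disjoint_left.mpr fun y hy hy' =>
        absurd (mem_ball_zero_iff.mp hy) (not_lt.mpr (hl y hy').2)
  have h4 := hun.trans ((hstep l).trans (add_le_add (hstep (l + 1)) le_rfl))
  rw [add_assoc, ← ENNReal.ofReal_add hε0 hε0] at h4
  have hfin : LI (ball 0 (Λ + 1)) (fun y => ‖phi T c N y‖) ≠ ⊤ := by
    refine ne_top_of_le_ne_top ?_ ((LI_mono (v := fun y => ∑ k ∈ Finset.range (N + 1),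
      ‖(Pd T c k)⁻¹‖ * gk ((fp T)^[k] c) y) measurableSet_ball fun y _ => ?_).trans
      (LI_sum_le _ _ fun k _ => by fun_prop))
    · refine ENNReal.sum_ne_top.mpr fun k _ => ?_
      rw [LI_const_mul _ (norm_nonneg _)]
      exact ENNReal.mul_ne_top ENNReal.ofReal_ne_top
        (ne_top_of_le_ne_top ENNReal.ofReal_ne_top (LI_gk_le _ _ _))
    · refine (norm_sum_le _ _).trans (Finset.sum_le_sum fun k _ => ?_)
      rw [norm_mul, norm_inv (y - _), gk]
  refine (ENNReal.le_of_add_le_add_left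
    (ne_top_of_le_ne_top hfin (LI_mono_set (hsub _) _)) h4).trans (ENNReal.ofReal_le_ofReal ?_)
  have h5 := mul_le_mul_of_nonneg_right hL (inv_nonneg.mpr (norm_nonneg (Pd T c (N + 1))))
  rw [hε]
  linarith

theorem bd_of (hΛ : 0 < Λ) (hesc : ∀ z : ℂ, Λ ≤ ‖z‖ → 2 * ‖z‖ ≤ ‖fp T z‖) {c : ℂ}
    (h : ¬Tendsto (fun k : ℕ => ‖(fp T)^[k] c‖) atTop atTop) : Bd T Λ c := fun k => by
  by_contra h1
  push Not at h1
  refine h ((tendsto_add_atTop_iff_nat k).1 (tendsto_atTop_mono (fun j => ?_)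
    ((tendsto_pow_atTop_atTop_of_one_lt (one_lt_two (α := ℝ))).atTop_mul_const (hΛ.trans h1))))
  rw [Function.iterate_add_apply]
  exact esc_iter hΛ hesc h1.le j

theorem far {v : ℂ} (h : Tendsto (fun k : ℕ => ‖(fp T)^[k] v‖) atTop atTop) :
    ∃ δ > 0, ∀ k y, Bd T Λ y → δ ≤ ‖(fp T)^[k + 1] v - y‖ := by
  have hK : IsClosed {y | Bd T Λ y} := by
    simp only [Bd, ofPred_forall]
    exact isClosed_iInter fun j => isClosed_le (iter_diff j).continuous.norm continuous_const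
  obtain ⟨k₀, hk₀⟩ := eventually_atTop.mp (h.eventually_ge_atTop (Λ + 1))
  choose d hd0 hd using fun k => Metric.isOpen_iff.mp hK.isOpen_compl ((fp T)^[k] v) fun hb => by
    have := hb k₀
    rw [it_add] at this
    linarith [hk₀ (k₀ + k) (by omega)]
  obtain ⟨i, -, hi⟩ := Finset.exists_min_image (Finset.range (k₀ + 1)) d ⟨0, by simp⟩
  refine ⟨min 1 (d i), lt_min one_pos (hd0 i), fun k y hy => ?_⟩
  rcases le_total k₀ (k + 1) with h1 | h1
  · linarith [min_le_left 1 (d i), hk₀ _ h1, show ‖y‖ ≤ Λ from hy 0,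
      norm_sub_norm_le ((fp T)^[k + 1] v) y]
  · refine (min_le_right _ _).trans ((hi (k + 1) (Finset.mem_range.mpr (by omega))).trans ?_)
    rw [norm_sub_rev]
    exact not_lt.mp fun h2 => hd (k + 1) (mem_ball_iff_norm.mpr h2) hy

end Pool.Agent.MP_28f8a1_an.G42.Act

end

section

/-! If no bounded critical orbit escapes after a small perturbation, then the upper exponents
are not positive. -/

set_option autoImplicit false

namespace Pool.Agent.MP_28f8a1_an.G42.Act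

open MeasureTheory Metric Set Real Filter Topology Polynomial
open scoped ENNReal

/-- The orbit escapes. -/
def Esc (T : ℂ[X]) (c : ℂ) : Prop := Tendsto (fun k : ℕ => ‖(fp T)^[k] c‖) atTop atTop

/-- The upper exponent is positive. -/
def Pos (T : ℂ[X]) (c : ℂ) : Prop :=
  ∃ χ : ℝ, 0 < χ ∧ ∀ N : ℕ, ∃ n : ℕ, N ≤ n ∧ Real.exp (χ * n) ≤ ‖Pd T c n‖

theorem Bd.succ {T : ℂ[X]} {Λ : ℝ} {c : ℂ} (h : Bd T Λ c) : Bd T Λ (fp T c) := h.iter 1

variable {ι : Type} [Fintype ι] [Nonempty ι] {a : ℂ} {m : ι → ℕ}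

theorem passive (ha : a ≠ 0) {x₀ : (ι → ℂ) × ℂ} (hx : Function.Injective x₀.1)
    (h : ∀ j, Esc (pol a m x₀) (x₀.1 j) ∨ ∀ᶠ x in 𝓝 x₀, ¬Esc (pol a m x) (x.1 j)) {i : ι}
    (hi : ¬Esc (pol a m x₀) (x₀.1 i)) : ¬Pos (pol a m x₀) (fp (pol a m x₀) (x₀.1 i)) := by
  rintro ⟨χ', hχ', hexp⟩
  have hd : 2 ≤ ∑ i, (m i + 1) + 1 :=
    Nat.succ_le_succ (Finset.sum_pos (fun i _ => Nat.succ_pos _) Finset.univ_nonempty)
  have hF := pol_sm (a := a) (m := m)
  obtain ⟨Λ', hΛ'⟩ := adm_near hF hd (pol_deg ha) x₀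
  obtain ⟨Λ, hΛ1, hesc⟩ : ∃ Λ : ℝ, 1 ≤ Λ ∧
      ∀ᶠ x in 𝓝 x₀, ∀ z : ℂ, Λ ≤ ‖z‖ → 2 * ‖z‖ ≤ ‖fp (pol a m x) z‖ :=
    ⟨max 1 Λ', le_max_left _ _, hΛ'.mono fun x hx z hz => hx.esc z ((le_max_right _ _).trans hz)⟩
  have hΛ0 : 0 < Λ := by linarith
  have h1 : ∀ᶠ x in 𝓝 x₀, ∀ j, ¬Esc (pol a m x₀) (x₀.1 j) → Bd (pol a m x) Λ (x.1 j) := by
    refine eventually_all.mpr fun j => ?_
    rcases h j with h2 | h2
    · exact Eventually.of_forall fun x h3 => absurd h2 h3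
    · filter_upwards [h2, hesc] with x h3 h4 _ using bd_of hΛ0 h4 h3
  obtain ⟨η, hη, h2⟩ := Metric.eventually_nhds_iff_ball.mp h1
  obtain ⟨η₁, hη₁, K, hK, hdir⟩ := dirs (m := m) ha hx
  obtain ⟨-, u, p, p1, p2⟩ := hdir x₀ (mem_closedBall_self hη₁.le)
  have hV : ∀ j, ¬Esc (pol a m x₀) (x₀.1 j) → ∀ k n, ‖t1718_sp (pol a m x₀) (p k)
      (fp (pol a m x₀) (x₀.1 j)) (fp (p k) (x₀.1 j)) n‖ ≤ 2 * Λ / (η / K) := by
    intro j hj k n
    have hl := hF.line x₀ (u k)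
    have a1 : HasStrictDerivAt (fun s : ℂ => (x₀ + s • u k).1 j) ((u k).1 j) 0 := by
      simpa using ((hasStrictDerivAt_id (0 : ℂ)).mul_const ((u k).1 j)).const_add (x₀.1 j)
    have a2 := t1718_orbit hl (p2 k).2.1 ((p2 k).2.1.fp hl a1) n
    simp only [zero_smul, add_zero] at a2
    rw [(pol_crit ha x₀ _).mpr ⟨j, rfl⟩, zero_mul, zero_add] at a2
    rw [← a2.hasDerivAt.deriv]
    have a3 : ∀ s ∈ ball (0 : ℂ) (η / K), ‖(fp (pol a m (x₀ + s • u k)))^[n]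
        (fp (pol a m (x₀ + s • u k)) ((x₀ + s • u k).1 j))‖ ≤ Λ := fun s hs => by
      refine (h2 _ ?_ j hj).succ n
      rw [mem_ball_zero_iff, lt_div_iff₀ hK] at hs
      rw [mem_ball_iff_norm, add_sub_cancel_left, norm_smul]
      exact (mul_le_mul_of_nonneg_left (p2 k).1 (norm_nonneg _)).trans_lt hs
    refine Complex.norm_deriv_le_div_of_mapsTo_ball ?_ (fun s hs => ?_) (by positivity)
    · have a4 : Differentiable ℂ fun s : ℂ => (s, (x₀ + s • u k).1 j) := by fun_prop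
      exact (((hl.iter_cd (n + 1)).differentiable one_ne_zero).comp a4).differentiableOn
    · rw [mem_closedBall_iff_norm]
      linarith [a3 s hs, a3 0 (mem_ball_self (by positivity)), norm_sub_le
        ((fp (pol a m (x₀ + s • u k)))^[n] (fp (pol a m (x₀ + s • u k)) ((x₀ + s • u k).1 j)))
        ((fp (pol a m (x₀ + (0 : ℂ) • u k)))^[n]
          (fp (pol a m (x₀ + (0 : ℂ) • u k)) ((x₀ + (0 : ℂ) • u k).1 j)))]
  have hb := fun j hj => (h2 x₀ (mem_ball_self hη) j hj).succ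
  have hdeg := pol_deg (m := m) ha x₀
  have hcrit := pol_crit (m := m) ha x₀
  have hesc0 := hesc.self_of_nhds
  have p3 := fun k => (p2 k).2.2
  generalize pol a m x₀ = T at *
  obtain ⟨χ, hχ, hχ1, hχ4⟩ : ∃ χ : ℝ, 0 < χ ∧ χ ≤ 1 ∧ 4 * χ ≤ χ' :=
    ⟨min 1 (χ' / 4), lt_min one_pos (by linarith), min_le_left _ _,
      by linarith [min_le_right 1 (χ' / 4)]⟩
  obtain ⟨M, hM⟩ := (isCompact_closedBall (0 : ℂ) (Λ + 1)).exists_bound_of_continuousOn
    (lam_diff (T := T)).continuous.continuousOn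
  have hM0 : 0 ≤ M := (norm_nonneg _).trans (hM 0 (mem_closedBall_self (by linarith)))
  obtain ⟨L, D, hL1, hL2⟩ : ∃ L, Dyn T Λ L ∧ 1024 / χ ≤ Real.exp L ∧
      4 * π * (Λ + 1) * (Fintype.card ι * (2 * Λ / (η / K)) + 1) ≤ Real.exp L := by
    have b1 : 0 ≤ 1024 / χ := by positivity
    have b2 : 0 ≤ 4 * π * (Λ + 1) * (Fintype.card ι * (2 * Λ / (η / K)) + 1) := by positivity
    generalize 4 * π * (Λ + 1) * (Fintype.card ι * (2 * Λ / (η / K)) + 1) = W at b2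
    have b3 := Real.add_one_le_exp (M + 4 * Λ + 1024 / χ + W)
    exact ⟨M + 4 * Λ + 1024 / χ + W, ⟨hΛ1, by linarith, hesc0,
      fun z hz => (hM z (mem_closedBall_zero_iff.mpr hz)).trans (by linarith), by linarith⟩,
      by linarith, by linarith⟩
  have h3 : ∀ j, ∃ δ > 0, Esc T (x₀.1 j) →
      ∀ k y, Bd T Λ y → δ ≤ ‖(fp T)^[k + 1] (x₀.1 j) - y‖ := fun j => by
    by_cases hj : Esc T (x₀.1 j)
    · exact (far hj).imp fun δ hδ => ⟨hδ.1, fun _ => hδ.2⟩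
    · exact ⟨1, one_pos, fun h => absurd h hj⟩
  choose δ hδ0 hδ using h3
  obtain ⟨j₀, hj₀⟩ := Finite.exists_min δ
  refine D.no_exp (by omega) hχ hχ1 hL1 ((hcrit _).mpr ⟨i, rfl⟩) rfl (hb i hi) (hδ0 j₀)
    (fun ω hω => ?_) fun N => (hexp N).imp fun n hn => ⟨hn.1, le_trans (by gcongr) hn.2⟩
  obtain ⟨j, rfl⟩ := (hcrit _).mp hω
  by_cases hj : Esc T (x₀.1 j)
  · exact Or.inr fun k l => (hj₀ j).trans (hδ j hj k _ ((hb i hi).iter l))
  · exact Or.inl ⟨hb j hj, mass_of D (by omega) p1 (fun k => by have := (p3 k).1; omega)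
      (fun k => (p3 k).2) hω (by positivity) (hV j hj) hL2⟩

end Pool.Agent.MP_28f8a1_an.G42.Act

end

section

/-! A critical point with positive upper exponent escapes after a small perturbation. -/

set_option autoImplicit false

namespace Pool.Agent.MP_28f8a1_an.G42.Act

open MeasureTheory Metric Set Real Filter Topology Polynomial
open scoped ENNReal

theorem Pd_diff {E : Type} [NormedAddCommGroup E] [NormedSpace ℂ E] {d : ℕ} {F : E → ℂ[X]}
    (h : Sm d F) (k : ℕ) : Differentiable ℂ fun w : E × ℂ => Pd (F w.1) w.2 k := by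
  induction k with
  | zero => simp [Pd_zero]
  | succ k ih =>
    simp only [Pd_succ']
    exact ((h.lam_cd.comp (contDiff_fst.prodMk (h.iter_cd k))).differentiable one_ne_zero).mul ih

theorem Bd.not_esc {T : ℂ[X]} {Λ : ℝ} {c : ℂ} (h : Bd T Λ c) : ¬Esc T c := fun h1 => by
  obtain ⟨k, hk⟩ := (h1.eventually_gt_atTop Λ).exists
  exact absurd (h k) (not_le.mpr hk)

variable {ι : Type} [Fintype ι] [Nonempty ι] {a : ℂ} {m : ι → ℕ}

theorem active (ha : a ≠ 0) {x₀ : (ι → ℂ) × ℂ} (hx : Function.Injective x₀.1) {i : ι}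
    (hp : Pos (pol a m x₀) (fp (pol a m x₀) (x₀.1 i))) :
    ∃ᶠ x in 𝓝 x₀, Esc (pol a m x) (x.1 i) := by
  intro hcon
  have hd : 2 ≤ ∑ i, (m i + 1) + 1 :=
    Nat.succ_le_succ (Finset.sum_pos (fun i _ => Nat.succ_pos _) Finset.univ_nonempty)
  have hF := pol_sm (a := a) (m := m)
  obtain ⟨Λ', hΛ'⟩ := adm_near hF hd (pol_deg ha) x₀
  obtain ⟨Λ, hΛ1, hesc⟩ : ∃ Λ : ℝ, 1 ≤ Λ ∧
      ∀ᶠ x in 𝓝 x₀, ∀ z : ℂ, Λ ≤ ‖z‖ → 2 * ‖z‖ ≤ ‖fp (pol a m x) z‖ :=
    ⟨max 1 Λ', le_max_left _ _, hΛ'.mono fun x hx z hz => hx.esc z ((le_max_right _ _).trans hz)⟩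
  have hΛ0 : 0 < Λ := by linarith
  obtain ⟨M, hM0, hM⟩ := t1720_lam hF x₀ (Λ + 1)
  obtain ⟨η₁, hη₁, _, -, hinj⟩ := dirs (m := m) ha hx
  obtain ⟨η, hη, hU⟩ := Metric.eventually_nhds_iff_ball.mp
    (hcon.and (hesc.and (hM.and (closedBall_mem_nhds x₀ hη₁))))
  have hpas := fun x hxU h =>
    passive (m := m) (x₀ := x) ha (hinj x (hU x hxU).2.2.2).1 h (hU x hxU).1
  clear hinj hM hesc hΛ' hcon
  generalize pol a m = P at *
  have hit : ∀ (j : ι) (k : ℕ), Differentiable ℂ fun x : (ι → ℂ) × ℂ => (fp (P x))^[k] (x.1 j) :=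
    fun j k => ((hF.iter_cd k).differentiable one_ne_zero).comp
      (show Differentiable ℂ fun x : (ι → ℂ) × ℂ => (x, x.1 j) by fun_prop)
  suffices h : ∀ k, ∀ x ∈ ball x₀ η, {j | ¬Esc (P x) (x.1 j)}.ncard < k →
      ¬Pos (P x) (fp (P x) (x.1 i)) from h _ x₀ (mem_ball_self hη) (lt_add_one _) hp
  intro k
  induction k with
  | zero => exact fun _ _ h => absurd h (Nat.not_lt_zero _)
  | succ k ih =>
    intro x hxU hk hpx
    have h1 := mt (hpas x hxU) (not_not.mpr hpx)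
    push Not at h1
    obtain ⟨j, hj1, hj2⟩ := h1
    obtain ⟨χ, hχ, hexp⟩ := hpx
    have h2 : ∀ᶠ y in 𝓝 x, ∀ j', Esc (P x) (x.1 j') → Esc (P y) (y.1 j') := by
      refine eventually_all.mpr fun j' => ?_
      by_cases h3 : Esc (P x) (x.1 j')
      · obtain ⟨n, hn⟩ := (h3.eventually_gt_atTop Λ).exists
        filter_upwards [((hit j' n).continuous.norm.tendsto x).eventually_const_lt hn,
          isOpen_ball.mem_nhds hxU] with y h4 h5 _
        by_contra h6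
        exact absurd (bd_of hΛ0 (hU y h5).2.1 h6 n) (not_le.mpr h4)
      · exact Eventually.of_forall fun y h4 => absurd h4 h3
    obtain ⟨r, hr, h3⟩ := nhds_basis_closedBall.eventually_iff.mp (h2.and (isOpen_ball.mem_nhds hxU))
    obtain ⟨ε, hε, hε1, hthin⟩ := thin hχ (show χ ≤ χ + M + 4 * Λ by linarith)
    obtain ⟨y, hy1, hy2⟩ := (hj2.and_eventually (ball_mem_nhds x (mul_pos hε hr))).exists
    have ht : 0 < ‖y - x‖ := norm_pos_iff.mpr (sub_ne_zero.mpr fun h => hj1 (h ▸ hy1))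
    set u := ((r / ‖y - x‖ : ℝ) : ℂ) • (y - x) with hu
    have hu1 : ‖u‖ = r := by
      rw [hu, norm_smul, Complex.norm_real, Real.norm_of_nonneg (by positivity),
        div_mul_cancel₀ _ ht.ne']
    have hu2 : x + ((‖y - x‖ / r : ℝ) : ℂ) • u = y := by
      rw [hu, smul_smul, ← Complex.ofReal_mul, div_mul_div_cancel₀ hr.ne', div_self ht.ne',
        Complex.ofReal_one, one_smul, add_sub_cancel]
    have h4 : ∀ s : ℂ, ‖s‖ ≤ 1 → x + s • u ∈ closedBall x r := fun s hs => by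
      rw [mem_closedBall_iff_norm, add_sub_cancel_left, norm_smul, hu1]
      exact mul_le_of_le_one_left hr.le hs
    have hl : Differentiable ℂ fun s : ℂ => x + s • u := by fun_prop
    refine hthin (fun n s => Pd (P (x + s • u)) (fp (P (x + s • u)) ((x + s • u).1 i)) n)
      (fun n => (Pd_diff hF n).comp (hl.prodMk ((hit i 1).comp hl))) (fun n s hs => ?_)
      (by simpa only [zero_smul, add_zero] using hexp) fun ρ hρ => ?_
    · obtain ⟨b1, b2, b3, -⟩ := hU _ (h3 (h4 s hs)).2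
      have b4 := Real.add_one_le_exp (χ + M + 4 * Λ)
      exact Dyn.Pd_bd ⟨hΛ1, by linarith, b2,
        fun z hz => (b3 z (mem_closedBall_zero_iff.mpr hz)).trans (by linarith), by linarith⟩
        (bd_of hΛ0 b2 b1).succ n
    obtain ⟨s, hs1, hs2⟩ : ∃ s : ℂ, ‖s‖ = ρ ∧ Esc (P (x + s • u)) ((x + s • u).1 j) := by
      by_contra h5
      push Not at h5
      refine Bd.not_esc (Λ := Λ) (fun n => ?_) hy1
      rw [← hu2]
      refine Complex.norm_le_of_forall_mem_frontier_norm_le (U := ball 0 ρ) isBounded_ball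
        ((hit j n).comp hl).diffContOnCl (fun s hs => ?_) (subset_closure ?_)
      · rw [frontier_ball _ (hε.trans hρ.1).ne', mem_sphere_zero_iff_norm] at hs
        exact bd_of hΛ0 (hU _ (h3 (h4 s (by linarith [hρ.2]))).2).2.1 (h5 s hs) n
      · rw [mem_ball_zero_iff, Complex.norm_real, Real.norm_of_nonneg (by positivity)]
        exact ((div_lt_iff₀ hr).mpr (mem_ball_iff_norm.mp hy2)).trans hρ.1
    obtain ⟨b1, b2⟩ := h3 (h4 s (by linarith [hρ.2]))
    have b3 := ih _ b2 (lt_of_lt_of_le (ncard_lt_ncard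
      ⟨fun j' h5 h6 => h5 (b1 j' h6), fun h5 => h5 hj1 hs2⟩) (Nat.lt_succ_iff.mp hk))
    refine ⟨s, hs1, ?_⟩
    by_contra h5
    push Not at h5
    exact b3 ⟨χ / 2, half_pos hχ, fun N => (h5 N).imp fun n hn => ⟨hn.1, hn.2.le⟩⟩

theorem act_fam (ha : a ≠ 0) {x₀ : (ι → ℂ) × ℂ} (hx : Function.Injective x₀.1) {ω : ℂ}
    (hω : lam (pol a m x₀) ω = 0) (hp : Pos (pol a m x₀) (fp (pol a m x₀) ω)) {ε : ℝ} (hε : 0 < ε) :
    ∃ (S : ℂ[X]) (β : ℂ → ℂ), S.natDegree = (pol a m x₀).natDegree ∧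
      (∀ i, ‖S.coeff i - (pol a m x₀).coeff i‖ < ε) ∧
      BijOn β {c | lam (pol a m x₀) c = 0} {c | lam S c = 0} ∧ Esc S (β ω) ∧
      ∀ c, lam (pol a m x₀) c = 0 → ‖β c - c‖ < ε ∧ (Capt (pol a m x₀) c → Capt S (β c)) := by
  have hd : 2 ≤ ∑ i, (m i + 1) + 1 :=
    Nat.succ_le_succ (Finset.sum_pos (fun i _ => Nat.succ_pos _) Finset.univ_nonempty)
  have hF := pol_sm (a := a) (m := m)
  obtain ⟨Λ, hΛ⟩ := adm_near hF hd (pol_deg ha) x₀
  have h1 : ∀ i, ∀ᶠ x in 𝓝 x₀, Capt (pol a m x₀) (x₀.1 i) → Capt (pol a m x) (x.1 i) := fun i => by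
    by_cases h : Capt (pol a m x₀) (x₀.1 i)
    · obtain ⟨r, r0, r1, h2⟩ := persist hF hΛ h
      have hc : ContinuousAt (fun x : (ι → ℂ) × ℂ => (x, x.1 i)) x₀ := by fun_prop
      exact (hc.eventually h2).mono fun x hx _ => hx.capt r0 r1
    · exact Eventually.of_forall fun x h' => absurd h' h
  have h2 : ∀ᶠ x in 𝓝 x₀, ∀ j ∈ Finset.range (∑ i, (m i + 1) + 1 + 1),
      ‖(pol a m x).coeff j - (pol a m x₀).coeff j‖ < ε := (Finset.eventually_all _).mpr fun j _ =>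
    by simpa only [dist_eq_norm] using
      Metric.tendsto_nhds.mp ((hF.cd j).continuous.tendsto x₀) ε hε
  obtain ⟨η₁, hη₁, _, -, h3⟩ := dirs (m := m) ha hx
  obtain ⟨i, rfl⟩ := (pol_crit ha x₀ ω).mp hω
  obtain ⟨x, b0, b1, b2, b3, b4⟩ := ((active ha hx hp).and_eventually ((eventually_all.mpr h1).and
    (h2.and ((show ∀ᶠ x in 𝓝 x₀, x ∈ ball x₀ ε from ball_mem_nhds x₀ hε).and
      (closedBall_mem_nhds x₀ hη₁))))).exists
  have hβ : ∀ j, Function.extend x₀.1 x.1 id (x₀.1 j) = x.1 j := hx.extend_apply _ _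
  refine ⟨pol a m x, Function.extend x₀.1 x.1 id, by rw [pol_deg ha, pol_deg ha], fun j => ?_, ?_,
    hβ i ▸ b0, fun c hc => ?_⟩
  · by_cases hj : j < ∑ i, (m i + 1) + 1 + 1
    · exact b2 j (Finset.mem_range.mpr hj)
    · rw [coeff_eq_zero_of_natDegree_lt (by rw [pol_deg ha]; omega),
        coeff_eq_zero_of_natDegree_lt (by rw [pol_deg ha]; omega), sub_self, norm_zero]
      exact hε
  · simp only [pol_crit ha]
    refine ⟨?_, ?_, ?_⟩
    · rintro _ ⟨j, rfl⟩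
      exact ⟨j, (hβ j).symm⟩
    · rintro _ ⟨j, rfl⟩ _ ⟨k, rfl⟩ h
      rw [hβ, hβ] at h
      rw [(h3 x b4).1 h]
    · rintro _ ⟨j, rfl⟩
      exact ⟨_, ⟨j, rfl⟩, hβ j⟩
  · obtain ⟨j, rfl⟩ := (pol_crit ha x₀ c).mp hc
    rw [hβ]
    exact ⟨((norm_le_pi_norm (x - x₀).1 j).trans (norm_fst_le _)).trans_lt
      (mem_ball_iff_norm.mp b3), b1 j⟩

/-- The activity theorem. -/
theorem act {T : ℂ[X]} (hT : 2 ≤ T.natDegree) {ω : ℂ} (hω : lam T ω = 0) {l : ℝ} (hl : 1 < l)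
    (h : ∀ N : ℕ, ∃ n : ℕ, N ≤ n ∧ l ^ n ≤ ‖Pd T (fp T ω) n‖) {ε : ℝ} (hε : 0 < ε) :
    ∃ (S : ℂ[X]) (β : ℂ → ℂ), S.natDegree = T.natDegree ∧ (∀ i, ‖S.coeff i - T.coeff i‖ < ε) ∧
      BijOn β {c | lam T c = 0} {c | lam S c = 0} ∧ Esc S (β ω) ∧
      ∀ c, lam T c = 0 → ‖β c - c‖ < ε ∧ (Capt T c → Capt S (β c)) := by
  obtain ⟨a, ha, m, hm⟩ := pol_surj (T := T) (by omega)
  have hne : Nonempty T.derivative.roots.toFinset := by
    by_contra h
    have := not_nonempty_iff.mp h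
    have h1 := pol_deg (m := m) ha (Subtype.val, T.eval 0)
    rw [hm, Finset.univ_eq_empty, Finset.sum_empty] at h1
    omega
  have := act_fam (m := m) ha (x₀ := (Subtype.val, T.eval 0)) Subtype.val_injective (ω := ω)
    (by rwa [hm]) (by
      rw [hm]
      refine ⟨Real.log l, Real.log_pos hl, fun N => (h N).imp fun n hn => ⟨hn.1, ?_⟩⟩
      rw [mul_comm, Real.exp_nat_mul, Real.exp_log (by linarith)]
      exact hn.2) hε
  rwa [hm] at this

end Pool.Agent.MP_28f8a1_an.G42.Act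

end
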